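import Pool.Agent.H407.Edr.Chain

set_option autoImplicit false

namespace Pool.Agent.H407.Edr

open Polynomial

noncomputable section

variable {p : ℕ} [Fact p.Prime] {k : Type} [Field k] [CharP k p]

theorem charP_of_hom {A : Type} [CommRing A] (hp : (p : A) = 0) (s : A →+* k) : CharP A p := by
  refine ⟨fun n => ⟨fun h => ?_, fun h => ?_⟩⟩
  · have := congrArg s h
    rw [map_natCast, map_zero] at this
    exact (CharP.cast_eq_zero_iff k p n).mp this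
  · obtain ⟨m, rfl⟩ := h
    rw [Nat.cast_mul, hp, zero_mul]

/-- the polynomial `X ^ p - β` -/
def pb (p : ℕ) (β : k) : k[X] := X ^ p - C β

/-- pairs of polynomials which agree modulo `X ^ p - β` -/
def SS (p : ℕ) (β : k) : Subring (k[X] × k[X]) where
  carrier := {f | pb p β ∣ f.1 - f.2}
  mul_mem' := by
    intro a b ha hb
    have : (a * b).1 - (a * b).2 = a.1 * (b.1 - b.2) + (a.1 - a.2) * b.2 := by
      simp only [Prod.fst_mul, Prod.snd_mul]; ring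
    show pb p β ∣ (a * b).1 - (a * b).2
    rw [this]
    exact dvd_add (Dvd.dvd.mul_left hb _) (Dvd.dvd.mul_right ha _)
  one_mem' := by simp
  add_mem' := by
    intro a b ha hb
    have : (a + b).1 - (a + b).2 = (a.1 - a.2) + (b.1 - b.2) := by
      simp only [Prod.fst_add, Prod.snd_add]; ring
    show pb p β ∣ (a + b).1 - (a + b).2
    rw [this]
    exact dvd_add ha hb
  zero_mem' := by simp
  neg_mem' := by
    intro a ha
    have : (-a).1 - (-a).2 = -(a.1 - a.2) := by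
      simp only [Prod.fst_neg, Prod.snd_neg]; ring
    show pb p β ∣ (-a).1 - (-a).2
    rw [this]
    exact (dvd_neg.mpr ha)

theorem key_dvd (β : k) : pb p β ∣ (X ^ (p * (p - 1)) - C (β ^ (p - 1)) : k[X]) := by
  have h := sub_dvd_pow_sub_pow (X ^ p : k[X]) (C β) (p - 1)
  rw [← pow_mul, ← C_pow] at h
  exact h

theorem key_pow (β : k) : (X ^ p * X ^ (p * (p - 1)) : k[X]) = (pb p β) ^ p + C (β ^ p) := by
  have hp := (Fact.out : p.Prime).one_lt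
  have e : p + p * (p - 1) = p * p := by
    obtain ⟨q, rfl⟩ : ∃ q, p = q + 1 := ⟨p - 1, by omega⟩
    simp; ring
  have h : (pb p β) ^ p = (X ^ p) ^ p - (C β) ^ p := by
    have := sub_pow_char_pow (R := k[X]) (p := p) (n := 1) (X ^ p) (C β)
    simpa [pb] using this
  rw [← pow_add, e, h, ← pow_mul, C_pow]; ring

theorem pb_natDegree (β : k) : (pb p β).natDegree = p := by
  have hp := (Fact.out : p.Prime).pos
  rw [pb]
  exact natDegree_X_pow_sub_C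

/-- units of `SS` are constants -/
theorem SS_unit (β : k) (f : SS p β) (hf : IsUnit f) : ∃ c : k, f.1 = (C c, C c) := by
  have h1 : IsUnit f.1 := hf.map (SS p β).subtype
  have h2 : IsUnit f.1.1 := h1.map (RingHom.fst _ _)
  have h3 : IsUnit f.1.2 := h1.map (RingHom.snd _ _)
  obtain ⟨c, hc, hc'⟩ := Polynomial.isUnit_iff.mp h2
  obtain ⟨d, hd, hd'⟩ := Polynomial.isUnit_iff.mp h3
  have h4 : pb p β ∣ C c - C d := by
    rw [hc', hd']; exact f.2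
  have hcd : c = d := by
    rw [← C_sub] at h4
    by_contra hne
    have hne' : C (c - d) ≠ 0 := by
      rw [Ne, C_eq_zero]; exact sub_ne_zero.mpr hne
    have := natDegree_le_of_dvd h4 hne'
    rw [natDegree_C, pb_natDegree] at this
    have hp := (Fact.out : p.Prime).pos
    omega
  refine ⟨c, ?_⟩
  ext1
  · exact hc'.symm
  · rw [hcd]; exact hd'.symm

section elems
variable (p) (β : k)

def eC (c : k) : SS p β := ⟨(C c, C c), by
  show pb p β ∣ C c - C c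
  rw [sub_self]; exact dvd_zero _⟩
def ea : SS p β := ⟨(0, pb p β), by
  show pb p β ∣ 0 - pb p β
  rw [zero_sub]; exact (dvd_neg.mpr dvd_rfl)⟩
def eb : SS p β := ⟨(X, X), by
  show pb p β ∣ X - X
  rw [sub_self]; exact dvd_zero _⟩
def ec : SS p β := ⟨(pb p β, 0), by
  show pb p β ∣ pb p β - 0
  rw [sub_zero]⟩
end elems

theorem exists_er (β : k) (hβ : β ≠ 0) : ∃ r1 r2 s1 s2 : SS p β,
    r1 * (ea p β ^ p * s1 + eb p β ^ p * s2) + r2 * (ec p β ^ p * s2) = 1 ∧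
      s2.1.1 = 1 ∧ s1.1.2 = - C (β * (β ^ p)⁻¹) := by
  have hp := (Fact.out : p.Prime).pos
  have hβp : β ^ p ≠ 0 := pow_ne_zero _ hβ
  have hb1 : (β ^ p)⁻¹ * β ^ (p - 1) = β⁻¹ := by
    obtain ⟨q, hq⟩ : ∃ q, p = q + 1 := ⟨p - 1, by omega⟩
    rw [hq, Nat.add_sub_cancel, pow_succ]
    field_simp
  have hb2 : β * (β ^ p)⁻¹ * β ^ (p - 1) = 1 := by
    rw [mul_assoc, hb1, mul_inv_cancel₀ hβ]
  have m1 : pb p β ∣ (C (β ^ p)⁻¹ * X ^ (p * (p - 1)) - C β⁻¹ : k[X]) := by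
    obtain ⟨t, ht⟩ := key_dvd (p := p) β
    refine ⟨C (β ^ p)⁻¹ * t, ?_⟩
    rw [← hb1, C_mul]
    linear_combination C (β ^ p)⁻¹ * ht
  have m2 : pb p β ∣ (1 - C (β * (β ^ p)⁻¹) * X ^ (p * (p - 1)) : k[X]) := by
    obtain ⟨t, ht⟩ := key_dvd (p := p) β
    refine ⟨- C (β * (β ^ p)⁻¹) * t, ?_⟩
    have : (1 : k[X]) = C (β * (β ^ p)⁻¹) * C (β ^ (p - 1)) := by
      rw [← C_mul, hb2, C_1]
    rw [this]
    linear_combination (- C (β * (β ^ p)⁻¹)) * ht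
  refine ⟨⟨(C (β ^ p)⁻¹ * X ^ (p * (p - 1)), C β⁻¹), m1⟩, -eC p β (β ^ p)⁻¹,
    -eC p β (β * (β ^ p)⁻¹), ⟨(1, C (β * (β ^ p)⁻¹) * X ^ (p * (p - 1))), m2⟩, ?_, rfl, rfl⟩
  have hk := key_pow (p := p) β
  have hc1 : (C (β ^ p)⁻¹ : k[X]) * C (β ^ p) = 1 := by
    rw [← C_mul, inv_mul_cancel₀ hβp, C_1]
  have hc2 : (C β⁻¹ : k[X]) * C (β * (β ^ p)⁻¹) * C (β ^ p) = 1 := by
    rw [← C_mul, ← C_mul]
    have : β⁻¹ * (β * (β ^ p)⁻¹) * β ^ p = 1 := by field_simp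
    rw [this, C_1]
  apply Subtype.ext
  apply Prod.ext
  · show C (β ^ p)⁻¹ * X ^ (p * (p - 1)) * ((0 : k[X]) ^ p * (-C (β * (β ^ p)⁻¹)) + X ^ p * 1) +
      (-C (β ^ p)⁻¹) * (pb p β ^ p * 1) = 1
    rw [zero_pow hp.ne']
    linear_combination C (β ^ p)⁻¹ * hk + hc1
  · show C β⁻¹ * ((pb p β) ^ p * (-C (β * (β ^ p)⁻¹)) + X ^ p * (C (β * (β ^ p)⁻¹) * X ^ (p * (p - 1)))) +
      (-C (β ^ p)⁻¹) * ((0 : k[X]) ^ p * (C (β * (β ^ p)⁻¹) * X ^ (p * (p - 1)))) = 1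
    rw [zero_pow hp.ne']
    linear_combination C β⁻¹ * C (β * (β ^ p)⁻¹) * hk + hc2

variable (V : ValData p k)

/-- the initial object -/
theorem exists_base : ∃ (X₀ : Obj V) (a b c r1 r2 s1 s2 : X₀.B),
    a * c = 0 ∧ (∃ x y z : X₀.B, x * a + y * b + z * c = 1) ∧
    r1 * (a ^ p * s1 + b ^ p * s2) + r2 * (c ^ p * s2) = 1 ∧
    X₀.t₁ a = 0 ∧ X₀.t₁ b = 0 ∧ X₀.t₂ b = 0 ∧ X₀.t₂ c = 0 ∧
    V.v (X₀.t₁ c) = 1 ∧ V.v (X₀.t₁ s2) = 0 ∧
    V.v (X₀.t₂ a) = 1 ∧ V.v (X₀.t₂ s1) = 1 - p ∧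
    X₀.t₁ c ≠ 0 ∧ X₀.t₁ s2 ≠ 0 ∧ X₀.t₂ a ≠ 0 ∧ X₀.t₂ s1 ≠ 0 := by
  have hp := (Fact.out : p.Prime).pos
  obtain ⟨β, hβ, hvβ⟩ := V.v_surj 1 (by
    have := (Fact.out : p.Prime).one_lt
    rw [Rat.den_one, Nat.dvd_one]; omega)
  obtain ⟨r1, r2, s1, s2, hrs, hs2, hs1⟩ := exists_er (p := p) β hβ
  let vv : Fin 9 → SS p β := ![eC p β β, eC p β β⁻¹, ea p β, eb p β, ec p β, r1, r2, s1, s2]
  let ev : MvPolynomial (Fin 9) ℤ →+* SS p β := MvPolynomial.eval₂Hom (Int.castRingHom (SS p β)) vv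
  have hmem : ∀ i, vv i ∈ ev.range := fun i => ⟨MvPolynomial.X i, by simp [ev]⟩
  have hcount : Countable ev.range := by
    have h1 : Function.Injective (fun t : MvPolynomial (Fin 9) ℤ => AddMonoidAlgebra.coeff t) :=
      AddMonoidAlgebra.coeff_injective
    have : Countable (MvPolynomial (Fin 9) ℤ) := h1.countable
    exact (RingHom.rangeRestrict_surjective ev).countable
  let T₁ : SS p β →+* k := ((Polynomial.evalRingHom 0).comp (RingHom.fst _ _)).comp (SS p β).subtype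
  let T₂ : SS p β →+* k := ((Polynomial.evalRingHom 0).comp (RingHom.snd _ _)).comp (SS p β).subtype
  have hp0 : ((p : ev.range)) = 0 := by
    apply Subtype.ext
    apply Subtype.ext
    apply Prod.ext
    · show (((p : ev.range) : SS p β) : k[X] × k[X]).1 = 0
      push_cast
      simp
    · show (((p : ev.range) : SS p β) : k[X] × k[X]).2 = 0
      push_cast
      simp
  have hchar : CharP ev.range p := charP_of_hom hp0 (T₁.comp ev.range.subtype)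
  have hββ : (eC p β β) * (eC p β β⁻¹) = 1 := by
    apply Subtype.ext
    apply Prod.ext
    · show C β * C β⁻¹ = 1
      rw [← C_mul, mul_inv_cancel₀ hβ, C_1]
    · show C β * C β⁻¹ = 1
      rw [← C_mul, mul_inv_cancel₀ hβ, C_1]
  let βu : (ev.range)ˣ := ⟨⟨_, hmem 0⟩, ⟨_, hmem 1⟩, Subtype.ext hββ,
    Subtype.ext ((mul_comm _ _).trans hββ)⟩
  have hinv : Inv V (T₁.comp ev.range.subtype) (T₂.comp ev.range.subtype) := by
    intro ψ hψ
    obtain ⟨c, hc⟩ := SS_unit β ψ.1 (hψ.map ev.range.subtype)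
    have e1 : (T₁.comp ev.range.subtype) ψ = c := by
      show Polynomial.eval 0 (ψ.1.1.1) = c
      rw [hc]; simp
    have e2 : (T₂.comp ev.range.subtype) ψ = c := by
      show Polynomial.eval 0 (ψ.1.1.2) = c
      rw [hc]; simp
    rw [e1, e2]
  have hvm : V.v (-β) = 1 := by
    have h1 := V.v_mul (-β) (-β) (neg_ne_zero.mpr hβ) (neg_ne_zero.mpr hβ)
    rw [neg_mul_neg, V.v_mul β β hβ hβ, hvβ] at h1
    linarith
  have hevpb : Polynomial.eval 0 (pb p β) = -β := by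
    rw [pb]; simp [hp.ne']
  let X₀ : Obj V := ⟨ev.range, T₁.comp ev.range.subtype, T₂.comp ev.range.subtype, ⟨βu, by
      show V.v (Polynomial.eval 0 (C β)) = 1
      rw [eval_C, hvβ], by
      show V.v (Polynomial.eval 0 (C β)) = 1
      rw [eval_C, hvβ]⟩, hinv⟩
  refine ⟨X₀, (⟨_, hmem 2⟩ : ev.range), (⟨_, hmem 3⟩ : ev.range), (⟨_, hmem 4⟩ : ev.range),
    (⟨_, hmem 5⟩ : ev.range), (⟨_, hmem 6⟩ : ev.range), (⟨_, hmem 7⟩ : ev.range),
    (⟨_, hmem 8⟩ : ev.range), ?_⟩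
  refine ⟨?_, ?_, ?_, ?_, ?_, ?_, ?_, ?_, ?_, ?_, ?_, ?_, ?_, ?_, ?_⟩
  · apply Subtype.ext
    apply Subtype.ext
    apply Prod.ext
    · show (0 : k[X]) * pb p β = 0
      ring
    · show pb p β * (0 : k[X]) = 0
      ring
  · -- β⁻¹ (b ^ p - a - c) = 1
    refine ⟨-(⟨_, hmem 1⟩ : ev.range), (⟨_, hmem 1⟩ : ev.range) * (⟨_, hmem 3⟩ : ev.range) ^ (p - 1),
      -(⟨_, hmem 1⟩ : ev.range), ?_⟩
    have hX : (X ^ (p - 1) * X : k[X]) = X ^ p := by rw [← pow_succ]; congr 1; omega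
    apply Subtype.ext
    apply Subtype.ext
    apply Prod.ext
    · show -(C β⁻¹ : k[X]) * 0 + C β⁻¹ * X ^ (p - 1) * X + -(C β⁻¹) * pb p β = 1
      have : (C β⁻¹ : k[X]) * C β = 1 := by rw [← C_mul, inv_mul_cancel₀ hβ, C_1]
      rw [pb]
      linear_combination C β⁻¹ * hX + this
    · show -(C β⁻¹ : k[X]) * pb p β + C β⁻¹ * X ^ (p - 1) * X + -(C β⁻¹) * 0 = 1
      have : (C β⁻¹ : k[X]) * C β = 1 := by rw [← C_mul, inv_mul_cancel₀ hβ, C_1]
      rw [pb]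
      linear_combination C β⁻¹ * hX + this
  · exact Subtype.ext hrs
  · show Polynomial.eval 0 (0 : k[X]) = 0
    simp
  · show Polynomial.eval 0 (X : k[X]) = 0
    simp
  · show Polynomial.eval 0 (X : k[X]) = 0
    simp
  · show Polynomial.eval 0 (0 : k[X]) = 0
    simp
  · show V.v (Polynomial.eval 0 (pb p β)) = 1
    rw [hevpb, hvm]
  · show V.v (Polynomial.eval 0 (s2.1.1)) = 0
    rw [hs2, eval_one, V.v_one]
  · show V.v (Polynomial.eval 0 (pb p β)) = 1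
    rw [hevpb, hvm]
  · show V.v (Polynomial.eval 0 (s1.1.2)) = 1 - p
    rw [hs1, eval_neg, eval_C]
    have : -(β * (β ^ p)⁻¹) = (-β) * (β ^ p)⁻¹ := by ring
    rw [this, V.v_mul _ _ (neg_ne_zero.mpr hβ) (inv_ne_zero (pow_ne_zero _ hβ)), hvm,
      V.v_inv (pow_ne_zero _ hβ), V.v_pow hβ, hvβ]
    ring
  · show Polynomial.eval 0 (pb p β) ≠ 0
    rw [hevpb]; exact neg_ne_zero.mpr hβ
  · show Polynomial.eval 0 (s2.1.1) ≠ 0
    rw [hs2, eval_one]; exact one_ne_zero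
  · show Polynomial.eval 0 (pb p β) ≠ 0
    rw [hevpb]; exact neg_ne_zero.mpr hβ
  · show Polynomial.eval 0 (s1.1.2) ≠ 0
    rw [hs1, eval_neg, eval_C]
    exact neg_ne_zero.mpr (mul_ne_zero hβ (inv_ne_zero (pow_ne_zero _ hβ)))

end

end Pool.Agent.H407.Edr
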