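import Mathlib

set_option autoImplicit false

namespace Pool.Agent.H407.Edr

open CategoryTheory CategoryTheory.Limits

/-- the union of a sequence of rings -/
theorem exists_colim (A : ℕ → Type) [∀ n, CommRing (A n)] (f : ∀ n, A n →+* A (n + 1)) :
    ∃ (R : Type) (_ : CommRing R) (ι : ∀ n, A n →+* R),
      (∀ n, (ι (n + 1)).comp (f n) = ι n) ∧ (∀ r : R, ∃ n x, ι n x = r) ∧
      (∀ n (x y : A n), ι n x = ι n y → ∃ (m : ℕ) (g : A n →+* A m), (ι m).comp g = ι n ∧ g x = g y) ∧
      (∀ (S : Type) [CommRing S] (t : ∀ n, A n →+* S), (∀ n, (t (n + 1)).comp (f n) = t n) →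
        ∃ t' : R →+* S, ∀ n, t'.comp (ι n) = t n) := by
  let F : ℕ ⥤ CommRingCat.{0} := Functor.ofSequence (X := fun n => CommRingCat.of (A n))
    (fun n => CommRingCat.ofHom (f n))
  refine ⟨(colimit F : CommRingCat.{0}), inferInstance, fun n => (colimit.ι F n).hom, ?_, ?_, ?_, ?_⟩
  · intro n
    have h := colimit.w F (homOfLE (Nat.le_add_right n 1))
    rw [Functor.ofSequence_map_homOfLE_succ] at h
    exact congrArg CommRingCat.Hom.hom h
  · intro r
    obtain ⟨n, x, hx⟩ := Concrete.colimit_exists_rep F r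
    exact ⟨n, x, hx⟩
  · intro n x y hxy
    obtain ⟨m, g1, g2, h⟩ := (Concrete.colimit_rep_eq_iff_exists F (i := n) (j := n) x y).mp hxy
    have : g2 = g1 := Subsingleton.elim _ _
    subst this
    refine ⟨m, (F.map g2).hom, ?_, h⟩
    have h2 := colimit.w F g2
    exact congrArg CommRingCat.Hom.hom h2
  · intro S _ t ht
    let c : Cocone F := ⟨CommRingCat.of S, NatTrans.ofSequence (fun n => CommRingCat.ofHom (t n)) (by
      intro n
      rw [Functor.ofSequence_map_homOfLE_succ]
      simp only [Functor.const_obj_obj, Functor.const_obj_map, Category.comp_id]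
      have := ht n
      exact (CommRingCat.ofHom_comp (f n) (t (n + 1))).symm.trans (congrArg CommRingCat.ofHom this))⟩
    refine ⟨(colimit.desc F c).hom, fun n => ?_⟩
    have h := colimit.ι_desc c n
    exact congrArg CommRingCat.Hom.hom h

end Pool.Agent.H407.Edr
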