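import Mathlib

set_option autoImplicit false

namespace Pool.Agent.H407.Edr

open Matrix

/-- `A` admits diagonal reduction. -/
def AdmitsDiag {R : Type*} [CommRing R] {m n : ℕ} (A : Matrix (Fin m) (Fin n) R) : Prop :=
  ∃ (P : Matrix (Fin m) (Fin m) R) (Q : Matrix (Fin n) (Fin n) R), IsUnit P ∧ IsUnit Q ∧
    (∀ (i : Fin m) (j : Fin n), (i : ℕ) ≠ (j : ℕ) → (P * A * Q) i j = 0) ∧
    (∀ (i i' : Fin m) (j j' : Fin n), (i : ℕ) = j → (i' : ℕ) = j' → (i' : ℕ) = i + 1 →
      (P * A * Q) i j ∣ (P * A * Q) i' j')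

def IsHermiteRing (R : Type*) [CommRing R] : Prop :=
  ∀ A : Matrix (Fin 1) (Fin 2) R, AdmitsDiag A

def IsEDR (R : Type*) [CommRing R] : Prop :=
  ∀ (m n : ℕ) (A : Matrix (Fin m) (Fin n) R), AdmitsDiag A

variable {R : Type*} [CommRing R]

/-- elementwise Hermite property -/
def Herm (R : Type*) [CommRing R] : Prop :=
  ∀ f g : R, ∃ h x y u v : R, f = h * x ∧ g = h * y ∧ u * x + v * y = 1

/-- elementwise Kaplansky condition -/
def KapC (R : Type*) [CommRing R] : Prop :=
  ∀ a b c x y z : R, x * a + y * b + z * c = 1 →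
    ∃ r1 r2 s1 s2 : R, r1 * (a * s1 + b * s2) + r2 * (c * s2) = 1

theorem gcd_fin (hH : Herm R) : ∀ (n : ℕ) (w : Fin n → R),
    ∃ (d : R) (w' c : Fin n → R), (∀ i, w i = d * w' i) ∧
      (n = 0 ∨ ∑ i, c i * w' i = 1) := by
  intro n
  induction n with
  | zero => intro w; exact ⟨0, fun _ => 0, fun _ => 0, fun i => i.elim0, Or.inl rfl⟩
  | succ n ih =>
    intro w
    obtain ⟨d', t, c, ht, hc⟩ := ih (fun i => w i.succ)
    obtain ⟨h, x, y, u, v, h1, h2, h3⟩ := hH (w 0) d'
    rcases hc with hn | hc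
    · subst hn
      refine ⟨w 0, fun _ => 1, fun _ => 1, ?_, Or.inr (by simp)⟩
      intro i
      have : i = 0 := Fin.fin_one_eq_zero i
      subst this; simp
    · refine ⟨h, Fin.cons x (fun i => y * t i), Fin.cons u (fun i => v * c i), ?_, Or.inr ?_⟩
      · intro i
        refine Fin.cases ?_ (fun i => ?_) i
        · simpa using h1
        · have := ht i
          simp only [Fin.cons_succ]
          rw [this, h2]; ring
      · rw [Fin.sum_univ_succ]
        simp only [Fin.cons_zero, Fin.cons_succ]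
        have : ∑ i, v * c i * (y * t i) = v * y * ∑ i, c i * t i := by
          rw [Finset.mul_sum]; exact Finset.sum_congr rfl (fun i _ => by ring)
        rw [this, hc, mul_one, h3]

theorem gcd_fin' (hH : Herm R) {ι : Type*} [Fintype ι] [Nonempty ι] (w : ι → R) :
    ∃ (d : R) (w' c : ι → R), (∀ i, w i = d * w' i) ∧ ∑ i, c i * w' i = 1 := by
  classical
  obtain ⟨d, w', c, h1, h2⟩ := gcd_fin hH (Fintype.card ι) (w ∘ (Fintype.equivFin ι).symm)
  refine ⟨d, w' ∘ Fintype.equivFin ι, c ∘ Fintype.equivFin ι, ?_, ?_⟩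
  · intro i
    have := h1 (Fintype.equivFin ι i)
    simpa using this
  · rcases h2 with h2 | h2
    · exact absurd h2 Fintype.card_ne_zero
    · rw [← h2]
      exact Equiv.sum_comp (Fintype.equivFin ι) (fun i => c i * w' i)

/-- two rows -/
theorem two_rows (hH : Herm R) (hK : KapC R) {n : ℕ} (a b p q : Fin n → R)
    (h : a ⬝ᵥ p + b ⬝ᵥ q = 1) : ∃ (x y : R) (s : Fin n → R), x * (a ⬝ᵥ s) + y * (b ⬝ᵥ s) = 1 := by
  rcases Nat.eq_zero_or_pos n with hn | hn
  · subst hn
    simp at h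
    refine ⟨0, 0, 0, ?_⟩
    simp [h]
  · have : Nonempty (Fin n) := ⟨⟨0, hn⟩⟩
    obtain ⟨d, a'', p', ha, hp⟩ := gcd_fin' hH a
    have ha' : a = d • a'' := by ext i; simp [ha i]
    have hp' : a'' ⬝ᵥ p' = 1 := by
      rw [← hp]; simp [dotProduct, mul_comm]
    obtain ⟨g, b'', t₀, hb, ht⟩ := gcd_fin' hH (b - (b ⬝ᵥ p') • a'')
    have hb' : b = (b ⬝ᵥ p') • a'' + g • b'' := by
      ext i
      have := hb i
      simp only [Pi.sub_apply, Pi.smul_apply, smul_eq_mul] at this
      simp only [Pi.add_apply, Pi.smul_apply, smul_eq_mul]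
      rw [← this]; ring
    have ht' : b'' ⬝ᵥ t₀ = 1 := by
      rw [← ht]; simp [dotProduct, mul_comm]
    set e := b ⬝ᵥ p' with he
    have hbp : e = e + g * (b'' ⬝ᵥ p') := by
      have := congrArg (fun z => z ⬝ᵥ p') hb'
      simp only [add_dotProduct, smul_dotProduct, smul_eq_mul, hp', mul_one] at this
      exact this
    have hg0 : g * (b'' ⬝ᵥ p') = 0 := by
      have : e - e = g * (b'' ⬝ᵥ p') := by nth_rewrite 1 [hbp]; ring
      rw [← this]; ring
    -- unimodular (g, e, d)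
    have huni : (b'' ⬝ᵥ q) * g + (a'' ⬝ᵥ q) * e + (a'' ⬝ᵥ p) * d = 1 := by
      rw [← h]
      have h1 : a ⬝ᵥ p = d * (a'' ⬝ᵥ p) := by
        rw [ha']; simp
      have h2 : b ⬝ᵥ q = e * (a'' ⬝ᵥ q) + g * (b'' ⬝ᵥ q) := by
        conv_lhs => rw [hb']
        simp [add_dotProduct, smul_dotProduct]
      rw [h1, h2]; ring
    obtain ⟨r1, r2, s1, s2, hr⟩ := hK g e d _ _ _ huni
    -- s = s2 p' + s1 t , t = t₀ - (a''·t₀) p'
    refine ⟨r2, r1, s2 • p' + s1 • (t₀ - (a'' ⬝ᵥ t₀) • p'), ?_⟩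
    have e1 : a ⬝ᵥ (s2 • p' + s1 • (t₀ - (a'' ⬝ᵥ t₀) • p')) = d * s2 := by
      rw [ha']
      simp only [dotProduct_add, dotProduct_smul, dotProduct_sub, smul_dotProduct, smul_eq_mul, hp']
      ring
    have e2 : b ⬝ᵥ (s2 • p' + s1 • (t₀ - (a'' ⬝ᵥ t₀) • p')) = e * s2 + g * s1 := by
      have h3 : b ⬝ᵥ t₀ = e * (a'' ⬝ᵥ t₀) + g := by
        conv_lhs => rw [hb']
        simp [add_dotProduct, smul_dotProduct, ht']
      simp only [dotProduct_add, dotProduct_smul, dotProduct_sub, smul_eq_mul]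
      rw [h3, ← he]
      ring
    rw [e1, e2]
    rw [← hr]; ring

/-- a matrix with unimodular entries has an invertible value -/
theorem uni_matrix (hH : Herm R) (hK : KapC R) {n : ℕ} : ∀ (m : ℕ) (A c : Fin m → Fin n → R),
    ∑ i, (A i ⬝ᵥ c i) = 1 → ∃ (r : Fin m → R) (s : Fin n → R), ∑ i, r i * (A i ⬝ᵥ s) = 1 := by
  intro m
  induction m with
  | zero =>
    intro A c h
    simp at h
    exact ⟨0, 0, by simp [h]⟩
  | succ m ih =>
    intro A c h
    rcases Nat.eq_zero_or_pos n with hn | hn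
    · subst hn
      simp at h
      exact ⟨0, 0, by simpa using h⟩
    rcases Nat.eq_zero_or_pos m with hm | hm
    · subst hm
      refine ⟨fun _ => 1, c 0, ?_⟩
      simpa using h
    have : Nonempty (Fin m × Fin n) := ⟨(⟨0, hm⟩, ⟨0, hn⟩)⟩
    obtain ⟨d, A'', c'', hA, hc⟩ := gcd_fin' hH (fun ij : Fin m × Fin n => A ij.1.succ ij.2)
    have hc' : ∑ i, ((fun j => A'' (i, j)) ⬝ᵥ (fun j => c'' (i, j))) = 1 := by
      rw [← hc, Fintype.sum_prod_type]
      refine Finset.sum_congr rfl (fun i _ => ?_)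
      simp [dotProduct, mul_comm]
    obtain ⟨r', s', hr⟩ := ih (fun i j => A'' (i, j)) (fun i j => c'' (i, j)) hc'
    have hA' : ∀ i, A (Fin.succ i) = d • (fun j => A'' (i, j)) := by
      intro i; ext j; simpa using hA (i, j)
    -- w = ∑ r' i • A (succ i)
    have key : A 0 ⬝ᵥ c 0 + (fun j => ∑ i, r' i * A (Fin.succ i) j) ⬝ᵥ
        ((∑ i, ((fun j => A'' (i, j)) ⬝ᵥ c (Fin.succ i))) • s') = 1 := by
      rw [← h, Fin.sum_univ_succ]
      congr 1
      rw [dotProduct_smul, smul_eq_mul]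
      have h1 : (fun j => ∑ i, r' i * A (Fin.succ i) j) ⬝ᵥ s' = d := by
        have : (fun j => ∑ i, r' i * A (Fin.succ i) j) ⬝ᵥ s' = d * ∑ i, r' i * ((fun j => A'' (i, j)) ⬝ᵥ s') := by
          simp only [dotProduct, Finset.mul_sum, Finset.sum_mul]
          rw [Finset.sum_comm]
          refine Finset.sum_congr rfl (fun i _ => Finset.sum_congr rfl (fun j _ => ?_))
          rw [hA' i]; simp; ring
        rw [this, hr, mul_one]
      rw [h1, Finset.sum_mul]
      refine Finset.sum_congr rfl (fun i _ => ?_)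
      rw [hA' i, smul_dotProduct, smul_eq_mul]; ring
    obtain ⟨x, y, s, hs⟩ := two_rows hH hK _ _ _ _ key
    refine ⟨Fin.cons x (fun i => y * r' i), s, ?_⟩
    rw [Fin.sum_univ_succ]
    simp only [Fin.cons_zero, Fin.cons_succ]
    rw [← hs]
    congr 1
    simp only [dotProduct, Finset.mul_sum, Finset.sum_mul]
    rw [Finset.sum_comm]
    refine Finset.sum_congr rfl (fun i _ => Finset.sum_congr rfl (fun j _ => ?_))
    ring

/-! ### invertible matrices -/

/-- block diagonal `1 ⊕ P` -/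
def ext1 {m n : ℕ} (P : Matrix (Fin m) (Fin n) R) : Matrix (Fin (m+1)) (Fin (n+1)) R :=
  fun i j => Fin.cases (motive := fun _ => R) (Fin.cases (motive := fun _ => R) 1 (fun _ => 0) j)
    (fun i' => Fin.cases (motive := fun _ => R) 0 (fun j' => P i' j') j) i

@[simp] theorem ext1_00 {m n : ℕ} (P : Matrix (Fin m) (Fin n) R) : ext1 P 0 0 = 1 := rfl
@[simp] theorem ext1_0s {m n : ℕ} (P : Matrix (Fin m) (Fin n) R) (j : Fin n) :
    ext1 P 0 j.succ = 0 := rfl
@[simp] theorem ext1_s0 {m n : ℕ} (P : Matrix (Fin m) (Fin n) R) (i : Fin m) :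
    ext1 P i.succ 0 = 0 := rfl
@[simp] theorem ext1_ss {m n : ℕ} (P : Matrix (Fin m) (Fin n) R) (i : Fin m) (j : Fin n) :
    ext1 P i.succ j.succ = P i j := rfl

theorem ext1_mul {m n l : ℕ} (P : Matrix (Fin m) (Fin n) R) (Q : Matrix (Fin n) (Fin l) R) :
    ext1 P * ext1 Q = ext1 (P * Q) := by
  ext i j
  rw [Matrix.mul_apply, Fin.sum_univ_succ]
  refine Fin.cases ?_ (fun i => ?_) i <;> refine Fin.cases ?_ (fun j => ?_) j <;>
    simp [Matrix.mul_apply]

theorem ext1_one {m : ℕ} : ext1 (1 : Matrix (Fin m) (Fin m) R) = 1 := by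
  ext i j
  refine Fin.cases ?_ (fun i => ?_) i <;> refine Fin.cases ?_ (fun j => ?_) j
  · simp
  · simp [Matrix.one_apply, Fin.ext_iff]
  · simp [Matrix.one_apply, Fin.ext_iff]
  · simp [Matrix.one_apply, Fin.ext_iff]

theorem ext1_isUnit {m : ℕ} {P : Matrix (Fin m) (Fin m) R} (h : IsUnit P) : IsUnit (ext1 P) := by
  obtain ⟨u, rfl⟩ := h
  refine ⟨⟨ext1 u.1, ext1 u.2, ?_, ?_⟩, rfl⟩
  · rw [ext1_mul]
    have : u.1 * u.2 = 1 := u.3
    rw [this, ext1_one]
  · rw [ext1_mul]
    have : u.2 * u.1 = 1 := u.4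
    rw [this, ext1_one]

/-- block diagonal `q ⊕ 1` with `q` of size 2 -/
def ext2 (n : ℕ) (a b c d : R) : Matrix (Fin (n+2)) (Fin (n+2)) R :=
  fun i j => Fin.cases (motive := fun _ => R)
    (Fin.cases (motive := fun _ => R) a
      (fun j' => Fin.cases (motive := fun _ => R) b (fun _ => 0) j') j)
    (fun i' => Fin.cases (motive := fun _ => R)
      (Fin.cases (motive := fun _ => R) c
        (fun j' => Fin.cases (motive := fun _ => R) d (fun _ => 0) j') j)
      (fun i'' => Fin.cases (motive := fun _ => R) 0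
        (fun j' => Fin.cases (motive := fun _ => R) 0 (fun j'' => if i'' = j'' then 1 else 0) j') j)
      i') i

section
variable (n : ℕ) (a b c d : R) (i j : Fin n)
theorem e2_00 : ext2 n a b c d 0 0 = a := rfl
theorem e2_01 : ext2 n a b c d 0 (Fin.succ 0) = b := rfl
theorem e2_0s : ext2 n a b c d 0 j.succ.succ = 0 := rfl
theorem e2_10 : ext2 n a b c d (Fin.succ 0) 0 = c := rfl
theorem e2_11 : ext2 n a b c d (Fin.succ 0) (Fin.succ 0) = d := rfl
theorem e2_1s : ext2 n a b c d (Fin.succ 0) j.succ.succ = 0 := rfl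
theorem e2_s0 : ext2 n a b c d i.succ.succ 0 = 0 := rfl
theorem e2_s1 : ext2 n a b c d i.succ.succ (Fin.succ 0) = 0 := rfl
theorem e2_ss : ext2 n a b c d i.succ.succ j.succ.succ = if i = j then 1 else 0 := rfl
end

theorem ext2_mul (n : ℕ) (a b c d a' b' c' d' : R) :
    ext2 n a b c d * ext2 n a' b' c' d' =
      ext2 n (a*a'+b*c') (a*b'+b*d') (c*a'+d*c') (c*b'+d*d') := by
  ext i j
  rw [Matrix.mul_apply, Fin.sum_univ_succ, Fin.sum_univ_succ]
  refine Fin.cases ?_ (fun i => Fin.cases ?_ (fun i => ?_) i) i <;>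
  refine Fin.cases ?_ (fun j => Fin.cases ?_ (fun j => ?_) j) j <;>
    simp only [e2_00, e2_01, e2_0s, e2_10, e2_11, e2_1s, e2_s0, e2_s1, e2_ss, mul_zero, zero_mul,
      Finset.sum_const_zero, add_zero, zero_add, mul_ite, mul_one, Finset.sum_ite_eq,
      Finset.sum_ite_eq', Finset.mem_univ, if_true]

theorem ext2_one (n : ℕ) : ext2 (R := R) n 1 0 0 1 = 1 := by
  ext i j
  refine Fin.cases ?_ (fun i => Fin.cases ?_ (fun i => ?_) i) i <;>
  refine Fin.cases ?_ (fun j => Fin.cases ?_ (fun j => ?_) j) j <;>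
    simp only [e2_00, e2_01, e2_0s, e2_10, e2_11, e2_1s, e2_s0, e2_s1, e2_ss, Matrix.one_apply,
      Fin.ext_iff, Fin.val_succ, Fin.val_zero] <;> simp

theorem ext2_isUnit (n : ℕ) (a b c d : R) (h : a * d - b * c = 1) : IsUnit (ext2 n a b c d) := by
  refine ⟨⟨ext2 n a b c d, ext2 n d (-b) (-c) a, ?_, ?_⟩, rfl⟩
  · rw [ext2_mul, ← ext2_one]
    have e1 : a * d + b * -c = 1 := by linear_combination h
    have e2 : a * -b + b * a = 0 := by ring
    have e3 : c * d + d * -c = 0 := by ring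
    have e4 : c * -b + d * a = 1 := by linear_combination h
    rw [e1, e2, e3, e4]
  · rw [ext2_mul, ← ext2_one]
    have e1 : d * a + -b * c = 1 := by linear_combination h
    have e2 : d * b + -b * d = 0 := by ring
    have e3 : -c * a + a * c = 0 := by ring
    have e4 : -c * b + a * d = 1 := by linear_combination h
    rw [e1, e2, e3, e4]

/-- a unimodular row is the first row of an invertible matrix -/
theorem complete (hH : Herm R) : ∀ (n : ℕ) (r u : Fin (n+1) → R), r ⬝ᵥ u = 1 →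
    ∃ P : Matrix (Fin (n+1)) (Fin (n+1)) R, IsUnit P ∧ P 0 = r := by
  intro n
  induction n with
  | zero =>
    intro r u h
    have h0 : r 0 * u 0 = 1 := by simpa [dotProduct] using h
    refine ⟨fun _ _ => r 0, ?_, ?_⟩
    · refine ⟨⟨fun _ _ => r 0, fun _ _ => u 0, ?_, ?_⟩, rfl⟩
      · ext i j
        rw [Fin.fin_one_eq_zero i, Fin.fin_one_eq_zero j]
        simp [Matrix.mul_apply, h0]
      · ext i j
        rw [Fin.fin_one_eq_zero i, Fin.fin_one_eq_zero j]
        simp [Matrix.mul_apply, mul_comm (u 0), h0]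
    · ext j
      rw [Fin.fin_one_eq_zero j]
  | succ n ih =>
    intro r u h
    obtain ⟨g, r'', p, hr, hp⟩ := gcd_fin' hH (fun i => r (Fin.succ i))
    obtain ⟨P', hP', h0⟩ := ih r'' p (by rw [← hp]; simp [dotProduct, mul_comm])
    -- r 0 * u 0 + g * (r'' ⬝ tail u) = 1
    have hu : r 0 * u 0 - g * (-(r'' ⬝ᵥ fun i => u (Fin.succ i))) = 1 := by
      rw [← h]
      simp only [dotProduct]
      rw [Fin.sum_univ_succ (fun i => r i * u i)]
      have : ∀ i : Fin (n+1), r i.succ * u i.succ = g * (r'' i * u i.succ) := by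
        intro i; rw [hr i]; ring
      simp only [this, ← Finset.mul_sum]
      ring
    have huu := ext2_isUnit n (r 0) g (-(r'' ⬝ᵥ fun i => u (Fin.succ i))) (u 0) hu
    refine ⟨ext2 n (r 0) g (-(r'' ⬝ᵥ fun i => u (Fin.succ i))) (u 0) * ext1 P',
      huu.mul (ext1_isUnit hP'), ?_⟩
    ext j
    rw [Matrix.mul_apply, Fin.sum_univ_succ, Fin.sum_univ_succ]
    refine Fin.cases ?_ (fun j => ?_) j
    · simp only [e2_00, e2_01, e2_0s, ext1_00, ext1_s0, mul_zero, zero_mul, Finset.sum_const_zero,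
        add_zero, mul_one]
    · simp only [e2_00, e2_01, e2_0s, ext1_0s, ext1_ss, mul_zero, zero_mul, Finset.sum_const_zero,
        add_zero, zero_add]
      rw [h0, hr j]

/-- completion adapted to a dual vector -/
theorem complete' (hH : Herm R) (n : ℕ) (r u : Fin (n+1) → R) (h : r ⬝ᵥ u = 1) :
    ∃ P : Matrix (Fin (n+1)) (Fin (n+1)) R, IsUnit P ∧ P 0 = r ∧ P *ᵥ u = Pi.single 0 1 := by
  obtain ⟨P, hP, h0⟩ := complete hH n r u h
  set e : Fin (n+1) → R := Pi.single 0 1 with he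
  set N : Matrix (Fin (n+1)) (Fin (n+1)) R := Matrix.vecMulVec (e - P *ᵥ u) e with hN
  have hPu0 : (P *ᵥ u) 0 = 1 := by
    rw [Matrix.mulVec, h0]; exact h
  have hdot : e ⬝ᵥ (e - P *ᵥ u) = 0 := by
    rw [he, single_dotProduct, Pi.sub_apply, hPu0]
    simp
  have hNN : N * N = 0 := by
    rw [hN, Matrix.vecMulVec_mul_vecMulVec, hdot]
    ext i j; simp [Matrix.vecMulVec]
  have hunit : IsUnit (1 + N) := by
    refine ⟨⟨1 + N, 1 - N, ?_, ?_⟩, rfl⟩
    · have : (1 + N) * (1 - N) = 1 - N * N := by noncomm_ring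
      rw [this, hNN, sub_zero]
    · have : (1 - N) * (1 + N) = 1 - N * N := by noncomm_ring
      rw [this, hNN, sub_zero]
  refine ⟨(1 + N) * P, hunit.mul hP, ?_, ?_⟩
  · ext j
    rw [add_mul, one_mul]
    show P 0 j + (N * P) 0 j = r j
    have : (N * P) 0 j = 0 := by
      rw [Matrix.mul_apply]
      refine Finset.sum_eq_zero (fun i _ => ?_)
      rw [hN, Matrix.vecMulVec_apply]
      have : (e - P *ᵥ u) 0 = 0 := by
        rw [Pi.sub_apply, hPu0, he]; simp
      rw [this]; simp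
    rw [this, add_zero, h0]
  · rw [← Matrix.mulVec_mulVec, Matrix.add_mulVec, Matrix.one_mulVec, hN]
    have : Matrix.vecMulVec (e - P *ᵥ u) e *ᵥ (P *ᵥ u) = e - P *ᵥ u := by
      ext i
      simp only [Matrix.mulVec, Matrix.vecMulVec_apply, dotProduct]
      rw [he]
      have h1 := hPu0
      simp only [Matrix.mulVec, dotProduct] at h1
      rw [Finset.sum_eq_single 0]
      · rw [h1]; simp
      · intro b _ hb
        simp [Pi.single_eq_of_ne hb]
      · intro hh; exact absurd (Finset.mem_univ _) hh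
    rw [this]; simp

/-- Kaplansky's theorem. -/
theorem kaplansky (hH : Herm R) (hK : KapC R) : IsEDR R := by
  intro m
  induction m with
  | zero =>
    intro n A
    exact ⟨1, 1, isUnit_one, isUnit_one, fun i => i.elim0, fun i => i.elim0⟩
  | succ m ih =>
    intro n A
    rcases n with _ | n
    · exact ⟨1, 1, isUnit_one, isUnit_one, fun i j => j.elim0, fun i i' j => j.elim0⟩
    obtain ⟨d, A₁, c, hA, hc⟩ := gcd_fin' hH (fun ij : Fin (m+1) × Fin (n+1) => A ij.1 ij.2)
    set A1 : Matrix (Fin (m+1)) (Fin (n+1)) R := fun i j => A₁ (i, j) with hA1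
    have hAd : A = d • A1 := by
      ext i j; simpa using hA (i, j)
    obtain ⟨r, s, hrs⟩ := uni_matrix hH hK (m+1) (fun i j => A₁ (i, j)) (fun i j => c (i, j)) (by
      rw [← hc, Fintype.sum_prod_type]
      refine Finset.sum_congr rfl (fun i _ => ?_)
      simp [dotProduct, mul_comm])
    have h1 : r ⬝ᵥ (A1 *ᵥ s) = 1 := hrs
    have h2 : s ⬝ᵥ (A1ᵀ *ᵥ r) = 1 := by
      rw [← h1, Matrix.mulVec_transpose, dotProduct_comm s, ← Matrix.dotProduct_mulVec]
    obtain ⟨P₁, hP₁, hP0, hPe⟩ := complete' hH m r _ h1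
    obtain ⟨M, hM, hM0, hMe⟩ := complete' hH n s _ h2
    have hQ₁ : IsUnit Mᵀ := Matrix.isUnit_transpose M |>.mpr hM
    set B : Matrix (Fin (m+1)) (Fin (n+1)) R := P₁ * A1 * Mᵀ with hB
    have hcol : ∀ i, B i 0 = (Pi.single 0 1 : Fin (m+1) → R) i := by
      intro i
      rw [← hPe, hB, Matrix.mul_assoc, Matrix.mulVec_mulVec, ← Matrix.mul_assoc]
      rw [Matrix.mul_apply, Matrix.mulVec, dotProduct]
      refine Finset.sum_congr rfl (fun j _ => ?_)
      rw [Matrix.transpose_apply, hM0]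
    have hrow : ∀ j, B 0 j = (Pi.single 0 1 : Fin (n+1) → R) j := by
      intro j
      rw [← hMe, hB, Matrix.mul_assoc, Matrix.mul_apply, Matrix.mulVec_mulVec, Matrix.mulVec,
        dotProduct]
      refine Finset.sum_congr rfl (fun i _ => ?_)
      rw [hP0, ← Matrix.transpose_transpose (A1 * Mᵀ), Matrix.transpose_apply,
        Matrix.transpose_mul, Matrix.transpose_transpose, mul_comm]
    set B' : Matrix (Fin m) (Fin n) R := fun i j => B i.succ j.succ with hB'
    have hBe : B = ext1 B' := by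
      ext i j
      refine Fin.cases ?_ (fun i => ?_) i
      · rw [hrow j]
        refine Fin.cases ?_ (fun j => ?_) j
        · simp
        · rw [Pi.single_eq_of_ne (Fin.succ_ne_zero j)]; rfl
      · refine Fin.cases ?_ (fun j => ?_) j
        · rw [hcol, Pi.single_eq_of_ne (Fin.succ_ne_zero i)]; rfl
        · rfl
    obtain ⟨P', Q', hP', hQ', hoff, hdiag⟩ := ih n B'
    refine ⟨ext1 P' * P₁, Mᵀ * ext1 Q', (ext1_isUnit hP').mul hP₁, hQ₁.mul (ext1_isUnit hQ'), ?_⟩
    have hprod : ext1 P' * P₁ * A * (Mᵀ * ext1 Q') = d • ext1 (P' * B' * Q') := by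
      rw [hAd]
      have : ext1 P' * P₁ * (d • A1) * (Mᵀ * ext1 Q') = d • (ext1 P' * (P₁ * A1 * Mᵀ) * ext1 Q') := by
        simp only [Matrix.mul_smul, Matrix.smul_mul, Matrix.mul_assoc]
      rw [this, ← hB, hBe, ext1_mul, ext1_mul]
    rw [hprod]
    constructor
    · intro i j
      refine Fin.cases ?_ (fun i => ?_) i <;> refine Fin.cases ?_ (fun j => ?_) j
      · intro h; exact absurd rfl h
      · intro _; simp
      · intro _; simp
      · intro h
        simp only [Matrix.smul_apply, ext1_ss, smul_eq_mul]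
        rw [hoff i j (by simpa using h), mul_zero]
    · intro i i' j j'
      refine Fin.cases ?_ (fun i => ?_) i
      · refine Fin.cases ?_ (fun j => ?_) j
        · intro _ _ _
          simp only [Matrix.smul_apply, ext1_00, smul_eq_mul, mul_one]
          exact Dvd.intro _ rfl
        · intro h _ _; simp at h
      · refine Fin.cases ?_ (fun j => ?_) j
        · intro h _ _; simp at h
        · refine Fin.cases ?_ (fun i' => ?_) i'
          · intro _ _ h; simp at h
          · refine Fin.cases ?_ (fun j' => ?_) j'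
            · intro _ h _; simp at h
            · intro h1 h2 h3
              simp only [Matrix.smul_apply, ext1_ss, smul_eq_mul]
              exact mul_dvd_mul_left d (hdiag i i' j j' (by simpa using h1) (by simpa using h2)
                (by simpa using h3))

/-- the elementwise Hermite property gives the matrix form -/
theorem hermite_of_herm (hH : Herm R) : IsHermiteRing R := by
  intro A
  obtain ⟨h, x, y, u, v, h1, h2, h3⟩ := hH (A 0 0) (A 0 1)
  refine ⟨1, !![u, -y; v, x], isUnit_one, ?_, ?_, ?_⟩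
  · rw [Matrix.isUnit_iff_isUnit_det, Matrix.det_fin_two_of]
    have : u * x - -y * v = 1 := by rw [← h3]; ring
    rw [this]; exact isUnit_one
  · intro i j hij
    rw [Fin.fin_one_eq_zero i] at hij ⊢
    fin_cases j
    · simp at hij
    · simp only [one_mul, Matrix.mul_apply, Fin.sum_univ_two]
      simp
      rw [h1, h2]; ring
  · intro i i' j j' _ _ hh
    exact absurd hh (by omega)

theorem val_of_admits (A : Matrix (Fin 2) (Fin 2) R) (h : AdmitsDiag A) (x y z w : R)
    (hu : x * A 0 0 + y * A 0 1 + z * A 1 0 + w * A 1 1 = 1) :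
    ∃ r1 r2 s1 s2 : R, r1 * (A 0 0 * s1 + A 0 1 * s2) + r2 * (A 1 0 * s1 + A 1 1 * s2) = 1 := by
  obtain ⟨P, Q, hP, hQ, hoff, hdiag⟩ := h
  set D := P * A * Q with hD
  obtain ⟨P', hP'⟩ := hP.exists_left_inv
  obtain ⟨Q', hQ'⟩ := hQ.exists_right_inv
  have hA : A = P' * D * Q' := by
    rw [hD]
    calc A = (P' * P) * A * (Q * Q') := by rw [hP', hQ']; simp
      _ = P' * (P * A * Q) * Q' := by simp only [Matrix.mul_assoc]
  have h01 : D 0 1 = 0 := hoff 0 1 (by decide)
  have h10 : D 1 0 = 0 := hoff 1 0 (by decide)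
  obtain ⟨t, ht⟩ := hdiag 0 1 0 1 rfl rfl rfl
  have hdvd : ∀ i j, ∃ q, A i j = D 0 0 * q := by
    intro i j
    refine ⟨P' i 0 * Q' 0 j + P' i 1 * t * Q' 1 j, ?_⟩
    have : A i j = (P' * D * Q') i j := by rw [← hA]
    rw [this]
    simp only [Matrix.mul_apply, Fin.sum_univ_two, h01, h10]
    rw [ht]; ring
  obtain ⟨q1, h1⟩ := hdvd 0 0
  obtain ⟨q2, h2⟩ := hdvd 0 1
  obtain ⟨q3, h3⟩ := hdvd 1 0
  obtain ⟨q4, h4⟩ := hdvd 1 1
  have hunit : (x * q1 + y * q2 + z * q3 + w * q4) * D 0 0 = 1 := by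
    rw [← hu, h1, h2, h3, h4]; ring
  refine ⟨(x * q1 + y * q2 + z * q3 + w * q4) * P 0 0, (x * q1 + y * q2 + z * q3 + w * q4) * P 0 1,
    Q 0 0, Q 1 0, ?_⟩
  have hD0 : D 0 0 = P 0 0 * (A 0 0 * Q 0 0 + A 0 1 * Q 1 0) +
      P 0 1 * (A 1 0 * Q 0 0 + A 1 1 * Q 1 0) := by
    rw [hD]; simp only [Matrix.mul_apply, Fin.sum_univ_two]; ring
  rw [← hunit, hD0]; ring

end Pool.Agent.H407.Edr
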