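import Pool.Agent.H407.Edr.EStep
import Pool.Agent.H407.Edr.Colim
import Pool.Agent.H407.Edr.Kap

set_option autoImplicit false

namespace Pool.Agent.H407.Edr

noncomputable section

variable {p : ℕ} [Fact p.Prime] {k : Type} [Field k] [CharP k p]

/-- objects of the construction -/
structure Obj (V : ValData p k) where
  B : Type
  [ring : CommRing B]
  [char : CharP B p]
  [cnt : Countable B]
  t₁ : B →+* k
  t₂ : B →+* k
  hβ : ∃ β : Bˣ, V.v (t₁ β) = 1 ∧ V.v (t₂ β) = 1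
  inv : Inv V t₁ t₂

attribute [instance] Obj.ring Obj.char Obj.cnt

/-- both problems for a triple are solved in `C` -/
def Slv {B C : Type} [CommRing B] [CommRing C] (p : ℕ) (f : B →+* C) (τ : B × B × B) : Prop :=
  (∃ h x y u v : C, f τ.1 = h * x ∧ f τ.2.1 = h * y ∧ u * x + v * y = 1) ∧
  ((∃ x y z : B, x * τ.1 + y * τ.2.1 + z * τ.2.2 = 1) →
    ∃ (n : ℕ) (r1 r2 s1 s2 : C), r1 * ((f τ.1) ^ p ^ n * s1 + (f τ.2.1) ^ p ^ n * s2) +
      r2 * ((f τ.2.2) ^ p ^ n * s2) = 1)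

theorem Slv_comp {B C D : Type} [CommRing B] [CommRing C] [CommRing D] (f : B →+* C) (g : C →+* D)
    (τ : B × B × B) (h : Slv p f τ) : Slv p (g.comp f) τ := by
  obtain ⟨⟨h, x, y, u, v, h1, h2, h3⟩, hE⟩ := h
  refine ⟨⟨g h, g x, g y, g u, g v, ?_, ?_, ?_⟩, fun hu => ?_⟩
  · rw [RingHom.comp_apply, h1, map_mul]
  · rw [RingHom.comp_apply, h2, map_mul]
  · rw [← map_mul, ← map_mul, ← map_add, h3, map_one]
  · obtain ⟨n, r1, r2, s1, s2, h⟩ := hE hu
    refine ⟨n, g r1, g r2, g s1, g s2, ?_⟩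
    have := congrArg g h
    simpa [map_add, map_mul, map_pow] using this

instance (B : Type) [CommRing B] [Countable B] (P : Pm B) : Countable (U P) := by
  have h1 : Function.Injective (fun t : MvPolynomial (Fin 4) B => AddMonoidAlgebra.coeff t) :=
    AddMonoidAlgebra.coeff_injective
  have : Countable (MvPolynomial (Fin 4) B) := h1.countable
  exact (Ideal.Quotient.mk_surjective (I := rel P)).countable

theorem charP_U {B : Type} [CommRing B] [CharP B p] (P : Pm B) (s : U P →+* k) : CharP (U P) p := by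
  refine ⟨fun n => ⟨fun h => ?_, fun h => ?_⟩⟩
  · have := congrArg s h
    rw [map_natCast, map_zero] at this
    exact (CharP.cast_eq_zero_iff k p n).mp this
  · have h1 := (CharP.cast_eq_zero_iff B p n).mpr h
    have := congrArg (io P) h1
    rwa [map_natCast, map_zero] at this

variable (V : ValData p k)

theorem solveH (X : Obj V) (f g : X.B) : ∃ (Y : Obj V) (φ : X.B →+* Y.B),
    Y.t₁.comp φ = X.t₁ ∧ Y.t₂.comp φ = X.t₂ ∧
      ∃ h x y u v : Y.B, φ f = h * x ∧ φ g = h * y ∧ u * x + v * y = 1 := by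
  obtain ⟨β, hβ₁, hβ₂⟩ := X.hβ
  obtain ⟨s₁, s₂, h₁, h₂, hI⟩ := stepH V X.inv β hβ₁ hβ₂ f g
  have := charP_U (PH f g) s₁
  refine ⟨⟨U (PH f g), s₁, s₂, ⟨Units.map (io (PH f g) : X.B →* U (PH f g)) β, ?_, ?_⟩, hI⟩,
    io (PH f g), h₁, h₂, ?_⟩
  · rw [← hβ₁, ← h₁]; rfl
  · rw [← hβ₂, ← h₂]; rfl
  · obtain ⟨h, hf, hg, -, h1⟩ := relPH f g
    exact ⟨h, _, _, _, _, hf, hg, h1⟩

theorem solveE (X : Obj V) (a b c : X.B) : ∃ (Y : Obj V) (φ : X.B →+* Y.B),
    Y.t₁.comp φ = X.t₁ ∧ Y.t₂.comp φ = X.t₂ ∧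
      ((∃ x y z : X.B, x * a + y * b + z * c = 1) →
        ∃ (n : ℕ) (r1 r2 s1 s2 : Y.B), r1 * ((φ a) ^ p ^ n * s1 + (φ b) ^ p ^ n * s2) +
          r2 * ((φ c) ^ p ^ n * s2) = 1) := by
  by_cases hu : ∃ x y z : X.B, x * a + y * b + z * c = 1
  · obtain ⟨x, y, z, hxyz⟩ := hu
    obtain ⟨β, hβ₁, hβ₂⟩ := X.hβ
    obtain ⟨n, s₁, s₂, h₁, h₂, hI⟩ := stepE V X.inv β hβ₁ hβ₂ a b c x y z hxyz
    have := charP_U (Pw (PK a b c) (p ^ n)) s₁
    refine ⟨⟨U (Pw (PK a b c) (p ^ n)), s₁, s₂,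
      ⟨Units.map (io (Pw (PK a b c) (p ^ n)) : X.B →* U (Pw (PK a b c) (p ^ n))) β, ?_, ?_⟩, hI⟩,
      io _, h₁, h₂, fun _ => ⟨n, ge _ 0, ge _ 1, ge _ 2, ge _ 3, ?_⟩⟩
    · rw [← hβ₁, ← h₁]; rfl
    · rw [← hβ₂, ← h₂]; rfl
    · have h1 := rel1 (Pw (PK a b c) (p ^ n))
      rw [Pw_a, Pw_b, Pw_c, Pw_d] at h1
      have hpn : p ^ n ≠ 0 := pow_ne_zero _ (Fact.out : p.Prime).ne_zero
      have e : (PK a b c).c ^ p ^ n = 0 := zero_pow hpn
      rw [e, map_zero, zero_mul, zero_add, map_pow, map_pow, map_pow] at h1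
      exact h1
  · exact ⟨X, RingHom.id _, rfl, rfl, fun h => absurd h hu⟩

theorem solve (X : Obj V) (τ : X.B × X.B × X.B) : ∃ (Y : Obj V) (φ : X.B →+* Y.B),
    Y.t₁.comp φ = X.t₁ ∧ Y.t₂.comp φ = X.t₂ ∧ Slv p φ τ := by
  obtain ⟨Y, φ, h1, h2, h, x, y, u, v, e1, e2, e3⟩ := solveH V X τ.1 τ.2.1
  obtain ⟨Z, χ, h3, h4, hE⟩ := solveE V Y (φ τ.1) (φ τ.2.1) (φ τ.2.2)
  refine ⟨Z, χ.comp φ, ?_, ?_, ?_, ?_⟩
  · rw [← RingHom.comp_assoc, h3, h1]
  · rw [← RingHom.comp_assoc, h4, h2]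
  · refine ⟨χ h, χ x, χ y, χ u, χ v, ?_, ?_, ?_⟩
    · rw [RingHom.comp_apply, e1, map_mul]
    · rw [RingHom.comp_apply, e2, map_mul]
    · rw [← map_mul, ← map_mul, ← map_add, e3, map_one]
  · rintro ⟨x, y, z, hx⟩
    refine hE ⟨φ x, φ y, φ z, ?_⟩
    rw [← map_mul, ← map_mul, ← map_mul, ← map_add, ← map_add, hx, map_one]

/-- the next object -/
def nxt (X : Obj V) (τ : X.B × X.B × X.B) : Obj V := (solve V X τ).choose
def nf (X : Obj V) (τ : X.B × X.B × X.B) : X.B →+* (nxt V X τ).B := (solve V X τ).choose_spec.choose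
theorem nf_spec (X : Obj V) (τ : X.B × X.B × X.B) :
    (nxt V X τ).t₁.comp (nf V X τ) = X.t₁ ∧ (nxt V X τ).t₂.comp (nf V X τ) = X.t₂ ∧
      Slv p (nf V X τ) τ := (solve V X τ).choose_spec.choose_spec

theorem exists_en (X : Obj V) : ∃ e : ℕ → X.B × X.B × X.B, Function.Surjective e :=
  exists_surjective_nat _

def en (X : Obj V) : ℕ → X.B × X.B × X.B := (exists_en V X).choose
theorem en_surj (X : Obj V) : Function.Surjective (en V X) := (exists_en V X).choose_spec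

/-- apply a homomorphism to a triple -/
def mp {B C : Type} [CommRing B] [CommRing C] (f : B →+* C) (τ : B × B × B) : C × C × C :=
  (f τ.1, f τ.2.1, f τ.2.2)

/-- the states -/
def st (X₀ : Obj V) : ℕ → Σ X : Obj V, (ℕ → ℕ → X.B × X.B × X.B)
  | 0 => ⟨X₀, fun _ => en V X₀⟩
  | n + 1 => ⟨nxt V (st X₀ n).1 ((st X₀ n).2 (Nat.unpair n).1 (Nat.unpair n).2),
      fun i j => if i ≤ n then mp (nf V (st X₀ n).1 ((st X₀ n).2 (Nat.unpair n).1 (Nat.unpair n).2))
        ((st X₀ n).2 i j)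
        else en V (nxt V (st X₀ n).1 ((st X₀ n).2 (Nat.unpair n).1 (Nat.unpair n).2)) j⟩

/-- the main construction -/
theorem exists_chain (X₀ : Obj V) : ∃ (R : Type) (_ : CommRing R) (j : X₀.B →+* R)
    (t₁ t₂ : R →+* k), t₁.comp j = X₀.t₁ ∧ t₂.comp j = X₀.t₂ ∧ Inv V t₁ t₂ ∧
      (∀ a b c : R, Slv p (RingHom.id R) (a, b, c)) := by
  set A : ℕ → Type := fun n => (st V X₀ n).1.B with hA
  let f : ∀ n, A n →+* A (n + 1) := fun n =>
    nf V (st V X₀ n).1 ((st V X₀ n).2 (Nat.unpair n).1 (Nat.unpair n).2)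
  let Tk : ∀ n, ℕ → ℕ → A n × A n × A n := fun n => (st V X₀ n).2
  have hTk : ∀ n i j, i ≤ n → Tk (n + 1) i j = mp (f n) (Tk n i j) := by
    intro n i j h
    show (if i ≤ n then _ else _) = _
    rw [if_pos h]
    rfl
  have hTk0 : ∀ n, Function.Surjective (Tk n n) := by
    intro n
    cases n with
    | zero => exact en_surj V X₀
    | succ n =>
      have : Tk (n + 1) (n + 1) = en V (st V X₀ (n+1)).1 := by
        funext j
        show (if n + 1 ≤ n then _ else _) = _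
        rw [if_neg (by omega)]
        rfl
      rw [this]
      exact en_surj V _
  have hf1 : ∀ n, (st V X₀ (n+1)).1.t₁.comp (f n) = (st V X₀ n).1.t₁ := fun n => (nf_spec V _ _).1
  have hf2 : ∀ n, (st V X₀ (n+1)).1.t₂.comp (f n) = (st V X₀ n).1.t₂ := fun n => (nf_spec V _ _).2.1
  have hf3 : ∀ n, Slv p (f n) (Tk n (Nat.unpair n).1 (Nat.unpair n).2) := fun n =>
    (nf_spec V _ _).2.2
  obtain ⟨R, _, ι, hι, hrep, heq, huniv⟩ := exists_colim A f
  obtain ⟨t₁, ht₁⟩ := huniv k (fun n => (st V X₀ n).1.t₁) hf1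
  obtain ⟨t₂, ht₂⟩ := huniv k (fun n => (st V X₀ n).1.t₂) hf2
  have hup : ∀ n (x : A n) m, n ≤ m → ∃ y : A m, ι m y = ι n x := by
    intro n x m hnm
    induction m, hnm using Nat.le_induction with
    | base => exact ⟨x, rfl⟩
    | succ m _ ih =>
      obtain ⟨y, hy⟩ := ih
      refine ⟨f m y, ?_⟩
      rw [← hy, ← hι m]; rfl
  have htask : ∀ i j m, i ≤ m → mp (ι m) (Tk m i j) = mp (ι i) (Tk i i j) := by
    intro i j m him
    induction m, him using Nat.le_induction with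
    | base => rfl
    | succ m h ih =>
      rw [hTk m i j h, ← ih]
      simp only [mp]
      rw [← hι m]; rfl
  refine ⟨R, inferInstance, ι 0, t₁, t₂, ht₁ 0, ht₂ 0, ?_, ?_⟩
  · intro ψ hψ
    obtain ⟨χ, hχ⟩ := hψ.exists_right_inv
    obtain ⟨n, x, rfl⟩ := hrep ψ
    obtain ⟨m, y, rfl⟩ := hrep χ
    obtain ⟨x', hx'⟩ := hup n x (max n m) (le_max_left _ _)
    obtain ⟨y', hy'⟩ := hup m y (max n m) (le_max_right _ _)
    rw [← hx', ← hy', ← map_mul, ← map_one (ι (max n m))] at hχ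
    obtain ⟨l, g, hg, hxy⟩ := heq _ _ _ hχ
    rw [map_mul, map_one] at hxy
    have hu : IsUnit (g x') := IsUnit.of_mul_eq_one _ hxy
    have hval : ι n x = ι l (g x') := by
      rw [← hx', ← hg]; rfl
    have := (st V X₀ l).1.inv (g x') hu
    rw [← ht₁ l, ← ht₂ l] at this
    rw [hval]
    exact this
  · intro a b c
    -- all elements, and the unimodularity, come from one stage
    have key : ∃ (n : ℕ) (τ : A n × A n × A n), mp (ι n) τ = (a, b, c) ∧
        ((∃ x y z : R, x * a + y * b + z * c = 1) → ∃ x y z : A n, x * τ.1 + y * τ.2.1 + z * τ.2.2 = 1) := by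
      have h1 : ∃ (n : ℕ) (τ : A n × A n × A n), mp (ι n) τ = (a, b, c) := by
        obtain ⟨n1, a', rfl⟩ := hrep a
        obtain ⟨n2, b', rfl⟩ := hrep b
        obtain ⟨n3, c', rfl⟩ := hrep c
        obtain ⟨a'', ha⟩ := hup n1 a' (n1 + n2 + n3) (by omega)
        obtain ⟨b'', hb⟩ := hup n2 b' (n1 + n2 + n3) (by omega)
        obtain ⟨c'', hc⟩ := hup n3 c' (n1 + n2 + n3) (by omega)
        exact ⟨_, (a'', b'', c''), by rw [← ha, ← hb, ← hc]; rfl⟩
      obtain ⟨n, τ, hτ⟩ := h1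
      by_cases hu : ∃ x y z : R, x * a + y * b + z * c = 1
      · obtain ⟨x, y, z, hx⟩ := hu
        obtain ⟨n1, x', rfl⟩ := hrep x
        obtain ⟨n2, y', rfl⟩ := hrep y
        obtain ⟨n3, z', rfl⟩ := hrep z
        obtain ⟨x'', hx'⟩ := hup n1 x' (n + n1 + n2 + n3) (by omega)
        obtain ⟨y'', hy'⟩ := hup n2 y' (n + n1 + n2 + n3) (by omega)
        obtain ⟨z'', hz'⟩ := hup n3 z' (n + n1 + n2 + n3) (by omega)
        obtain ⟨a'', ha'⟩ := hup n τ.1 (n + n1 + n2 + n3) (by omega)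
        obtain ⟨b'', hb'⟩ := hup n τ.2.1 (n + n1 + n2 + n3) (by omega)
        obtain ⟨c'', hc'⟩ := hup n τ.2.2 (n + n1 + n2 + n3) (by omega)
        have e1 : ι n τ.1 = a := congrArg Prod.fst hτ
        have e2 : ι n τ.2.1 = b := congrArg (fun t => t.2.1) hτ
        have e3 : ι n τ.2.2 = c := congrArg (fun t => t.2.2) hτ
        rw [← e1, ← e2, ← e3, ← hx', ← hy', ← hz', ← ha', ← hb', ← hc', ← map_mul, ← map_mul,
          ← map_mul, ← map_add, ← map_add, ← map_one (ι (n + n1 + n2 + n3))] at hx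
        obtain ⟨l, g, hg, hxy⟩ := heq _ _ _ hx
        refine ⟨l, (g a'', g b'', g c''), ?_, fun _ => ⟨g x'', g y'', g z'', ?_⟩⟩
        · simp only [mp, ← RingHom.comp_apply, hg, ha', hb', hc', e1, e2, e3]
        · simpa [map_add, map_mul] using hxy
      · exact ⟨n, τ, hτ, fun h => absurd h hu⟩
    obtain ⟨n, τ, hτ, huni⟩ := key
    obtain ⟨j, hj⟩ := hTk0 n τ
    set m := Nat.pair n j with hm
    have hnm : n ≤ m := Nat.left_le_pair n j
    have hs := hf3 m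
    rw [hm, Nat.unpair_pair, ← hm] at hs
    have hmp : mp (ι m) (Tk m n j) = (a, b, c) := by rw [htask n j m hnm, hj, hτ]
    have hs' := Slv_comp (p := p) (f m) (ι (m+1)) _ hs
    rw [hι m] at hs'
    have e1 : ι m (Tk m n j).1 = a := congrArg Prod.fst hmp
    have e2 : ι m (Tk m n j).2.1 = b := congrArg (fun t => t.2.1) hmp
    have e3 : ι m (Tk m n j).2.2 = c := congrArg (fun t => t.2.2) hmp
    obtain ⟨hH, hE⟩ := hs'
    rw [e1, e2] at hH
    rw [e1, e2, e3] at hE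
    refine ⟨hH, fun hu => hE ?_⟩
    -- unimodularity at stage m
    obtain ⟨x, y, z, hx⟩ := huni hu
    -- transport along the chain
    have htr : ∀ m, n ≤ m → ∃ x y z : A m, x * (Tk m n j).1 + y * (Tk m n j).2.1 +
        z * (Tk m n j).2.2 = 1 := by
      intro m hm
      induction m, hm using Nat.le_induction with
      | base => exact ⟨x, y, z, by rw [hj]; exact hx⟩
      | succ m h ih =>
        obtain ⟨x, y, z, hx⟩ := ih
        refine ⟨f m x, f m y, f m z, ?_⟩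
        rw [hTk m n j h]
        simp only [mp]
        rw [← map_mul, ← map_mul, ← map_mul, ← map_add, ← map_add, hx, map_one]
    exact htr m hnm

end

end Pool.Agent.H407.Edr
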