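import Pool.Agent.H407.Edr.HDesc

set_option autoImplicit false

namespace Pool.Agent.H407.Edr

open Polynomial

noncomputable section

variable {B : Type} [CommRing B]

/-- the four local sections -/
def cur (B : Type) [CommRing B] (i : Fin 4) : Fin 4 → B[X] :=
  (![![X, 0, 1, 0], ![X, 0, 0, 1], ![0, X, 1, 0], ![0, X, 0, 1]] : Fin 4 → Fin 4 → B[X]) i

/-- the four entries -/
def ent (P : Pm B) (i : Fin 4) : B := (![P.a, P.b, P.c, P.d] : Fin 4 → B) i

theorem cur_pt {P : Pm B} (hu : P.u = 0) (hw : P.w = 0) {F : Type} [Field F] (φ : B →+* F)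
    (i : Fin 4) (h : φ (ent P i) ≠ 0) (t : MvPolynomial (Fin 4) B) :
    ∃ x : U P →+* F, x.comp (io P) = φ ∧ x (mkU P t) =
      (MvPolynomial.eval₂ (Polynomial.C : B →+* B[X]) (cur B i) t).eval₂ φ (φ (ent P i))⁻¹ := by
  fin_cases i
  · have h' : φ P.a ≠ 0 := h
    have hs : Sol P φ (φ P.a)⁻¹ 0 1 0 := by
      constructor
      · have := inv_mul_cancel₀ h'
        linear_combination this
      · rw [hu, hw, map_zero]; ring
    refine ⟨lf _ φ _ _ _ _ hs, lf_comp_io _ _ _ _ _ _ _, ?_⟩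
    rw [lf_val, eval₂_curve]
    congr 1
    ext i; fin_cases i <;> simp [cur, ent]
  · have h' : φ P.b ≠ 0 := h
    have hs : Sol P φ (φ P.b)⁻¹ 0 0 1 := by
      constructor
      · have := inv_mul_cancel₀ h'
        linear_combination this
      · rw [hu, hw, map_zero]; ring
    refine ⟨lf _ φ _ _ _ _ hs, lf_comp_io _ _ _ _ _ _ _, ?_⟩
    rw [lf_val, eval₂_curve]
    congr 1
    ext i; fin_cases i <;> simp [cur, ent]
  · have h' : φ P.c ≠ 0 := h
    have hs : Sol P φ 0 (φ P.c)⁻¹ 1 0 := by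
      constructor
      · have := inv_mul_cancel₀ h'
        linear_combination this
      · rw [hu, hw, map_zero]; ring
    refine ⟨lf _ φ _ _ _ _ hs, lf_comp_io _ _ _ _ _ _ _, ?_⟩
    rw [lf_val, eval₂_curve]
    congr 1
    ext i; fin_cases i <;> simp [cur, ent]
  · have h' : φ P.d ≠ 0 := h
    have hs : Sol P φ 0 (φ P.d)⁻¹ 0 1 := by
      constructor
      · have := inv_mul_cancel₀ h'
        linear_combination this
      · rw [hu, hw, map_zero]; ring
    refine ⟨lf _ φ _ _ _ _ hs, lf_comp_io _ _ _ _ _ _ _, ?_⟩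
    rw [lf_val, eval₂_curve]
    congr 1
    ext i; fin_cases i <;> simp [cur, ent]

/-- descent for unimodular matrices -/
theorem desc_E (p : ℕ) [Fact p.Prime] [CharP B p] (P : Pm B) (hu : P.u = 0) (hw : P.w = 0)
    (y : Fin 4 → B) (hy : ∑ i, y i * ent P i = 1) : Desc P := by
  intro w hwf
  obtain ⟨t, rfl⟩ : ∃ t, mkU P t = w := Ideal.Quotient.mk_surjective w
  set W : Fin 4 → B[X] := fun i => MvPolynomial.eval₂ (Polynomial.C : B →+* B[X]) (cur B i) t
    with hW
  set L : ℕ := ∑ i, (W i).natDegree with hL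
  have hLi : ∀ i, (W i).natDegree ≤ L := fun i =>
    Finset.single_le_sum (f := fun i => (W i).natDegree) (fun _ _ => Nat.zero_le _)
      (Finset.mem_univ i)
  set Pn : Fin 4 → B := fun i => (reflect L (W i)).eval (ent P i) with hPn
  have pts : ∀ (i : Fin 4) (F : Type) [Field F] (φ : B →+* F), φ (ent P i) ≠ 0 →
      ∃ x : U P →+* F, x.comp (io P) = φ ∧ φ (Pn i) = φ (ent P i) ^ L * x (mkU P t) := by
    intro i F _ φ h
    obtain ⟨x, hx, hx'⟩ := cur_pt hu hw φ i h t
    refine ⟨x, hx, ?_⟩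
    rw [hx', ← eval_reflect φ h L (W i) (hLi i)]
    rw [hPn]
    exact Polynomial.hom_eval₂ _ (RingHom.id B) φ _
  have hnil : ∀ i j, IsNilpotent (ent P i * ent P j *
      (Pn i * ent P j ^ L - Pn j * ent P i ^ L)) := by
    intro i j
    refine nilp_of_points _ (fun F _ φ => ?_)
    rw [map_mul, map_mul]
    by_cases hi : φ (ent P i) = 0
    · rw [hi]; ring
    by_cases hj : φ (ent P j) = 0
    · rw [hj]; ring
    obtain ⟨x, hx, hx'⟩ := pts i F φ hi
    obtain ⟨z, hz, hz'⟩ := pts j F φ hj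
    have := hwf F x z (hz.trans hx.symm)
    rw [map_sub, map_mul, map_mul, hx', hz', this, map_pow, map_pow]
    ring
  choose Nn hNn using hnil
  set K := ∑ i, ∑ j, Nn i j with hK
  have hKij : ∀ i j, Nn i j ≤ K := fun i j =>
    (Finset.single_le_sum (f := fun j => Nn i j) (fun _ _ => Nat.zero_le _)
      (Finset.mem_univ j)).trans
    (Finset.single_le_sum (f := fun i => ∑ j, Nn i j) (fun _ _ => Nat.zero_le _)
      (Finset.mem_univ i))
  have hp1 := (Fact.out : p.Prime).one_lt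
  have hKq : K ≤ p ^ K := (Nat.lt_pow_self hp1).le
  set q := p ^ K with hq
  have hq0 : q ≠ 0 := pow_ne_zero _ (Fact.out : p.Prime).ne_zero
  set L' := L * q + q with hL'
  have hrel : ∀ i j, Pn j ^ q * ent P j ^ q * ent P i ^ L' = Pn i ^ q * ent P i ^ q * ent P j ^ L' := by
    intro i j
    have h0 : (ent P i * ent P j * (Pn i * ent P j ^ L - Pn j * ent P i ^ L)) ^ q = 0 :=
      pow_eq_zero_of_le ((hKij i j).trans hKq) (hNn i j)
    rw [mul_pow, hq, sub_pow_char_pow, ← hq, mul_pow, mul_pow, mul_pow, ← pow_mul, ← pow_mul] at h0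
    rw [hL', pow_add, pow_add]
    linear_combination -h0
  have hL'Q : L' ≤ p ^ L' := (Nat.lt_pow_self hp1).le
  have hpart : ∑ i, (y i ^ p ^ L' * ent P i ^ (p ^ L' - L')) * ent P i ^ L' = 1 := by
    have h1 : (∑ i, y i * ent P i) ^ p ^ L' = 1 := by rw [hy, one_pow]
    rw [sum_pow_char_pow] at h1
    rw [← h1]
    refine Finset.sum_congr rfl (fun i _ => ?_)
    rw [mul_assoc, ← pow_add, Nat.sub_add_cancel hL'Q, mul_pow]
  set b₀ : B := ∑ j, (y j ^ p ^ L' * ent P j ^ (p ^ L' - L')) * (Pn j ^ q * ent P j ^ q) with hb₀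
  have hb : ∀ i, ent P i ^ L' * b₀ = Pn i ^ q * ent P i ^ q := by
    intro i
    rw [hb₀, Finset.mul_sum]
    have : ∀ j, ent P i ^ L' * ((y j ^ p ^ L' * ent P j ^ (p ^ L' - L')) *
        (Pn j ^ q * ent P j ^ q)) = (Pn i ^ q * ent P i ^ q) *
          ((y j ^ p ^ L' * ent P j ^ (p ^ L' - L')) * ent P j ^ L') := by
      intro j
      linear_combination (y j ^ p ^ L' * ent P j ^ (p ^ L' - L')) * hrel i j
    rw [Finset.sum_congr rfl (fun j _ => this j), ← Finset.mul_sum, hpart, mul_one]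
  refine ⟨q, hq0, b₀, fun F _ φ => ?_⟩
  obtain ⟨i, hi⟩ : ∃ i, φ (ent P i) ≠ 0 := by
    by_contra hcon
    push Not at hcon
    have := congrArg φ hy
    rw [map_sum, map_one] at this
    rw [Finset.sum_eq_zero (fun i _ => by rw [map_mul, hcon i, mul_zero])] at this
    exact zero_ne_one this
  obtain ⟨x, hx, hx'⟩ := pts i F φ hi
  refine ⟨x, hx, ?_⟩
  have h := congrArg φ (hb i)
  rw [map_mul, map_mul, map_pow, map_pow, map_pow, hx', mul_pow, ← pow_mul] at h
  have hne : φ (ent P i) ^ L' ≠ 0 := pow_ne_zero _ hi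
  apply mul_left_cancel₀ hne
  rw [h, hL', pow_add]; ring

end

end Pool.Agent.H407.Edr
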