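import Pool.Agent.H407.Edr.HDesc

set_option autoImplicit false

namespace Pool.Agent.H407.Edr

open LaurentPolynomial

noncomputable section

variable {B : Type} [CommRing B]

section
variable (f g : B)
theorem PH_a : (PH f g).a = 1 := rfl
theorem PH_b : (PH f g).b = 0 := rfl
theorem PH_c : (PH f g).c = 0 := rfl
theorem PH_d : (PH f g).d = 1 := rfl
theorem PH_u : (PH f g).u = -g := rfl
theorem PH_w : (PH f g).w = f := rfl
end

theorem mv1_PH {f g : B} {D : Type} [CommRing D] (x y : U (PH f g) →+* D) (μ : D)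
    (hio : y.comp (io _) = x.comp (io _))
    (h0 : y (ge _ 0) = x (ge _ 0) - μ * x (ge _ 3)) (h1 : y (ge _ 1) = x (ge _ 1) + μ * x (ge _ 2))
    (h2 : y (ge _ 2) = x (ge _ 2)) (h3 : y (ge _ 3) = x (ge _ 3)) : Mv1 x μ y := by
  refine ⟨hio, ?_, ?_, h2, h3⟩
  · rw [h0, PH_c, PH_d, map_zero, map_zero, map_one, map_one]; ring
  · rw [h1, PH_a, PH_b, map_zero, map_zero, map_one, map_one]; ring

theorem mv2_PH {f g : B} {D : Type} [CommRing D] (x y : U (PH f g) →+* D) (μ : D)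
    (hio : y.comp (io _) = x.comp (io _)) (hf : x (io _ f) = 0) (hg : x (io _ g) = 0)
    (h0 : y (ge _ 0) = x (ge _ 0)) (h1 : y (ge _ 1) = x (ge _ 1))
    (h2 : y (ge _ 2) = x (ge _ 2) - μ * x (ge _ 1)) (h3 : y (ge _ 3) = x (ge _ 3) + μ * x (ge _ 0)) :
    Mv2 x μ y := by
  refine ⟨hio, ?_, ?_, h0, h1, ?_, ?_⟩
  · rw [PH_u, map_neg, map_neg, hg, neg_zero]
  · rw [PH_w]; exact hf
  · rw [h2, PH_b, PH_d, map_zero, map_zero, map_one, map_one]; ring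
  · rw [h3, PH_a, PH_c, map_zero, map_zero, map_one, map_one]; ring

/-- if `f` and `g` vanish at a point, every unit has degree zero there -/
theorem deg_zero_PH {f g : B} {F : Type} [Field F] (x : U (PH f g) →+* F)
    (hf : x (io _ f) = 0) (hg : x (io _ g) = 0) (ψ : (U (PH f g))ˣ) : Dg x ψ 0 := by
  have hx := (sol_pt x).1
  rw [PH_a, PH_b, PH_c, PH_d] at hx
  simp only [map_one, map_zero, one_mul, zero_mul, add_zero, zero_add] at hx
  -- hx : r1 * s1 + r2 * s2 = 1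
  set r1 := x (ge (PH f g) 0) with hr1
  set r2 := x (ge (PH f g) 1) with hr2
  set s1 := x (ge (PH f g) 2) with hs1
  set s2 := x (ge (PH f g) 3) with hs2
  set φ : B →+* F[T;T⁻¹] := (C : F →+* F[T;T⁻¹]).comp (x.comp (io _)) with hφ
  have hφf : φ f = 0 := by simp [hφ, hf]
  have hφg : φ g = 0 := by simp [hφ, hg]
  have hTT : (T 1 : F[T;T⁻¹]) * T (-1) = 1 := by rw [← T_add]; simp
  have hC : (C r1 : F[T;T⁻¹]) * C s1 + C r2 * C s2 = 1 := by
    have := congrArg (C : F →+* F[T;T⁻¹]) hx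
    rwa [map_add (C : F →+* F[T;T⁻¹]), map_mul (C : F →+* F[T;T⁻¹]), map_mul (C : F →+* F[T;T⁻¹]),
      map_one] at this
  have solg : ∀ a b c d : F[T;T⁻¹], a * c + b * d = 1 → Sol (PH f g) φ a b c d :=
    fun a b c d h => solPH φ _ _ _ _ h (by rw [hφf, hφg]; ring)
  have key : ∀ (a b c d a' b' c' d' : F[T;T⁻¹]) (h : a * c + b * d = 1) (h' : a' * c' + b' * d' = 1)
      (μ : F[T;T⁻¹]), ((c' = c ∧ d' = d ∧ a' = a - μ * d ∧ b' = b + μ * c) ∨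
        (a' = a ∧ b' = b ∧ c' = c - μ * b ∧ d' = d + μ * a)) →
      lf _ φ _ _ _ _ (solg a' b' c' d' h') (ψ : U (PH f g)) =
        lf _ φ _ _ _ _ (solg a b c d h) (ψ : U (PH f g)) := by
    intro a b c d a' b' c' d' h h' μ hor
    rcases hor with ⟨e1, e2, e3, e4⟩ | ⟨e1, e2, e3, e4⟩
    · refine Mv1.val (mv1_PH _ _ μ ?_ ?_ ?_ ?_ ?_) (ψ : U (PH f g)) ψ.isUnit
      · rw [lf_comp_io, lf_comp_io]
      · rw [lf_0, lf_0, lf_3, e3]
      · rw [lf_1, lf_1, lf_2, e4]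
      · rw [lf_2, lf_2, e1]
      · rw [lf_3, lf_3, e2]
    · refine Mv2.val (mv2_PH _ _ μ ?_ ?_ ?_ ?_ ?_ ?_ ?_) (ψ : U (PH f g)) ψ.isUnit
      · rw [lf_comp_io, lf_comp_io]
      · rw [lf_io, hφf]
      · rw [lf_io, hφg]
      · rw [lf_0, lf_0, e1]
      · rw [lf_1, lf_1, e2]
      · rw [lf_2, lf_2, lf_1, e3]
      · rw [lf_3, lf_3, lf_0, e4]
  have q0 : (C r1 : F[T;T⁻¹]) * C s1 + C r2 * C s2 = 1 := hC
  have q1 : (C r1 + T (-1) * C s2 : F[T;T⁻¹]) * C s1 + (C r2 - T (-1) * C s1) * C s2 = 1 := by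
    linear_combination hC
  have q2 : (C r1 + T (-1) * C s2 : F[T;T⁻¹]) * (T 1 * C r2) +
      (C r2 - T (-1) * C s1) * (-(T 1 * C r1)) = 1 := by
    linear_combination (C r1 * C s1 + C r2 * C s2) * hTT + hC
  have q3 : (T (-1) * C s2 + T 1 * C r1 : F[T;T⁻¹]) * (T 1 * C r2) +
      (-(T (-1) * C s1) + T 1 * C r2) * (-(T 1 * C r1)) = 1 := by
    linear_combination (C r1 * C s1 + C r2 * C s2) * hTT + hC
  have q4 : (T (-1) * C s2 + T 1 * C r1 : F[T;T⁻¹]) * (T (-1) * C s1) +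
      (-(T (-1) * C s1) + T 1 * C r2) * (T (-1) * C s2) = 1 := by
    linear_combination (C r1 * C s1 + C r2 * C s2) * hTT + hC
  have q5 : (T 1 * C r1 : F[T;T⁻¹]) * (T (-1) * C s1) + (T 1 * C r2) * (T (-1) * C s2) = 1 := by
    linear_combination (C r1 * C s1 + C r2 * C s2) * hTT + hC
  have m1 := key _ _ _ _ _ _ _ _ q0 q1 (-T (-1)) (Or.inl ⟨rfl, rfl, by ring, by ring⟩)
  have m2 := key _ _ _ _ _ _ _ _ q1 q2 (-T 1) (Or.inr ⟨rfl, rfl,
    by linear_combination (C s1) * hTT, by linear_combination (C s2) * hTT⟩)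
  have m3 := key _ _ _ _ _ _ _ _ q2 q3 (1 - T (-1)) (Or.inl ⟨rfl, rfl,
    by linear_combination (C r1) * hTT, by linear_combination (C r2) * hTT⟩)
  have m4 := key _ _ _ _ _ _ _ _ q3 q4 1 (Or.inr ⟨rfl, rfl, by ring, by ring⟩)
  have m5 := key _ _ _ _ _ _ _ _ q4 q5 1 (Or.inl ⟨rfl, rfl, by ring, by ring⟩)
  have hstart : lf _ φ _ _ _ _ (solg _ _ _ _ q0) = (C : F →+* F[T;T⁻¹]).comp x := by
    apply U_ext
    · rw [lf_comp_io]; rfl
    · rw [lf_0]; rfl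
    · rw [lf_1]; rfl
    · rw [lf_2]; rfl
    · rw [lf_3]; rfl
  have hend : lf _ φ _ _ _ _ (solg _ _ _ _ q5) = xL x := by
    apply U_ext
    · rw [lf_comp_io]
      ext1 t
      rw [RingHom.comp_apply (xL x), xL_io]; rfl
    · rw [lf_0, xL_0, mul_comm]
    · rw [lf_1, xL_1, mul_comm]
    · rw [lf_2, xL_2, mul_comm]
    · rw [lf_3, xL_3, mul_comm]
  unfold Dg
  rw [← hend, m5, m4, m3, m2, m1, hstart]
  simp

variable {p : ℕ} {k : Type} [Field k] (V : ValData p k)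

/-- points exist -/
theorem exists_pt {P : Pm B} (hD : Desc P) (F : Type) [Field F] (φ : B →+* F) :
    ∃ x : U P →+* F, x.comp (io P) = φ := by
  obtain ⟨q, -, b, h⟩ := hD 0 (fun F _ x y _ => by simp)
  obtain ⟨x, hx, -⟩ := h F φ
  exact ⟨x, hx⟩

theorem v_sub_den [Fact p.Prime] (x y : k) : ¬ p ∣ (-(V.v x - V.v y)).den := by
  have h1 : V.v x ∈ Gam p := V.v_den x
  have h2 : V.v y ∈ Gam p := V.v_den y
  exact (Gam p).neg_mem ((Gam p).sub_mem h1 h2)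

theorem eeL {P : Pm B} {F : Type} [Field F] (x : U P →+* F) (ψ : (U P)ˣ) :
    xL x (ee ψ) = C (x (ee ψ)) := by
  let K := FractionRing F[T;T⁻¹]
  let j : F[T;T⁻¹] →+* K := algebraMap _ _
  have hj : Function.Injective j := IsFractionRing.injective F[T;T⁻¹] K
  apply hj
  obtain ⟨m, hm⟩ := exists_Dg ((j.comp (C : F →+* F[T;T⁻¹])).comp x) ψ
  have hio : (j.comp (xL x)).comp (io P) = ((j.comp (C : F →+* F[T;T⁻¹])).comp x).comp (io P) := by
    ext1 t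
    simp only [RingHom.comp_apply, xL_io]
  obtain ⟨hm2, -⟩ := Dg_fib hio hm
  have e1 := ee_val hm
  have e2 := ee_val hm2
  have : (j.comp (xL x)) (ee ψ) = ((j.comp (C : F →+* F[T;T⁻¹])).comp x) (ee ψ) := by
    rw [e1, e2]
  simpa only [RingHom.comp_apply] using this

theorem exists_z {P : Pm B} (f g : B) (Hz : ∀ (F : Type) [Field F] (x : U P →+* F),
      x (io P f) = 0 → x (io P g) = 0 → ∀ ψ : (U P)ˣ, Dg x ψ 0)
    (h : U P) (hf : io P f = h * ge P 2) (hg : io P g = h * ge P 3)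
    (hh : h = io P f * ge P 0 + io P g * ge P 1) {F : Type} [Field F] (s₁ : U P →+* F)
    (ψ : (U P)ˣ) (n : ℤ) (hn : Dg s₁ ψ n) (hn0 : n ≠ 0) : ∃ z : (U P)ˣ, Dg s₁ z 1 := by
  have hzu : IsUnit (h * (1 - ee ψ) + ee ψ) := by
    refine isUnit_of_points _ (fun F _ x => ?_)
    obtain ⟨m, hm⟩ := exists_Dg x ψ
    rw [map_add, map_mul, map_sub, map_one, ee_val hm]
    by_cases hm0 : m = 0
    · rw [if_pos hm0]; simp
    · rw [if_neg hm0, sub_zero, mul_one, add_zero]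
      intro hx0
      apply hm0
      refine Dg_unique hm (Hz F x ?_ ?_ ψ)
      · rw [hf, map_mul, hx0, zero_mul]
      · rw [hg, map_mul, hx0, zero_mul]
  have he : s₁ (ee ψ) = 0 := by rw [ee_val hn, if_neg hn0]
  have heL : xL s₁ (ee ψ) = 0 := by rw [eeL, he, map_zero]
  refine ⟨hzu.unit, ?_⟩
  have e1 : s₁ (h * (1 - ee ψ) + ee ψ) = s₁ h := by
    rw [map_add, map_mul, map_sub, he, map_one]; ring
  have e2 : xL s₁ (h * (1 - ee ψ) + ee ψ) = xL s₁ h := by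
    rw [map_add, map_mul, map_sub, heL, map_one]; ring
  have e3 : xL s₁ h = C (s₁ h) * T 1 := by
    rw [hh, map_add, map_mul, map_mul, xL_io, xL_io, xL_0, xL_1, map_add s₁, map_mul s₁,
      map_mul s₁, map_add C, map_mul C, map_mul C]
    ring
  unfold Dg
  rw [IsUnit.unit_spec, e1, e2, e3]

theorem relPH (f g : B) : ∃ h : U (PH f g), io _ f = h * ge _ 2 ∧ io _ g = h * ge _ 3 ∧
    h = io _ f * ge _ 0 + io _ g * ge _ 1 ∧ ge (PH f g) 0 * ge _ 2 + ge _ 1 * ge _ 3 = 1 := by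
  have hrel1 := rel1 (PH f g)
  have hrel2 := rel2 (PH f g)
  rw [PH_a, PH_b, PH_c, PH_d] at hrel1
  rw [PH_u, PH_w] at hrel2
  simp only [map_one, map_zero, map_neg, one_mul, zero_mul, add_zero, zero_add] at hrel1 hrel2
  refine ⟨_, ?_, ?_, rfl, hrel1⟩
  · linear_combination (-(io (PH f g) f)) * hrel1 + ge (PH f g) 1 * hrel2
  · linear_combination (-(io (PH f g) g)) * hrel1 - ge (PH f g) 0 * hrel2

/-- solving the Hermite problem -/
theorem stepH [Fact p.Prime] [CharP B p] {t₁ t₂ : B →+* k} (hI : Inv V t₁ t₂) (β : Bˣ)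
    (hβ₁ : V.v (t₁ β) = 1) (hβ₂ : V.v (t₂ β) = 1) (f g : B) :
    ∃ s₁ s₂ : U (PH f g) →+* k, s₁.comp (io _) = t₁ ∧ s₂.comp (io _) = t₂ ∧ Inv V s₁ s₂ := by
  have hD := desc_PH p f g
  obtain ⟨s₁, h₁⟩ := exists_pt hD k t₁
  obtain ⟨s₂, h₂⟩ := exists_pt hD k t₂
  have H : (∀ ψ : (U (PH f g))ˣ, Dg s₁ ψ 0) ∨ ∃ (z : (U (PH f g))ˣ) (d : ℤ), d ≠ 0 ∧ Dg s₁ z d ∧
      ∃ lam : k, lam ≠ 0 ∧ (d : ℚ) * V.v lam = - (V.v (s₁ z) - V.v (s₂ z)) := by
    by_cases hall : ∀ ψ : (U (PH f g))ˣ, Dg s₁ ψ 0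
    · exact Or.inl hall
    · right
      obtain ⟨ψ, hψ⟩ := not_forall.mp hall
      obtain ⟨n, hn⟩ := exists_Dg s₁ ψ
      have hn0 : n ≠ 0 := by rintro rfl; exact hψ hn
      obtain ⟨h, hf, hg, hh, -⟩ := relPH f g
      obtain ⟨z, hz⟩ := exists_z f g (fun F _ x => deg_zero_PH x) h hf hg hh s₁ ψ n hn hn0
      obtain ⟨lam, hl, hv⟩ := V.v_surj _ (v_sub_den V (s₁ (z : U (PH f g))) (s₂ (z : U (PH f g))))
      exact ⟨z, 1, one_ne_zero, hz, lam, hl, by rw [hv, Int.cast_one, one_mul]⟩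
  obtain ⟨s₁', h1, h2⟩ := step V hI hD β hβ₁ hβ₂ s₁ s₂ h₁ h₂ H
  exact ⟨s₁', s₂, h1, h₂, h2⟩

end

end Pool.Agent.H407.Edr
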