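import Pool.Agent.H407.Edr.EDesc
import Pool.Agent.H407.Edr.HStep

set_option autoImplicit false

namespace Pool.Agent.H407.Edr

open LaurentPolynomial

noncomputable section

theorem Gam_mul {p : ℕ} [Fact p.Prime] {a b : ℚ} (ha : a ∈ Gam p) (hb : b ∈ Gam p) :
    a * b ∈ Gam p := by
  intro h
  have h1 := h.trans (Rat.mul_den_dvd a b)
  rcases (Fact.out : p.Prime).dvd_mul.mp h1 with h2 | h2
  · exact ha h2
  · exact hb h2

theorem Gam_int {p : ℕ} [Fact p.Prime] (n : ℤ) : (n : ℚ) ∈ Gam p := by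
  have := (Fact.out : p.Prime).one_lt
  show ¬ p ∣ (n : ℚ).den
  rw [Rat.den_intCast, Nat.dvd_one]
  omega

theorem Gam_div {p : ℕ} [Fact p.Prime] {q : ℚ} (hq : q ∈ Gam p) {d : ℤ} (hd : d ≠ 0) :
    (p : ℚ) ^ d.natAbs * q / d ∈ Gam p := by
  have hp1 := (Fact.out : p.Prime).one_lt
  have hd' : d.natAbs ≠ 0 := Int.natAbs_ne_zero.mpr hd
  obtain ⟨e, d', hnd, hde⟩ := Nat.exists_eq_pow_mul_and_not_dvd hd' p hp1.ne'
  have hd'0 : d' ≠ 0 := by rintro rfl; simp at hnd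
  have hele : e ≤ d.natAbs := by
    have h1 : e < p ^ e := Nat.lt_pow_self hp1
    have h2 : p ^ e ≤ d.natAbs := by
      rw [hde]
      exact Nat.le_mul_of_pos_right _ (Nat.pos_of_ne_zero hd'0)
    omega
  have hinv : ((d' : ℚ))⁻¹ ∈ Gam p := by
    show ¬ p ∣ ((d' : ℚ)⁻¹).den
    rw [Rat.inv_natCast_den_of_pos (Nat.pos_of_ne_zero hd'0)]
    exact hnd
  have hp0 : (p : ℚ) ≠ 0 := by exact_mod_cast (Fact.out : p.Prime).ne_zero
  have hd'q : (d' : ℚ) ≠ 0 := by exact_mod_cast hd'0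
  have habs : (d.natAbs : ℚ) = (p : ℚ) ^ e * d' := by exact_mod_cast hde
  have hpow : (p : ℚ) ^ d.natAbs = (p : ℚ) ^ (d.natAbs - e) * (p : ℚ) ^ e := by
    rw [← pow_add, Nat.sub_add_cancel hele]
  have hsplit : (p : ℚ) ^ d.natAbs * q / (d.natAbs : ℚ) =
      ((((p : ℤ) ^ (d.natAbs - e) : ℤ)) : ℚ) * (q * (d' : ℚ)⁻¹) := by
    rw [habs, hpow]
    push_cast
    field_simp
  have hmem : (p : ℚ) ^ d.natAbs * q / (d.natAbs : ℚ) ∈ Gam p := by
    rw [hsplit]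
    exact Gam_mul (Gam_int _) (Gam_mul hq hinv)
  rcases Int.natAbs_eq d with h | h
  · have : (d : ℚ) = (d.natAbs : ℚ) := by
      conv_lhs => rw [h]
      simp
    rw [this]; exact hmem
  · have : (d : ℚ) = -(d.natAbs : ℚ) := by
      conv_lhs => rw [h]
      simp
    rw [this, div_neg]; exact (Gam p).neg_mem hmem

variable {B : Type} [CommRing B] {p : ℕ} [Fact p.Prime] [CharP B p]

/-- powers of the parameters -/
def Pw (P : Pm B) (N : ℕ) : Pm B := ⟨P.a ^ N, P.b ^ N, P.c ^ N, P.d ^ N, P.u ^ N, P.w ^ N⟩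

section
variable (P : Pm B) (N : ℕ)
theorem Pw_a : (Pw P N).a = P.a ^ N := rfl
theorem Pw_b : (Pw P N).b = P.b ^ N := rfl
theorem Pw_c : (Pw P N).c = P.c ^ N := rfl
theorem Pw_d : (Pw P N).d = P.d ^ N := rfl
theorem Pw_u : (Pw P N).u = P.u ^ N := rfl
theorem Pw_w : (Pw P N).w = P.w ^ N := rfl
end

variable (p) in
theorem solFrm (P : Pm B) (n : ℕ) :
    Sol P ((io (Pw P (p ^ n))).comp (iterateFrobenius B p n)) (ge _ 0) (ge _ 1) (ge _ 2) (ge _ 3) := by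
  have h1 := rel1 (Pw P (p ^ n))
  have h2 := rel2 (Pw P (p ^ n))
  rw [Pw_a, Pw_b, Pw_c, Pw_d] at h1
  rw [Pw_u, Pw_w] at h2
  constructor
  · simp only [RingHom.comp_apply, iterateFrobenius_def]
    exact h1
  · simp only [RingHom.comp_apply, iterateFrobenius_def]
    exact h2

variable (p) in
/-- the semilinear Frobenius twist -/
def Frm (P : Pm B) (n : ℕ) : U P →+* U (Pw P (p ^ n)) :=
  lf P ((io (Pw P (p ^ n))).comp (iterateFrobenius B p n)) (ge _ 0) (ge _ 1) (ge _ 2) (ge _ 3)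
    (solFrm p P n)

variable {F : Type} [Field F] [CharP F p]

theorem solTw {P : Pm B} (n : ℕ) (s : U P →+* F) :
    Sol (Pw P (p ^ n)) (s.comp (io P)) (s (ge P 0) ^ p ^ n) (s (ge P 1) ^ p ^ n)
      (s (ge P 2) ^ p ^ n) (s (ge P 3) ^ p ^ n) := by
  obtain ⟨h1, h2⟩ := sol_pt s
  have h1' := congrArg (iterateFrobenius F p n) h1
  have h2' := congrArg (iterateFrobenius F p n) h2
  simp only [map_add, map_mul, map_one, map_zero, iterateFrobenius_def] at h1' h2'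
  constructor
  · rw [Pw_a, Pw_b, Pw_c, Pw_d]
    simp only [map_pow]
    exact h1'
  · rw [Pw_u, Pw_w]
    simp only [map_pow]
    exact h2'

variable (p) in
/-- the Frobenius twist of a point -/
def tw {P : Pm B} (n : ℕ) (s : U P →+* F) : U (Pw P (p ^ n)) →+* F :=
  lf _ (s.comp (io P)) _ _ _ _ (solTw n s)

theorem tw_io {P : Pm B} (n : ℕ) (s : U P →+* F) : (tw p n s).comp (io _) = s.comp (io P) :=
  lf_comp_io _ _ _ _ _ _ _

theorem tw_Frm {P : Pm B} (n : ℕ) (s : U P →+* F) :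
    (tw p n s).comp (Frm p P n) = (iterateFrobenius F p n).comp s := by
  apply U_ext
  · ext1 t
    simp only [RingHom.comp_apply, Frm, lf_io, tw, iterateFrobenius_def, map_pow]
  · simp only [RingHom.comp_apply, Frm, lf_0, tw, iterateFrobenius_def]
  · simp only [RingHom.comp_apply, Frm, lf_1, tw, iterateFrobenius_def]
  · simp only [RingHom.comp_apply, Frm, lf_2, tw, iterateFrobenius_def]
  · simp only [RingHom.comp_apply, Frm, lf_3, tw, iterateFrobenius_def]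

theorem xL_Frm {P : Pm B} (n : ℕ) (s : U P →+* F) :
    (xL (tw p n s)).comp (Frm p P n) = (mpL (iterateFrobenius F p n)).comp (xL s) := by
  apply U_ext
  · ext1 t
    simp only [RingHom.comp_apply, Frm, lf_io, xL_io, mpL_C, tw, iterateFrobenius_def, map_pow]
  · simp only [RingHom.comp_apply, Frm, lf_0, xL_0, mpL_C, mpL_T, map_mul, tw, iterateFrobenius_def]
  · simp only [RingHom.comp_apply, Frm, lf_1, xL_1, mpL_C, mpL_T, map_mul, tw, iterateFrobenius_def]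
  · simp only [RingHom.comp_apply, Frm, lf_2, xL_2, mpL_C, mpL_T, map_mul, tw, iterateFrobenius_def]
  · simp only [RingHom.comp_apply, Frm, lf_3, xL_3, mpL_C, mpL_T, map_mul, tw, iterateFrobenius_def]

theorem Dg_Frm {P : Pm B} (n : ℕ) (s : U P →+* F) (ψ : (U P)ˣ) {d : ℤ} (h : Dg s ψ d) :
    Dg (tw p n s) (Units.map (Frm p P n : U P →* U (Pw P (p ^ n))) ψ) d := by
  have h1 := congrArg (fun f => f (ψ : U P)) (xL_Frm n s)
  have h2 := congrArg (fun f => f (ψ : U P)) (tw_Frm n s)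
  simp only [RingHom.comp_apply] at h1 h2
  unfold Dg at h ⊢
  rw [Units.coe_map, MonoidHom.coe_coe, h1, h2, h, map_mul, mpL_C, mpL_T]

variable {k : Type} [Field k] [CharP k p] (V : ValData p k)

/-- the Kaplansky problem -/
def PK (a b c : B) : Pm B := ⟨a, b, 0, c, 0, 0⟩

theorem desc_Pw (a b c x y z : B) (h : x * a + y * b + z * c = 1) (n : ℕ) :
    Desc (Pw (PK a b c) (p ^ n)) := by
  have hpn : p ^ n ≠ 0 := pow_ne_zero _ (Fact.out : p.Prime).ne_zero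
  refine desc_E p _ ?_ ?_ ![x ^ p ^ n, y ^ p ^ n, 0, z ^ p ^ n] ?_
  · rw [Pw_u]; exact zero_pow hpn
  · rw [Pw_w]; exact zero_pow hpn
  · have h1 := congrArg (iterateFrobenius B p n) h
    simp only [map_add, map_mul, map_one, iterateFrobenius_def] at h1
    simp only [Fin.sum_univ_four, ent, Pw_a, Pw_b, Pw_c, Pw_d, PK]
    simp
    exact h1

theorem stepE {t₁ t₂ : B →+* k} (hI : Inv V t₁ t₂) (β : Bˣ)
    (hβ₁ : V.v (t₁ β) = 1) (hβ₂ : V.v (t₂ β) = 1) (a b c x y z : B)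
    (h : x * a + y * b + z * c = 1) :
    ∃ (n : ℕ) (s₁ s₂ : U (Pw (PK a b c) (p ^ n)) →+* k),
      s₁.comp (io _) = t₁ ∧ s₂.comp (io _) = t₂ ∧ Inv V s₁ s₂ := by
  have hD0 := desc_Pw (p := p) a b c x y z h 0
  have hP0 : Pw (PK a b c) (p ^ 0) = PK a b c := by
    simp [Pw, PK]
  by_cases H0 : ∃ (s₁ s₂ : U (Pw (PK a b c) (p ^ 0)) →+* k),
      s₁.comp (io _) = t₁ ∧ s₂.comp (io _) = t₂ ∧ Inv V s₁ s₂
  · exact ⟨0, H0⟩
  rw [hP0] at H0 hD0
  obtain ⟨s₁, h₁⟩ := exists_pt hD0 k t₁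
  obtain ⟨s₂, h₂⟩ := exists_pt hD0 k t₂
  by_cases hall : ∀ ψ : (U (PK a b c))ˣ, Dg s₁ ψ 0
  · obtain ⟨s₁', e1, e2⟩ := step V hI hD0 β hβ₁ hβ₂ s₁ s₂ h₁ h₂ (Or.inl hall)
    exact absurd ⟨s₁', s₂, e1, h₂, e2⟩ H0
  · obtain ⟨ψ, hψ⟩ := not_forall.mp hall
    obtain ⟨d, hd⟩ := exists_Dg s₁ ψ
    have hd0 : d ≠ 0 := by rintro rfl; exact hψ hd
    set n := d.natAbs with hn
    refine ⟨n, ?_⟩
    have hD := desc_Pw (p := p) a b c x y z h n
    have hz := Dg_Frm (p := p) n s₁ ψ hd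
    have key : ∀ s : U (PK a b c) →+* k, V.v ((tw p n s) ((Units.map (Frm p (PK a b c) n :
        U (PK a b c) →* U (Pw (PK a b c) (p ^ n))) ψ : (U (Pw (PK a b c) (p ^ n)))ˣ) :
          U (Pw (PK a b c) (p ^ n)))) = (p ^ n : ℕ) * V.v (s ψ) := by
      intro s
      have h2 := congrArg (fun f => f (ψ : U (PK a b c))) (tw_Frm (p := p) n s)
      simp only [RingHom.comp_apply, iterateFrobenius_def] at h2
      rw [Units.coe_map, MonoidHom.coe_coe, h2, V.v_pow (ψ.isUnit.map s).ne_zero]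
    have hmem : (p : ℚ) ^ d.natAbs * (-(V.v (s₁ ψ) - V.v (s₂ ψ))) / d ∈ Gam p :=
      Gam_div (v_sub_den V _ _) hd0
    obtain ⟨lam, hlam, hlv⟩ := V.v_surj _ hmem
    obtain ⟨s₁', e1, e2⟩ := step V hI hD β hβ₁ hβ₂ (tw p n s₁) (tw p n s₂)
      ((tw_io n s₁).trans h₁) ((tw_io n s₂).trans h₂) (Or.inr ⟨_, d, hd0, hz, lam, hlam, by
        rw [hlv, key, key]
        have : (d : ℚ) ≠ 0 := by exact_mod_cast hd0
        push_cast
        field_simp
        ring⟩)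
    exact ⟨s₁', tw p n s₂, e1, (tw_io n s₂).trans h₂, e2⟩

end

end Pool.Agent.H407.Edr
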