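import Pool.Agent.H407.Edr.Mov

set_option autoImplicit false

namespace Pool.Agent.H407.Edr

open LaurentPolynomial

noncomputable section

variable {B : Type} [CommRing B] {P : Pm B} {F : Type} [Field F]

theorem perp {p q e1 e2 : F} (h : ¬ (p = 0 ∧ q = 0)) (h0 : e1 * p + e2 * q = 0) :
    ∃ μ : F, e1 = - (μ * q) ∧ e2 = μ * p := by
  by_cases hp : p = 0
  · have hq : q ≠ 0 := fun hq => h ⟨hp, hq⟩
    refine ⟨-e1 / q, ?_, ?_⟩
    · field_simp
    · subst hp
      have : e2 = 0 := by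
        have : e2 * q = 0 := by simpa using h0
        exact (mul_eq_zero.mp this).resolve_right hq
      rw [this, mul_zero]
  · refine ⟨e2 / p, ?_, ?_⟩
    · field_simp
      linear_combination h0
    · field_simp

/-- multiply `r` by `κ` and `s` by its inverse -/
theorem exists_torus (x : U P →+* F) (κ : F) (hκ : κ ≠ 0) : ∃ y : U P →+* F,
    y.comp (io P) = x.comp (io P) ∧ y (ge P 0) = κ * x (ge P 0) ∧ y (ge P 1) = κ * x (ge P 1) ∧
      y (ge P 2) = κ⁻¹ * x (ge P 2) ∧ y (ge P 3) = κ⁻¹ * x (ge P 3) := by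
  have hs := sol_pt x
  refine ⟨lf P (x.comp (io P)) (κ * x (ge P 0)) (κ * x (ge P 1)) (κ⁻¹ * x (ge P 2))
    (κ⁻¹ * x (ge P 3)) ?_, lf_comp_io _ _ _ _ _ _ _, lf_0 _ _ _ _ _ _ _, lf_1 _ _ _ _ _ _ _,
    lf_2 _ _ _ _ _ _ _, lf_3 _ _ _ _ _ _ _⟩
  obtain ⟨h1, h2⟩ := hs
  constructor
  · have hk : κ * κ⁻¹ = 1 := mul_inv_cancel₀ hκ
    linear_combination h1 + (x (ge P 0) * ((x.comp (io P)) P.a * x (ge P 2) +
      (x.comp (io P)) P.b * x (ge P 3)) + x (ge P 1) * ((x.comp (io P)) P.c * x (ge P 2) +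
      (x.comp (io P)) P.d * x (ge P 3))) * hk
  · linear_combination κ⁻¹ * h2

/-- if the `s` agree, an additive move of `r` is enough -/
theorem RR_same_s {ψ : U P} (hψ : IsUnit ψ) (x y : U P →+* F) (hio : y.comp (io P) = x.comp (io P))
    (h2 : y (ge P 2) = x (ge P 2)) (h3 : y (ge P 3) = x (ge P 3)) : RR ψ x y := by
  obtain ⟨hx, -⟩ := sol_pt x
  obtain ⟨hy, -⟩ := sol_pt y
  rw [hio, h2, h3] at hy
  simp only [RingHom.comp_apply] at hx hy
  obtain ⟨μ, hμ1, hμ2⟩ := perp (p := x (io P P.a) * x (ge P 2) + x (io P P.b) * x (ge P 3))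
    (q := x (io P P.c) * x (ge P 2) + x (io P P.d) * x (ge P 3))
    (e1 := y (ge P 0) - x (ge P 0)) (e2 := y (ge P 1) - x (ge P 1)) (by
      rintro ⟨h1, h2⟩
      rw [h1, h2] at hx
      simp at hx) (by linear_combination hy - hx)
  exact RR_mv1 hψ (μ := μ) ⟨hio, by linear_combination hμ1, by linear_combination hμ2, h2, h3⟩

theorem RR_A1 {ψ : U P} (hψ : IsUnit ψ) (x y : U P →+* F) (hio : y.comp (io P) = x.comp (io P))
    (hu : x (io P P.u) = 0) (hw : x (io P P.w) = 0)
    (hc : x (ge P 0) * (x (io P P.a) * y (ge P 2) + x (io P P.b) * y (ge P 3)) +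
      x (ge P 1) * (x (io P P.c) * y (ge P 2) + x (io P P.d) * y (ge P 3)) ≠ 0) : RR ψ x y := by
  obtain ⟨hx, -⟩ := sol_pt x
  simp only [RingHom.comp_apply] at hx
  set c := x (ge P 0) * (x (io P P.a) * y (ge P 2) + x (io P P.b) * y (ge P 3)) +
      x (ge P 1) * (x (io P P.c) * y (ge P 2) + x (io P P.d) * y (ge P 3)) with hcdef
  have hcc : c⁻¹ * c = 1 := inv_mul_cancel₀ hc
  have hsol : Sol P (x.comp (io P)) (x (ge P 0)) (x (ge P 1)) (c⁻¹ * y (ge P 2))
      (c⁻¹ * y (ge P 3)) := by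
    constructor
    · simp only [RingHom.comp_apply]
      linear_combination hcc + c⁻¹ * hcdef * (-1)
    · simp only [RingHom.comp_apply, hu, hw]; simp
  let z := lf P _ _ _ _ _ hsol
  have hz : z.comp (io P) = x.comp (io P) := lf_comp_io _ _ _ _ _ _ _
  have z0 : z (ge P 0) = x (ge P 0) := lf_0 _ _ _ _ _ _ _
  have z1 : z (ge P 1) = x (ge P 1) := lf_1 _ _ _ _ _ _ _
  have z2 : z (ge P 2) = c⁻¹ * y (ge P 2) := lf_2 _ _ _ _ _ _ _
  have z3 : z (ge P 3) = c⁻¹ * y (ge P 3) := lf_3 _ _ _ _ _ _ _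
  have R1 : RR ψ x z := by
    have hzs := hsol.1
    simp only [RingHom.comp_apply] at hzs
    obtain ⟨μ, hμ1, hμ2⟩ := perp (p := x (ge P 0) * x (io P P.a) + x (ge P 1) * x (io P P.c))
      (q := x (ge P 0) * x (io P P.b) + x (ge P 1) * x (io P P.d))
      (e1 := z (ge P 2) - x (ge P 2)) (e2 := z (ge P 3) - x (ge P 3)) (by
        rintro ⟨h1, h2⟩
        have : (0 : F) = 1 := by
          linear_combination hx - x (ge P 2) * h1 - x (ge P 3) * h2
        exact zero_ne_one this) (by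
        rw [z2, z3]; linear_combination hzs - hx)
    exact RR_mv2 hψ (μ := μ) ⟨hz, hu, hw, z0, z1, by linear_combination hμ1,
      by linear_combination hμ2⟩
  obtain ⟨t, ht, t0, t1, t2, t3⟩ := exists_torus z c⁻¹ (inv_ne_zero hc)
  have R2 : RR ψ z t := RR_torus hψ c⁻¹ (inv_ne_zero hc) ht t0 t1 t2 t3
  have R3 : RR ψ t y := by
    refine RR_same_s hψ t y ?_ ?_ ?_
    · rw [hio, ht, hz]
    · rw [t2, z2, inv_inv, ← mul_assoc, mul_inv_cancel₀ hc, one_mul]
    · rw [t3, z3, inv_inv, ← mul_assoc, mul_inv_cancel₀ hc, one_mul]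
  exact RR_trans hψ R1 (RR_trans hψ R2 R3)

theorem RR_fib {ψ : U P} (hψ : IsUnit ψ) (x y : U P →+* F) (hio : y.comp (io P) = x.comp (io P)) :
    RR ψ x y := by
  have hioa : ∀ t, y (io P t) = x (io P t) := fun t => congrArg (fun f => f t) hio
  obtain ⟨hx, hx'⟩ := sol_pt x
  obtain ⟨hy, hy'⟩ := sol_pt y
  simp only [RingHom.comp_apply] at hx hx' hy hy'
  rw [hioa, hioa] at hy'
  rw [hioa, hioa, hioa, hioa] at hy
  by_cases huw : x (io P P.u) = 0 ∧ x (io P P.w) = 0
  · obtain ⟨hu, hw⟩ := huw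
    by_cases hc : x (ge P 0) * (x (io P P.a) * y (ge P 2) + x (io P P.b) * y (ge P 3)) +
      x (ge P 1) * (x (io P P.c) * y (ge P 2) + x (io P P.d) * y (ge P 3)) = 0
    · by_cases hc' : y (ge P 0) * (x (io P P.a) * x (ge P 2) + x (io P P.b) * x (ge P 3)) +
        y (ge P 1) * (x (io P P.c) * x (ge P 2) + x (io P P.d) * x (ge P 3)) = 0
      · -- intermediate point (r, s + s')
        have hsol : Sol P (x.comp (io P)) (x (ge P 0)) (x (ge P 1)) (x (ge P 2) + y (ge P 2))
            (x (ge P 3) + y (ge P 3)) := by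
          constructor
          · simp only [RingHom.comp_apply]
            linear_combination hx + hc
          · simp only [RingHom.comp_apply, hu, hw]; simp
        let z := lf P _ _ _ _ _ hsol
        have hz : z.comp (io P) = x.comp (io P) := lf_comp_io _ _ _ _ _ _ _
        have z2 : z (ge P 2) = x (ge P 2) + y (ge P 2) := lf_2 _ _ _ _ _ _ _
        have z3 : z (ge P 3) = x (ge P 3) + y (ge P 3) := lf_3 _ _ _ _ _ _ _
        have R1 : RR ψ x z := by
          refine RR_A1 hψ x z hz hu hw ?_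
          rw [z2, z3]
          have : x (ge P 0) * (x (io P P.a) * (x (ge P 2) + y (ge P 2)) +
              x (io P P.b) * (x (ge P 3) + y (ge P 3))) +
              x (ge P 1) * (x (io P P.c) * (x (ge P 2) + y (ge P 2)) +
              x (io P P.d) * (x (ge P 3) + y (ge P 3))) = 1 := by
            linear_combination hx + hc
          rw [this]; exact one_ne_zero
        have R2 : RR ψ y z := by
          refine RR_A1 hψ y z (hz.trans hio.symm) (by rw [hioa, hu]) (by rw [hioa, hw]) ?_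
          rw [z2, z3, hioa, hioa, hioa, hioa]
          have : y (ge P 0) * (x (io P P.a) * (x (ge P 2) + y (ge P 2)) +
              x (io P P.b) * (x (ge P 3) + y (ge P 3))) +
              y (ge P 1) * (x (io P P.c) * (x (ge P 2) + y (ge P 2)) +
              x (io P P.d) * (x (ge P 3) + y (ge P 3))) = 1 := by
            linear_combination hy + hc'
          rw [this]; exact one_ne_zero
        exact RR_trans hψ R1 (RR_symm R2)
      · refine RR_symm (RR_A1 hψ y x hio.symm (by rw [hioa, hu]) (by rw [hioa, hw]) ?_)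
        rw [hioa, hioa, hioa, hioa]
        exact hc'
    · exact RR_A1 hψ x y hio hu hw hc
  · obtain ⟨μ, hμ1, hμ2⟩ := perp huw (e1 := x (ge P 2)) (e2 := x (ge P 3))
      (by linear_combination hx')
    obtain ⟨ν, hν1, hν2⟩ := perp huw (e1 := y (ge P 2)) (e2 := y (ge P 3))
      (by linear_combination hy')
    have hμ : μ ≠ 0 := by
      rintro rfl
      rw [hμ1, hμ2] at hx
      simp at hx
    have hν : ν ≠ 0 := by
      rintro rfl
      rw [hν1, hν2] at hy
      simp at hy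
    obtain ⟨t, ht, t0, t1, t2, t3⟩ := exists_torus x (μ / ν) (div_ne_zero hμ hν)
    have R2 : RR ψ x t := RR_torus hψ _ (div_ne_zero hμ hν) ht t0 t1 t2 t3
    refine RR_trans hψ R2 (RR_same_s hψ t y (hio.trans ht.symm) ?_ ?_)
    · rw [t2, hμ1, hν1]; field_simp
    · rw [t3, hμ2, hν2]; field_simp

end

end Pool.Agent.H407.Edr
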