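import Pool.Agent.H407.Edr.Base

set_option autoImplicit false

namespace Pool.Agent.H407.Edr

noncomputable section

variable {p : ℕ} [Fact p.Prime]

/-- all problems are solvable -/
def Good (p : ℕ) (R : Type) [CommRing R] : Prop := ∀ a b c : R, Slv p (RingHom.id R) (a, b, c)

theorem Good.herm {R : Type} [CommRing R] (h : Good p R) : Herm R := by
  intro f g
  obtain ⟨⟨h, x, y, u, v, h1, h2, h3⟩, -⟩ := h f g 0
  exact ⟨h, x, y, u, v, h1, h2, h3⟩

/-- `Good` passes to the reduced quotient -/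
theorem Good.red {R : Type} [CommRing R] (h : Good p R) : Good p (R ⧸ nilradical R) := by
  intro a b c
  obtain ⟨a, rfl⟩ := Ideal.Quotient.mk_surjective a
  obtain ⟨b, rfl⟩ := Ideal.Quotient.mk_surjective b
  obtain ⟨c, rfl⟩ := Ideal.Quotient.mk_surjective c
  set π := Ideal.Quotient.mk (nilradical R) with hπ
  obtain ⟨⟨h, x, y, u, v, h1, h2, h3⟩, hE⟩ := h a b c
  refine ⟨⟨π h, π x, π y, π u, π v, ?_, ?_, ?_⟩, ?_⟩
  · rw [← map_mul]; exact congrArg π h1
  · rw [← map_mul]; exact congrArg π h2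
  · rw [← map_mul, ← map_mul, ← map_add, h3, map_one]
  · rintro ⟨x, y, z, hx⟩
    obtain ⟨x, rfl⟩ := Ideal.Quotient.mk_surjective x
    obtain ⟨y, rfl⟩ := Ideal.Quotient.mk_surjective y
    obtain ⟨z, rfl⟩ := Ideal.Quotient.mk_surjective z
    have h0 : π (x * a + y * b + z * c - 1) = 0 := by
      simp only [map_sub, map_add, map_mul, map_one]
      rw [sub_eq_zero]; exact hx
    have hnil : IsNilpotent (x * a + y * b + z * c - 1) :=
      mem_nilradical.mp (Ideal.Quotient.eq_zero_iff_mem.mp h0)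
    have hu : IsUnit (x * a + y * b + z * c) := by
      have := hnil.isUnit_add_one
      simpa using this
    obtain ⟨w, hw⟩ := hu.exists_left_inv
    obtain ⟨n, r1, r2, s1, s2, hr⟩ := hE ⟨w * x, w * y, w * z, by
      rw [← hw]; ring⟩
    refine ⟨n, π r1, π r2, π s1, π s2, ?_⟩
    have := congrArg π hr
    simpa [map_add, map_mul, map_pow] using this

section perf
variable {R : Type} [CommRing R] [CharP R p]

/-- large powers of elements of the perfection come from the ring -/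
theorem perf_pow (x : PerfectClosure R p) : ∃ n : ℕ, ∀ m, n ≤ m → ∃ y : R,
    x ^ p ^ m = PerfectClosure.of R p y := by
  obtain ⟨⟨n, y⟩, rfl⟩ := PerfectClosure.mk_surjective R p x
  refine ⟨n, fun m hm => ⟨y ^ p ^ (m - n), ?_⟩⟩
  have h := PerfectClosure.iterate_frobenius_mk R p n y
  rw [← coe_iterateFrobenius, iterateFrobenius_def] at h
  rw [map_pow, ← h, ← pow_mul, ← pow_add]
  congr 2
  omega

theorem Good.perf (h : Good p R) [IsReduced R] : IsEDR (PerfectClosure R p) := by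
  have hroot : ∀ (N : ℕ) (x : PerfectClosure R p), ∃ y, y ^ p ^ N = x := by
    intro N x
    obtain ⟨y, hy⟩ := (bijective_iterateFrobenius (PerfectClosure R p) p N).2 x
    exact ⟨y, by rw [← hy, iterateFrobenius_def]⟩
  have hinj : ∀ (N : ℕ) (x y : PerfectClosure R p), x ^ p ^ N = y ^ p ^ N → x = y := by
    intro N x y hxy
    apply (bijective_iterateFrobenius (PerfectClosure R p) p N).1
    rw [iterateFrobenius_def, iterateFrobenius_def]; exact hxy
  have hof : Function.Injective (PerfectClosure.of R p) := by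
    intro x y hxy
    rw [PerfectClosure.of_apply, PerfectClosure.of_apply, PerfectClosure.eq_iff] at hxy
    simpa using hxy
  have hsum : ∀ (N : ℕ) (x y : PerfectClosure R p), (x + y) ^ p ^ N = x ^ p ^ N + y ^ p ^ N :=
    fun N x y => add_pow_char_pow x y p N
  refine kaplansky ?_ ?_
  · intro f g
    obtain ⟨n1, h1⟩ := perf_pow f
    obtain ⟨n2, h2⟩ := perf_pow g
    obtain ⟨f', hf⟩ := h1 (n1 + n2) (by omega)
    obtain ⟨g', hg⟩ := h2 (n1 + n2) (by omega)
    obtain ⟨h, x, y, u, v, e1, e2, e3⟩ := h.herm f' g'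
    obtain ⟨h', hh⟩ := hroot (n1 + n2) (PerfectClosure.of R p h)
    obtain ⟨x', hx⟩ := hroot (n1 + n2) (PerfectClosure.of R p x)
    obtain ⟨y', hy⟩ := hroot (n1 + n2) (PerfectClosure.of R p y)
    obtain ⟨u', hu⟩ := hroot (n1 + n2) (PerfectClosure.of R p u)
    obtain ⟨v', hv⟩ := hroot (n1 + n2) (PerfectClosure.of R p v)
    refine ⟨h', x', y', u', v', ?_, ?_, ?_⟩
    · apply hinj (n1 + n2)
      rw [hf, mul_pow, hh, hx, e1, map_mul]
    · apply hinj (n1 + n2)
      rw [hg, mul_pow, hh, hy, e2, map_mul]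
    · apply hinj (n1 + n2)
      rw [hsum, mul_pow, mul_pow, hu, hx, hv, hy, one_pow, ← map_mul, ← map_mul, ← map_add, e3,
        map_one]
  · intro a b c x y z hxyz
    obtain ⟨n1, h1⟩ := perf_pow a
    obtain ⟨n2, h2⟩ := perf_pow b
    obtain ⟨n3, h3⟩ := perf_pow c
    obtain ⟨n4, h4⟩ := perf_pow x
    obtain ⟨n5, h5⟩ := perf_pow y
    obtain ⟨n6, h6⟩ := perf_pow z
    set N := n1 + n2 + n3 + n4 + n5 + n6 with hN
    obtain ⟨a', ha⟩ := h1 N (by omega)
    obtain ⟨b', hb⟩ := h2 N (by omega)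
    obtain ⟨c', hc⟩ := h3 N (by omega)
    obtain ⟨x', hx⟩ := h4 N (by omega)
    obtain ⟨y', hy⟩ := h5 N (by omega)
    obtain ⟨z', hz⟩ := h6 N (by omega)
    have huni : x' * a' + y' * b' + z' * c' = 1 := by
      apply hof
      rw [map_add, map_add, map_mul, map_mul, map_mul, map_one, ← ha, ← hb, ← hc, ← hx, ← hy, ← hz,
        ← mul_pow, ← mul_pow, ← mul_pow, ← hsum, ← hsum, hxyz, one_pow]
    obtain ⟨-, hE⟩ := h a' b' c'
    obtain ⟨n, r1, r2, s1, s2, hr⟩ := hE ⟨x', y', z', huni⟩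
    obtain ⟨r1', hr1⟩ := hroot (N + n) (PerfectClosure.of R p r1)
    obtain ⟨r2', hr2⟩ := hroot (N + n) (PerfectClosure.of R p r2)
    obtain ⟨s1', hs1⟩ := hroot (N + n) (PerfectClosure.of R p s1)
    obtain ⟨s2', hs2⟩ := hroot (N + n) (PerfectClosure.of R p s2)
    refine ⟨r1', r2', s1', s2', ?_⟩
    apply hinj (N + n)
    have e : ∀ t : PerfectClosure R p, t ^ p ^ (N + n) = (t ^ p ^ N) ^ p ^ n := by
      intro t; rw [← pow_mul, ← pow_add]
    rw [hsum, mul_pow, mul_pow, hsum, mul_pow, mul_pow, mul_pow, hr1, hr2, hs1, hs2, e a, e b, e c,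
      ha, hb, hc, one_pow]
    have := congrArg (PerfectClosure.of R p) hr
    simpa [map_add, map_mul, map_pow] using this

end perf

/-- the main theorem -/
theorem main (p : ℕ) [Fact p.Prime] : ∃ (R : Type) (_ : CommRing R) (_ : CharP R p),
    IsReduced R ∧ IsHermiteRing R ∧ IsEDR (PerfectClosure R p) ∧ ¬ IsEDR R := by
  obtain ⟨k, _, _, ⟨V⟩⟩ := exists_valData p
  obtain ⟨X₀, a, b, c, r1, r2, s1, s2, hac, ⟨x, y, z, hxyz⟩, hrs, ha1, hb1, hb2, hc2, vc1, vs2,
    va2, vs1, nc1, ns2, na2, ns1⟩ := exists_base V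
  obtain ⟨R, _, j, t₁, t₂, hj1, hj2, hinv, hgood⟩ := exists_chain V X₀
  have hgood' : Good p (R ⧸ nilradical R) := Good.red hgood
  set π := Ideal.Quotient.mk (nilradical R) with hπ
  have hp0 : (p : R ⧸ nilradical R) = 0 := by
    have h1 := (CharP.cast_eq_zero_iff X₀.B p p).mpr dvd_rfl
    have := congrArg (π.comp j) h1
    rwa [map_natCast, map_zero] at this
  have hker : ∀ (t : R →+* k) (x : R), x ∈ nilradical R → t x = 0 := fun t x hx =>
    ((mem_nilradical.mp hx).map t).eq_zero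
  let T₁ : R ⧸ nilradical R →+* k := Ideal.Quotient.lift (nilradical R) t₁ (hker t₁)
  let T₂ : R ⧸ nilradical R →+* k := Ideal.Quotient.lift (nilradical R) t₂ (hker t₂)
  have hchar : CharP (R ⧸ nilradical R) p := charP_of_hom hp0 T₁
  have hred : IsReduced (R ⧸ nilradical R) :=
    (Ideal.isRadical_iff_quotient_reduced _).mp (Ideal.radical_isRadical ⊥)
  have hinv' : Inv V T₁ T₂ := by
    intro ψ hψ
    obtain ⟨χ, hχ⟩ := hψ.exists_left_inv
    obtain ⟨ψ, rfl⟩ := Ideal.Quotient.mk_surjective ψ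
    obtain ⟨χ, rfl⟩ := Ideal.Quotient.mk_surjective χ
    have h0 : π (χ * ψ - 1) = 0 := by
      rw [map_sub, map_mul, map_one, sub_eq_zero]; exact hχ
    have hnil : IsNilpotent (χ * ψ - 1) :=
      mem_nilradical.mp (Ideal.Quotient.eq_zero_iff_mem.mp h0)
    have hu : IsUnit (χ * ψ) := by
      have := hnil.isUnit_add_one
      simpa using this
    exact hinv ψ (isUnit_of_mul_isUnit_right hu)
  refine ⟨R ⧸ nilradical R, inferInstance, hchar, hred, hermite_of_herm hgood'.herm,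
    hgood'.perf, fun hE => ?_⟩
  -- the matrix
  set J : X₀.B →+* R ⧸ nilradical R := π.comp j with hJ
  have hT1 : ∀ x, T₁ (J x) = X₀.t₁ x := fun x => by
    rw [← hj1]; rfl
  have hT2 : ∀ x, T₂ (J x) = X₀.t₂ x := fun x => by
    rw [← hj2]; rfl
  obtain ⟨q1, q2, u1, u2, hq⟩ := val_of_admits !![J a, J b; 0, J c] (hE 2 2 _) (J x) (J y) 0 (J z) (by
    have := congrArg J hxyz
    simpa [map_add, map_mul] using this)
  simp only [Matrix.of_apply, Matrix.cons_val', Matrix.cons_val_zero, Matrix.cons_val_one,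
    Matrix.cons_val_fin_one, zero_mul, zero_add] at hq
  have hp := (Fact.out : p.Prime)
  have hac' : J a * J c = 0 := by rw [← map_mul, hac, map_zero]
  have hrs' := congrArg J hrs
  simp only [map_add, map_mul, map_pow, map_one] at hrs'
  -- the p-th power of hq
  have hqp : q1 ^ p * (J a ^ p * u1 ^ p + J b ^ p * u2 ^ p) + q2 ^ p * (J c ^ p * u2 ^ p) = 1 := by
    have h1 := congrArg (frobenius (R ⧸ nilradical R) p) hq
    simp only [map_add, map_mul, map_one, frobenius_def] at h1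
    exact h1
  have hacp : J a ^ p * J c ^ p = 0 := by rw [← mul_pow, hac', zero_pow hp.ne_zero]
  set Ψ := q1 ^ p * (J a ^ p * J s1 + J b ^ p * J s2) + q2 ^ p * (J c ^ p * J s2) with hΨ
  have hΨu : IsUnit Ψ := by
    refine IsUnit.of_mul_eq_one (J r1 * (J a ^ p * u1 ^ p + J b ^ p * u2 ^ p) +
      J r2 * (J c ^ p * u2 ^ p)) ?_
    calc Ψ * (J r1 * (J a ^ p * u1 ^ p + J b ^ p * u2 ^ p) + J r2 * (J c ^ p * u2 ^ p))
        = (q1 ^ p * (J a ^ p * u1 ^ p + J b ^ p * u2 ^ p) + q2 ^ p * (J c ^ p * u2 ^ p)) *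
          (J r1 * (J a ^ p * J s1 + J b ^ p * J s2) + J r2 * (J c ^ p * J s2)) +
          (J a ^ p * J c ^ p) * ((q1 ^ p * J r2 - q2 ^ p * J r1) * (J s1 * u2 ^ p - J s2 * u1 ^ p)) := by
            rw [hΨ]; ring
      _ = 1 := by rw [hqp, hrs', hacp]; ring
  have hv := hinv' Ψ hΨu
  have e1 : T₁ Ψ = (T₁ q2) ^ p * ((X₀.t₁ c) ^ p * X₀.t₁ s2) := by
    rw [hΨ]
    simp only [map_add, map_mul, map_pow, hT1, ha1, hb1]
    rw [zero_pow hp.ne_zero]; ring
  have e2 : T₂ Ψ = (T₂ q1) ^ p * ((X₀.t₂ a) ^ p * X₀.t₂ s1) := by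
    rw [hΨ]
    simp only [map_add, map_mul, map_pow, hT2, hb2, hc2]
    rw [zero_pow hp.ne_zero]; ring
  have n1 : T₁ Ψ ≠ 0 := (hΨu.map T₁).ne_zero
  have n2 : T₂ Ψ ≠ 0 := (hΨu.map T₂).ne_zero
  have nq2 : T₁ q2 ≠ 0 := by
    intro h0
    apply n1
    rw [e1, h0, zero_pow hp.ne_zero, zero_mul]
  have nq1 : T₂ q1 ≠ 0 := by
    intro h0
    apply n2
    rw [e2, h0, zero_pow hp.ne_zero, zero_mul]
  rw [e1, e2, V.v_mul _ _ (pow_ne_zero _ nq2) (mul_ne_zero (pow_ne_zero _ nc1) ns2),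
    V.v_mul _ _ (pow_ne_zero _ nc1) ns2, V.v_pow nq2, V.v_pow nc1, vc1, vs2,
    V.v_mul _ _ (pow_ne_zero _ nq1) (mul_ne_zero (pow_ne_zero _ na2) ns1),
    V.v_mul _ _ (pow_ne_zero _ na2) ns1, V.v_pow nq1, V.v_pow na2, va2, vs1] at hv
  have hpq : (p : ℚ) ≠ 0 := by exact_mod_cast hp.ne_zero
  have hfin : -(V.v (T₂ q1) - V.v (T₁ q2)) = (1 - p) / p := by
    field_simp
    linarith
  have hden := v_sub_den V (T₂ q1) (T₁ q2)
  rw [hfin] at hden
  -- (1 - p) / p = 1 / p - 1 has denominator p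
  have hmem : ((1 - p : ℚ) / p) ∈ Gam p := hden
  have h1p : ((p : ℚ))⁻¹ ∈ Gam p := by
    have : ((p : ℚ))⁻¹ = (1 - p : ℚ) / p + 1 := by field_simp; ring
    rw [this]
    refine (Gam p).add_mem hmem ?_
    have := Gam_int (p := p) 1
    simpa using this
  have : ¬ p ∣ ((p : ℚ)⁻¹).den := h1p
  rw [Rat.inv_natCast_den_of_pos hp.pos] at this
  exact this dvd_rfl

end

end Pool.Agent.H407.Edr
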