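import Mathlib

set_option autoImplicit false

namespace Pool.Agent.H407.Edr

/-- a homomorphism from the units of `k` onto the additive group `ℤ_(p)`, extended to `k` -/
structure ValData (p : ℕ) (k : Type) [Field k] where
  v : k → ℚ
  v_mul : ∀ x y, x ≠ 0 → y ≠ 0 → v (x * y) = v x + v y
  v_den : ∀ x, ¬ p ∣ (v x).den
  v_surj : ∀ q : ℚ, ¬ p ∣ q.den → ∃ x, x ≠ 0 ∧ v x = q

namespace ValData

variable {p : ℕ} {k : Type} [Field k] (V : ValData p k)

theorem v_one : V.v 1 = 0 := by
  have := V.v_mul 1 1 one_ne_zero one_ne_zero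
  rw [mul_one] at this; linarith

theorem v_pow {x : k} (hx : x ≠ 0) (n : ℕ) : V.v (x ^ n) = n * V.v x := by
  induction n with
  | zero => simp [V.v_one]
  | succ n ih => rw [pow_succ, V.v_mul _ _ (pow_ne_zero _ hx) hx, ih]; push_cast; ring

theorem v_inv {x : k} (hx : x ≠ 0) : V.v x⁻¹ = - V.v x := by
  have := V.v_mul x x⁻¹ hx (inv_ne_zero hx)
  rw [mul_inv_cancel₀ hx, V.v_one] at this
  linarith

theorem v_zpow {x : k} (hx : x ≠ 0) (n : ℤ) : V.v (x ^ n) = n * V.v x := by
  obtain ⟨m, rfl | rfl⟩ := n.eq_nat_or_neg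
  · rw [zpow_natCast, V.v_pow hx]; simp
  · rw [zpow_neg, zpow_natCast, V.v_inv (pow_ne_zero _ hx), V.v_pow hx]; push_cast; ring

end ValData

/-- the group `ℤ_(p)` -/
def Gam (p : ℕ) [Fact p.Prime] : AddSubgroup ℚ where
  carrier := {q | ¬ p ∣ q.den}
  zero_mem' := by
    have := (Fact.out : p.Prime).one_lt
    simp only [Set.mem_setOf_eq, Rat.den_ofNat, Nat.dvd_one]
    omega
  add_mem' := by
    intro a b ha hb h
    have h1 := h.trans (Rat.add_den_dvd a b)
    rcases (Fact.out : p.Prime).dvd_mul.mp h1 with h2 | h2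
    · exact ha h2
    · exact hb h2
  neg_mem' := by
    intro a ha
    simpa using ha

theorem exists_valData (p : ℕ) [Fact p.Prime] :
    ∃ (k : Type) (_ : Field k) (_ : CharP k p), Nonempty (ValData p k) := by
  refine ⟨HahnSeries (Gam p) (ZMod p), inferInstance, ?_, ⟨?_⟩⟩
  · exact charP_of_injective_ringHom (HahnSeries.C_injective (Γ := Gam p) (R := ZMod p)) p
  · refine ⟨fun x => ((x.order : Gam p) : ℚ), ?_, ?_, ?_⟩
    · intro x y hx hy
      rw [HahnSeries.order_mul hx hy]; rfl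
    · intro x
      exact (x.order).2
    · intro q hq
      refine ⟨HahnSeries.single (⟨q, hq⟩ : Gam p) 1, ?_, ?_⟩
      · simp
      · rw [HahnSeries.order_single one_ne_zero]

end Pool.Agent.H407.Edr
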