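import Pool.Agent.H407.Edr.Tor

set_option autoImplicit false

namespace Pool.Agent.H407.Edr

open Polynomial

noncomputable section

variable {B : Type} [CommRing B]

/-- parameters of the Hermite problem for `f, g` -/
def PH (f g : B) : Pm B := ⟨1, 0, 0, 1, -g, f⟩

theorem solPH {C : Type} [CommRing C] {f g : B} (φ : B →+* C) (r1 r2 s1 s2 : C)
    (h1 : r1 * s1 + r2 * s2 = 1) (h2 : φ f * s2 = φ g * s1) : Sol (PH f g) φ r1 r2 s1 s2 := by
  constructor
  · simp only [PH, map_one, map_zero]; linear_combination h1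
  · simp only [PH, map_neg]; linear_combination h2

/-- value of a lift at a point -/
theorem lf_val {C : Type} [CommRing C] (P : Pm B) (φ : B →+* C) (x0 x1 x2 x3 : C)
    (h : Sol P φ x0 x1 x2 x3) (t : MvPolynomial (Fin 4) B) :
    lf P φ x0 x1 x2 x3 h (mkU P t) = MvPolynomial.eval₂ φ ![x0, x1, x2, x3] t := lf_mk _ _ _ _ _ _ _ _

theorem eval₂_curve {F : Type} [CommRing F] (φ : B →+* F) (ξ : F) (c : Fin 4 → B[X])
    (t : MvPolynomial (Fin 4) B) :
    (MvPolynomial.eval₂ (Polynomial.C : B →+* B[X]) c t).eval₂ φ ξ =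
      MvPolynomial.eval₂ φ (fun i => (c i).eval₂ φ ξ) t := by
  have : ((Polynomial.eval₂RingHom φ ξ).comp (MvPolynomial.eval₂Hom Polynomial.C c)) =
      MvPolynomial.eval₂Hom φ (fun i => (c i).eval₂ φ ξ) := by
    apply MvPolynomial.ringHom_ext
    · intro a; simp
    · intro i; simp
  have h2 := RingHom.congr_fun this t
  simpa only [RingHom.comp_apply, MvPolynomial.coe_eval₂Hom, Polynomial.coe_eval₂RingHom] using h2

theorem eval_reflect {F : Type} [Field F] (φ : B →+* F) {ξ : F} (hξ : ξ ≠ 0) (N : ℕ) (f : B[X])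
    (hf : f.natDegree ≤ N) : (reflect N f).eval₂ φ ξ = ξ ^ N * f.eval₂ φ ξ⁻¹ := by
  let _ : Invertible (ξ⁻¹) := invertibleOfNonzero (inv_ne_zero hξ)
  have h := eval₂_reflect_mul_pow φ ξ⁻¹ N f hf
  have h2 : (⅟(ξ⁻¹) : F) = ξ := by rw [invOf_eq_inv, inv_inv]
  rw [h2] at h
  rw [← h, mul_comm, mul_assoc, ← mul_pow, inv_mul_cancel₀ hξ, one_pow, mul_one]

/-- descent for the Hermite problem -/
theorem desc_PH (p : ℕ) [Fact p.Prime] [CharP B p] (f g : B) : Desc (PH f g) := by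
  intro w hw
  obtain ⟨t, rfl⟩ : ∃ t, mkU (PH f g) t = w := Ideal.Quotient.mk_surjective w
  -- the two charts
  set P₁ : B[X] := MvPolynomial.eval₂ (Polynomial.C : B →+* B[X]) ![1, 0, 1, X] t with hP₁
  set Q₁ : B[X] := MvPolynomial.eval₂ (Polynomial.C : B →+* B[X]) ![0, 1, X, 1] t with hQ₁
  have pt1 : ∀ (F : Type) [Field F] (φ : B →+* F) (ξ : F), φ f * ξ = φ g →
      ∃ x : U (PH f g) →+* F, x.comp (io _) = φ ∧ x (mkU (PH f g) t) = P₁.eval₂ φ ξ := by
    intro F _ φ ξ h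
    have hs : Sol (PH f g) φ 1 0 1 ξ := solPH φ _ _ _ _ (by ring) (by rw [h]; ring)
    refine ⟨lf _ φ _ _ _ _ hs, lf_comp_io _ _ _ _ _ _ _, ?_⟩
    rw [lf_val, hP₁, eval₂_curve]
    congr 1
    ext i; fin_cases i <;> simp
  have pt2 : ∀ (F : Type) [Field F] (φ : B →+* F) (η : F), φ f = φ g * η →
      ∃ x : U (PH f g) →+* F, x.comp (io _) = φ ∧ x (mkU (PH f g) t) = Q₁.eval₂ φ η := by
    intro F _ φ η h
    have hs : Sol (PH f g) φ 0 1 η 1 := solPH φ _ _ _ _ (by ring) (by rw [← h]; ring)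
    refine ⟨lf _ φ _ _ _ _ hs, lf_comp_io _ _ _ _ _ _ _, ?_⟩
    rw [lf_val, hQ₁, eval₂_curve]
    congr 1
    ext i; fin_cases i <;> simp
  set m := Q₁.natDegree with hm
  set D : B[X] := X * (X ^ m * P₁ - reflect m Q₁) with hD
  set ℓ : B[X] := C f * X - C g with hℓ
  -- D is nilpotent modulo ℓ
  have hnil : IsNilpotent (Ideal.Quotient.mk (Ideal.span {ℓ}) D) := by
    refine nilp_of_points _ (fun F _ φ' => ?_)
    set φ : B →+* F := (φ'.comp (Ideal.Quotient.mk _)).comp C with hφ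
    set ξ : F := φ' (Ideal.Quotient.mk _ X) with hξ
    have hev : ∀ q : B[X], φ' (Ideal.Quotient.mk _ q) = q.eval₂ φ ξ := by
      intro q
      have : (φ'.comp (Ideal.Quotient.mk (Ideal.span {ℓ}))) = Polynomial.eval₂RingHom φ ξ := by
        apply Polynomial.ringHom_ext
        · intro a; simp [hφ]
        · simp [hξ]
      exact congrArg (fun f => f q) this
    have h0 : φ f * ξ = φ g := by
      have : φ' (Ideal.Quotient.mk _ ℓ) = 0 := by
        rw [Ideal.Quotient.eq_zero_iff_mem.mpr (Ideal.mem_span_singleton_self ℓ), map_zero]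
      rw [hev, hℓ] at this
      simp only [eval₂_sub, eval₂_mul, eval₂_C, eval₂_X] at this
      exact sub_eq_zero.mp this
    rw [hev, hD]
    simp only [eval₂_mul, eval₂_sub, eval₂_X, eval₂_X_pow]
    by_cases hx : ξ = 0
    · rw [hx, zero_mul]
    · rw [eval_reflect φ hx m Q₁ le_rfl]
      obtain ⟨x, hx1, hx2⟩ := pt1 F φ ξ h0
      obtain ⟨y, hy1, hy2⟩ := pt2 F φ ξ⁻¹ (by rw [← h0, mul_assoc, mul_inv_cancel₀ hx, mul_one])
      have := hw F x y (hy1.trans hx1.symm)
      rw [hx2, hy2] at this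
      rw [this]; ring
  obtain ⟨N, hN⟩ := hnil
  have hNp : N ≤ p ^ N := (Nat.lt_pow_self (Fact.out : p.Prime).one_lt).le
  set q := p ^ N with hq
  have hq0 : q ≠ 0 := pow_ne_zero _ (Fact.out : p.Prime).ne_zero
  have hDq : D ^ q ∈ Ideal.span {ℓ} := by
    rw [← Ideal.Quotient.eq_zero_iff_mem, map_pow]
    exact pow_eq_zero_of_le hNp hN
  obtain ⟨L, hL⟩ := Ideal.mem_span_singleton.mp hDq
  -- D ^ q = ℓ * L
  have hDq' : D ^ q = X ^ q * (X ^ (m * q) * P₁ ^ q - (reflect m Q₁) ^ q) := by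
    rw [hD, mul_pow, hq, sub_pow_char_pow, ← hq, mul_pow, ← pow_mul]
  set M := m * q + q with hM
  have hmon : (X ^ M : B[X]).Monic := monic_X_pow M
  set L₁ := L %ₘ (X ^ M) with hL₁
  set L₂ := L /ₘ (X ^ M) with hL₂
  have hLL : L₁ + X ^ M * L₂ = L := modByMonic_add_div L (X ^ M)
  set G := P₁ ^ q - ℓ * L₂ with hG
  set H := X ^ q * (reflect m Q₁) ^ q + ℓ * L₁ with hH
  have hGH : X ^ M * G = H := by
    have h1 : X ^ M * P₁ ^ q - X ^ q * (reflect m Q₁) ^ q = ℓ * L := by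
      rw [← hL, hDq', hM, pow_add]; ring
    rw [hG, hH]
    linear_combination h1 - ℓ * hLL
  have hBn : Nontrivial B := CharP.nontrivial_of_char_ne_one (R := B) (v := p)
    (Fact.out : p.Prime).one_lt.ne'
  have hL₁deg : L₁.natDegree < M ∨ L₁ = 0 := by
    have h := degree_modByMonic_lt L hmon
    rw [degree_X_pow] at h
    by_cases h0 : L₁ = 0
    · exact Or.inr h0
    · left
      exact (natDegree_lt_iff_degree_lt h0).mpr h
  have hrefl : (reflect m Q₁).natDegree ≤ m := by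
    refine natDegree_reflect_le.trans ?_
    simp [hm]
  have hℓdeg : ℓ.natDegree ≤ 1 := by
    rw [hℓ]; compute_degree
  have hHdeg : H.natDegree ≤ M := by
    rw [hH]
    refine (natDegree_add_le _ _).trans (max_le ?_ ?_)
    · refine natDegree_mul_le.trans ?_
      rw [natDegree_X_pow, hM, add_comm q, mul_comm m]
      gcongr
      exact natDegree_pow_le_of_le q hrefl
    · rcases hL₁deg with h | h
      · refine natDegree_mul_le.trans ?_
        omega
      · rw [h, mul_zero, natDegree_zero]; omega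
  have hGc : ∀ i, i ≠ 0 → G.coeff i = 0 := by
    intro i hi
    have h1 : (X ^ M * G).coeff (i + M) = G.coeff i := coeff_X_pow_mul G M i
    rw [← h1, hGH]
    exact coeff_eq_zero_of_natDegree_lt (by omega)
  have hGC : G = C (G.coeff 0) := by
    ext i
    rw [coeff_C]
    split_ifs with h
    · rw [h]
    · exact hGc i h
  have hG0 : ∃ l, G.coeff 0 = (Q₁.coeff 0) ^ q + f * l := by
    have h1 : (X ^ M * G).coeff (0 + M) = G.coeff 0 := coeff_X_pow_mul G M 0
    rw [← h1, hGH, zero_add, hH, coeff_add]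
    have e1 : (X ^ q * reflect m Q₁ ^ q).coeff M = (Q₁.coeff 0) ^ q := by
      rw [hM, coeff_X_pow_mul, mul_comm m q, coeff_pow_of_natDegree_le hrefl, coeff_reflect,
        revAt_le le_rfl, Nat.sub_self]
    rw [e1]
    rcases hL₁deg with h | h
    · refine ⟨L₁.coeff (M - 1), ?_⟩
      congr 1
      rw [hℓ, sub_mul, coeff_sub, mul_assoc, coeff_C_mul, coeff_C_mul,
        coeff_eq_zero_of_natDegree_lt h, mul_zero, sub_zero]
      have : M = (M - 1) + 1 := by omega
      conv_lhs => rw [this, coeff_X_mul]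
    · exact ⟨0, by rw [h]; simp⟩
  refine ⟨q, hq0, G.coeff 0, fun F _ φ => ?_⟩
  by_cases hf : φ f = 0
  · obtain ⟨y, hy1, hy2⟩ := pt2 F φ 0 (by rw [hf, mul_zero])
    refine ⟨y, hy1, ?_⟩
    obtain ⟨l, hl⟩ := hG0
    rw [hy2, hl, map_add, map_mul, hf, zero_mul, add_zero, map_pow]
    congr 1
    simp [eval₂_at_zero]
  · obtain ⟨x, hx1, hx2⟩ := pt1 F φ (φ g / φ f) (by field_simp)
    refine ⟨x, hx1, ?_⟩
    rw [hx2]
    have : G.eval₂ φ (φ g / φ f) = φ (G.coeff 0) := by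
      conv_lhs => rw [hGC]
      simp
    rw [← this, hG, eval₂_sub, eval₂_pow, eval₂_mul]
    have h0 : ℓ.eval₂ φ (φ g / φ f) = 0 := by
      rw [hℓ]; simp; field_simp; ring
    rw [h0, zero_mul, sub_zero]

end

end Pool.Agent.H407.Edr
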