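import Pool.Agent.H407.Edr.Uni

set_option autoImplicit false

namespace Pool.Agent.H407.Edr

open LaurentPolynomial

noncomputable section

variable {B : Type} [CommRing B]

example (F : Type) [Field F] : IsDomain F[T;T⁻¹] := inferInstance

/-- coefficientwise map of Laurent polynomials -/
def mpL {A D : Type} [CommRing A] [CommRing D] (x : A →+* D) : A[T;T⁻¹] →+* D[T;T⁻¹] :=
  AddMonoidAlgebra.mapRingHom ℤ x

theorem mpL_coeff {A D : Type} [CommRing A] [CommRing D] (x : A →+* D) (t : A[T;T⁻¹]) (n : ℤ) :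
    (mpL x t).coeff n = x (t.coeff n) := AddMonoidAlgebra.coeff_mapRingHom x t n

theorem mpL_C {A D : Type} [CommRing A] [CommRing D] (x : A →+* D) (t : A) :
    mpL x (C t) = C (x t) := by
  ext n
  rw [mpL_coeff]
  simp only [← single_eq_C]
  by_cases h : n = 0
  · subst h; simp
  · simp [h]

theorem mpL_T {A D : Type} [CommRing A] [CommRing D] (x : A →+* D) (m : ℤ) :
    mpL x (T m) = T m := by
  ext n
  rw [mpL_coeff]
  simp only [T]
  by_cases h : n = m
  · subst h; simp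
  · simp [Ne.symm h]

/-- units of Laurent polynomial rings over fields -/
theorem unitL {F : Type} [Field F] (u : F[T;T⁻¹]) (hu : IsUnit u) :
    ∃ (c : F) (n : ℤ), c ≠ 0 ∧ u = C c * T n := by
  obtain ⟨u', hu'⟩ := hu.exists_right_inv
  obtain ⟨n, f, hf⟩ := exists_T_pow u
  obtain ⟨m, g, hg⟩ := exists_T_pow u'
  have hfg : f * g = Polynomial.X ^ (n + m) := by
    apply Polynomial.toLaurent_injective
    rw [map_mul, hf, hg, Polynomial.toLaurent_X_pow]
    push_cast
    rw [T_add]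
    linear_combination (T (n:ℤ) * T (m:ℤ)) * hu'
  have hdvd : f ∣ Polynomial.X ^ (n + m) := ⟨g, hfg.symm⟩
  obtain ⟨i, hi, hass⟩ := (dvd_prime_pow Polynomial.prime_X _).mp hdvd
  obtain ⟨v, hv⟩ := hass.symm
  obtain ⟨r, hr, hrv⟩ := Polynomial.isUnit_iff.mp v.isUnit
  refine ⟨r, i - n, hr.ne_zero, ?_⟩
  have h1 : u * T n = C r * T i := by
    rw [← hf, ← hv, ← hrv, map_mul, Polynomial.toLaurent_X_pow, Polynomial.toLaurent_C, mul_comm]
  calc u = u * T n * T (-n) := by rw [mul_T_assoc]; simp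
    _ = C r * T i * T (-n) := by rw [h1]
    _ = C r * T (i - n) := by rw [mul_T_assoc]; congr 1

/-- the point `x` moved by the generic torus element -/
def xL {P : Pm B} {F : Type} [CommRing F] (x : U P →+* F) : U P →+* F[T;T⁻¹] :=
  (mpL x).comp (al P)

section
variable {P : Pm B} {F : Type} [CommRing F] (x : U P →+* F)

theorem xL_io (t : B) : xL x (io P t) = C (x (io P t)) := by
  rw [xL, RingHom.comp_apply, al, lf_io, RingHom.comp_apply, mpL_C]
theorem xL_0 : xL x (ge P 0) = C (x (ge P 0)) * T 1 := by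
  rw [xL, RingHom.comp_apply, al, lf_0, map_mul, mpL_C, mpL_T]
theorem xL_1 : xL x (ge P 1) = C (x (ge P 1)) * T 1 := by
  rw [xL, RingHom.comp_apply, al, lf_1, map_mul, mpL_C, mpL_T]
theorem xL_2 : xL x (ge P 2) = C (x (ge P 2)) * T (-1) := by
  rw [xL, RingHom.comp_apply, al, lf_2, map_mul, mpL_C, mpL_T]
theorem xL_3 : xL x (ge P 3) = C (x (ge P 3)) * T (-1) := by
  rw [xL, RingHom.comp_apply, al, lf_3, map_mul, mpL_C, mpL_T]

theorem ev_xL (κ : Fˣ) (y : U P →+* F) (hio : y.comp (io P) = x.comp (io P))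
    (h0 : y (ge P 0) = κ * x (ge P 0)) (h1 : y (ge P 1) = κ * x (ge P 1))
    (h2 : y (ge P 2) = (κ⁻¹ : Fˣ) * x (ge P 2)) (h3 : y (ge P 3) = (κ⁻¹ : Fˣ) * x (ge P 3)) :
    (LaurentPolynomial.eval₂ (RingHom.id F) κ).comp (xL x) = y := by
  apply U_ext
  · ext t
    have := congrArg (fun f => f t) hio
    simp only [RingHom.comp_apply] at this
    simp only [RingHom.comp_apply, xL_io, this]
    simp
  · rw [RingHom.comp_apply, xL_0, h0, eval₂_C_mul_T]; simp [mul_comm]
  · rw [RingHom.comp_apply, xL_1, h1, eval₂_C_mul_T]; simp [mul_comm]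
  · rw [RingHom.comp_apply, xL_2, h2, eval₂_C_mul_T]; simp [mul_comm]
  · rw [RingHom.comp_apply, xL_3, h3, eval₂_C_mul_T]; simp [mul_comm]

theorem ev1_xL (t : U P) : LaurentPolynomial.eval₂ (RingHom.id F) 1 (xL x t) = x t := by
  have := ev_xL x 1 x rfl (by simp) (by simp) (by simp) (by simp)
  exact congrArg (fun f => f t) this

/-- additive move of `r` -/
structure Mv1 (μ : F) (y : U P →+* F) : Prop where
  io : y.comp (io P) = x.comp (Edr.io P)
  h0 : y (ge P 0) = x (ge P 0) - μ * (x (Edr.io P P.c) * x (ge P 2) + x (Edr.io P P.d) * x (ge P 3))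
  h1 : y (ge P 1) = x (ge P 1) + μ * (x (Edr.io P P.a) * x (ge P 2) + x (Edr.io P P.b) * x (ge P 3))
  h2 : y (ge P 2) = x (ge P 2)
  h3 : y (ge P 3) = x (ge P 3)

/-- additive move of `s` -/
structure Mv2 (μ : F) (y : U P →+* F) : Prop where
  io : y.comp (io P) = x.comp (Edr.io P)
  u0 : x (Edr.io P P.u) = 0
  w0 : x (Edr.io P P.w) = 0
  h0 : y (ge P 0) = x (ge P 0)
  h1 : y (ge P 1) = x (ge P 1)
  h2 : y (ge P 2) = x (ge P 2) - μ * (x (ge P 0) * x (Edr.io P P.b) + x (ge P 1) * x (Edr.io P P.d))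
  h3 : y (ge P 3) = x (ge P 3) + μ * (x (ge P 0) * x (Edr.io P P.a) + x (ge P 1) * x (Edr.io P P.c))

variable {x}

theorem Mv1.val [IsDomain F] {μ : F} {y : U P →+* F} (m : Mv1 x μ y) (ψ : U P) (hψ : IsUnit ψ) :
    y ψ = x ψ := by
  have hs := sol_pt x
  let z : U P →+* Polynomial F := lf P (Polynomial.C.comp (x.comp (Edr.io P)))
    (Polynomial.C (x (ge P 0)) - Polynomial.X *
      Polynomial.C (x (Edr.io P P.c) * x (ge P 2) + x (Edr.io P P.d) * x (ge P 3)))
    (Polynomial.C (x (ge P 1)) + Polynomial.X *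
      Polynomial.C (x (Edr.io P P.a) * x (ge P 2) + x (Edr.io P P.b) * x (ge P 3)))
    (Polynomial.C (x (ge P 2))) (Polynomial.C (x (ge P 3))) (by
      constructor
      · have h := congrArg (Polynomial.C : F →+* Polynomial F) hs.1
        simp only [map_add, map_mul, map_one, RingHom.comp_apply] at h ⊢
        linear_combination h
      · have h := congrArg (Polynomial.C : F →+* Polynomial F) hs.2
        simp only [map_add, map_mul, map_zero, RingHom.comp_apply] at h ⊢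
        exact h)
  obtain ⟨r, -, hr⟩ := Polynomial.isUnit_iff.mp (hψ.map z)
  have e1 : (Polynomial.evalRingHom μ).comp z = y := by
    apply U_ext
    · ext t
      have := congrArg (fun f => f t) m.io
      simp only [RingHom.comp_apply] at this
      simp only [RingHom.comp_apply, z, lf_io, this]
      simp
    · rw [RingHom.comp_apply, lf_0, m.h0]; simp
    · rw [RingHom.comp_apply, lf_1, m.h1]; simp
    · rw [RingHom.comp_apply, lf_2, m.h2]; simp
    · rw [RingHom.comp_apply, lf_3, m.h3]; simp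
  have e0 : (Polynomial.evalRingHom 0).comp z = x := by
    apply U_ext
    · ext t
      simp only [RingHom.comp_apply, z, lf_io]
      simp
    · rw [RingHom.comp_apply, lf_0]; simp
    · rw [RingHom.comp_apply, lf_1]; simp
    · rw [RingHom.comp_apply, lf_2]; simp
    · rw [RingHom.comp_apply, lf_3]; simp
  rw [← e1]
  conv_rhs => rw [← e0]
  rw [RingHom.comp_apply, RingHom.comp_apply, ← hr]
  simp

theorem Mv2.val [IsDomain F] {μ : F} {y : U P →+* F} (m : Mv2 x μ y) (ψ : U P) (hψ : IsUnit ψ) :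
    y ψ = x ψ := by
  have hs := sol_pt x
  let z : U P →+* Polynomial F := lf P (Polynomial.C.comp (x.comp (Edr.io P)))
    (Polynomial.C (x (ge P 0))) (Polynomial.C (x (ge P 1)))
    (Polynomial.C (x (ge P 2)) - Polynomial.X *
      Polynomial.C (x (ge P 0) * x (Edr.io P P.b) + x (ge P 1) * x (Edr.io P P.d)))
    (Polynomial.C (x (ge P 3)) + Polynomial.X *
      Polynomial.C (x (ge P 0) * x (Edr.io P P.a) + x (ge P 1) * x (Edr.io P P.c))) (by
      constructor
      · have h := congrArg (Polynomial.C : F →+* Polynomial F) hs.1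
        simp only [map_add, map_mul, map_one, RingHom.comp_apply] at h ⊢
        linear_combination h
      · simp only [RingHom.comp_apply, m.u0, m.w0]
        simp)
  obtain ⟨r, -, hr⟩ := Polynomial.isUnit_iff.mp (hψ.map z)
  have e1 : (Polynomial.evalRingHom μ).comp z = y := by
    apply U_ext
    · ext t
      have := congrArg (fun f => f t) m.io
      simp only [RingHom.comp_apply] at this
      simp only [RingHom.comp_apply, z, lf_io, this]
      simp
    · rw [RingHom.comp_apply, lf_0, m.h0]; simp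
    · rw [RingHom.comp_apply, lf_1, m.h1]; simp
    · rw [RingHom.comp_apply, lf_2, m.h2]; simp
    · rw [RingHom.comp_apply, lf_3, m.h3]; simp
  have e0 : (Polynomial.evalRingHom 0).comp z = x := by
    apply U_ext
    · ext t
      simp only [RingHom.comp_apply, z, lf_io]
      simp
    · rw [RingHom.comp_apply, lf_0]; simp
    · rw [RingHom.comp_apply, lf_1]; simp
    · rw [RingHom.comp_apply, lf_2]; simp
    · rw [RingHom.comp_apply, lf_3]; simp
  rw [← e1]
  conv_rhs => rw [← e0]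
  rw [RingHom.comp_apply, RingHom.comp_apply, ← hr]
  simp

theorem Mv1.toL {μ : F} {y : U P →+* F} (m : Mv1 x μ y) : Mv1 (xL x) (C μ * T 2) (xL y) := by
  have hio : ∀ t, y (Edr.io P t) = x (Edr.io P t) := fun t => congrArg (fun f => f t) m.io
  have hT1 : (T 2 : F[T;T⁻¹]) * T (-1) = T 1 := by rw [← T_add]; rfl
  refine ⟨?_, ?_, ?_, ?_, ?_⟩
  · ext1 t
    simp only [RingHom.comp_apply, xL_io, hio]
  · rw [xL_0, m.h0, xL_0, xL_io, xL_io, xL_2, xL_3]
    simp only [map_sub, map_mul, map_add]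
    linear_combination ((C μ * (C (x (Edr.io P P.c)) * C (x (ge P 2)) +
      C (x (Edr.io P P.d)) * C (x (ge P 3))))) * hT1
  · rw [xL_1, m.h1, xL_1, xL_io, xL_io, xL_2, xL_3]
    simp only [map_mul, map_add]
    linear_combination ((-(C μ * (C (x (Edr.io P P.a)) * C (x (ge P 2)) +
      C (x (Edr.io P P.b)) * C (x (ge P 3)))))) * hT1
  · rw [xL_2, m.h2, xL_2]
  · rw [xL_3, m.h3, xL_3]

theorem Mv2.toL {μ : F} {y : U P →+* F} (m : Mv2 x μ y) : Mv2 (xL x) (C μ * T (-2)) (xL y) := by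
  have hio : ∀ t, y (Edr.io P t) = x (Edr.io P t) := fun t => congrArg (fun f => f t) m.io
  have hT1 : (T (-2) : F[T;T⁻¹]) * T 1 = T (-1) := by rw [← T_add]; rfl
  refine ⟨?_, ?_, ?_, ?_, ?_, ?_, ?_⟩
  · ext1 t
    simp only [RingHom.comp_apply, xL_io, hio]
  · rw [xL_io, m.u0, map_zero]
  · rw [xL_io, m.w0, map_zero]
  · rw [xL_0, m.h0, xL_0]
  · rw [xL_1, m.h1, xL_1]
  · rw [xL_2, m.h2, xL_2, xL_io, xL_io, xL_0, xL_1]
    simp only [map_sub, map_mul, map_add]
    linear_combination ((C μ * (C (x (ge P 0)) * C (x (Edr.io P P.b)) +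
      C (x (ge P 1)) * C (x (Edr.io P P.d))))) * hT1
  · rw [xL_3, m.h3, xL_3, xL_io, xL_io, xL_0, xL_1]
    simp only [map_mul, map_add]
    linear_combination ((-(C μ * (C (x (ge P 0)) * C (x (Edr.io P P.a)) +
      C (x (ge P 1)) * C (x (Edr.io P P.c)))))) * hT1

/-- two points have the same degree, and the same value in degree zero -/
def RR {F : Type} [Field F] (ψ : U P) (x y : U P →+* F) : Prop :=
  ∃ n : ℤ, xL x ψ = C (x ψ) * T n ∧ xL y ψ = C (y ψ) * T n ∧ (n = 0 → x ψ = y ψ)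

section RR
variable {F : Type} [Field F] {ψ : U P} {x y z : U P →+* F}

theorem exists_deg (hψ : IsUnit ψ) (x : U P →+* F) : ∃ n : ℤ, xL x ψ = C (x ψ) * T n := by
  obtain ⟨c, n, hc, h⟩ := unitL (xL x ψ) (hψ.map (xL x))
  have h1 := ev1_xL x ψ
  rw [h, eval₂_C_mul_T] at h1
  refine ⟨n, ?_⟩
  have : c = x ψ := by simpa using h1
  rw [← this, h]

theorem coeff_CT (c : F) (m n : ℤ) :
    (C c * T m : F[T;T⁻¹]).coeff n = if m = n then c else 0 := by
  rw [← single_eq_C_mul_T, AddMonoidAlgebra.coeff_single, Finsupp.single_apply]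

theorem deg_unique {c c' : F} (hc : c ≠ 0) {n m : ℤ} (h : (C c * T n : F[T;T⁻¹]) = C c' * T m) :
    n = m ∧ c = c' := by
  have h1 := congrArg (fun t : F[T;T⁻¹] => t.coeff n) h
  simp only [coeff_CT, if_true] at h1
  by_cases hnm : m = n
  · subst hnm
    exact ⟨rfl, by simpa using h1⟩
  · rw [if_neg hnm] at h1
    exact absurd h1 hc

theorem RR_refl (hψ : IsUnit ψ) (x : U P →+* F) : RR ψ x x := by
  obtain ⟨n, hn⟩ := exists_deg hψ x
  exact ⟨n, hn, hn, fun _ => rfl⟩

theorem RR_symm (h : RR ψ x y) : RR ψ y x := by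
  obtain ⟨n, h1, h2, h3⟩ := h
  exact ⟨n, h2, h1, fun hn => (h3 hn).symm⟩

theorem RR_trans (hψ : IsUnit ψ) (h : RR ψ x y) (h' : RR ψ y z) : RR ψ x z := by
  obtain ⟨n, h1, h2, h3⟩ := h
  obtain ⟨m, h4, h5, h6⟩ := h'
  obtain ⟨hnm, -⟩ := deg_unique ((hψ.map y).ne_zero) (h2.symm.trans h4)
  subst hnm
  exact ⟨n, h1, h5, fun hn => (h3 hn).trans (h6 hn)⟩

theorem RR_torus (hψ : IsUnit ψ) (κ : F) (hκ : κ ≠ 0) (hio : y.comp (io P) = x.comp (io P))
    (h0 : y (ge P 0) = κ * x (ge P 0)) (h1 : y (ge P 1) = κ * x (ge P 1))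
    (h2 : y (ge P 2) = κ⁻¹ * x (ge P 2)) (h3 : y (ge P 3) = κ⁻¹ * x (ge P 3)) : RR ψ x y := by
  obtain ⟨n, hn⟩ := exists_deg hψ x
  obtain ⟨m, hm⟩ := exists_deg hψ y
  have hev := congrArg (fun f => f ψ) (ev_xL x (Units.mk0 κ hκ) y hio (by simpa using h0)
    (by simpa using h1) (by simpa using h2) (by simpa using h3))
  simp only [RingHom.comp_apply, hn, eval₂_C_mul_T] at hev
  -- hev : x ψ * κ ^ n = y ψ
  -- the same for the Laurent points
  have hT : IsUnit (C κ : F[T;T⁻¹]) := (IsUnit.mk0 κ hκ).map C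
  have hio' : (xL y).comp (io P) = (xL x).comp (io P) := by
    ext1 t
    have := congrArg (fun f => f t) hio
    simp only [RingHom.comp_apply] at this
    simp only [RingHom.comp_apply, xL_io, this]
  let κ' : (F[T;T⁻¹])ˣ := ⟨C κ * T 1, C κ⁻¹ * T (-1), by
    rw [mul_mul_mul_comm, ← map_mul, mul_inv_cancel₀ hκ, ← T_add]; simp, by
    rw [mul_mul_mul_comm, ← map_mul, inv_mul_cancel₀ hκ, ← T_add]; simp⟩
  have hcomp : (LaurentPolynomial.eval₂ (C : F →+* F[T;T⁻¹]) κ').comp (xL x) = xL y := by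
    apply U_ext
    · ext1 t
      have := congrArg (fun f => f t) hio
      simp only [RingHom.comp_apply] at this
      simp only [RingHom.comp_apply, xL_io, this, eval₂_C]
    · rw [RingHom.comp_apply, xL_0, eval₂_C_mul_T, xL_0, h0, map_mul]
      simp [κ']; ring
    · rw [RingHom.comp_apply, xL_1, eval₂_C_mul_T, xL_1, h1, map_mul]
      simp [κ']; ring
    · rw [RingHom.comp_apply, xL_2, eval₂_C_mul_T, xL_2, h2, map_mul]
      simp [κ']; ring
    · rw [RingHom.comp_apply, xL_3, eval₂_C_mul_T, xL_3, h3, map_mul]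
      simp [κ']; ring
  have hpow : ∀ j : ℤ, ((κ' ^ j : (F[T;T⁻¹])ˣ) : F[T;T⁻¹]) = C (κ ^ j) * T j := by
    intro j
    obtain ⟨i, rfl | rfl⟩ := j.eq_nat_or_neg
    · rw [zpow_natCast, Units.val_pow_eq_pow_val, zpow_natCast]
      simp only [κ']
      rw [mul_pow, ← map_pow, T_pow]; simp
    · rw [zpow_neg, zpow_natCast, ← inv_pow, Units.val_pow_eq_pow_val, zpow_neg, zpow_natCast]
      have : ((κ'⁻¹ : (F[T;T⁻¹])ˣ) : F[T;T⁻¹]) = C κ⁻¹ * T (-1) := rfl
      rw [this, mul_pow, ← map_pow, T_pow, inv_pow]; simp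
  have h5 := congrArg (fun f => f ψ) hcomp
  simp only [RingHom.comp_apply, hn, eval₂_C_mul_T, hpow, hm] at h5
  rw [← mul_assoc, ← map_mul] at h5
  have hx0 : x ψ * κ ^ n ≠ 0 := mul_ne_zero ((hψ.map x).ne_zero) (zpow_ne_zero _ hκ)
  obtain ⟨hnm, hval⟩ := deg_unique hx0 h5
  subst hnm
  refine ⟨n, hn, hm, fun h => ?_⟩
  subst h
  rw [← hval]; simp

theorem RR_mv1 (hψ : IsUnit ψ) {μ : F} (m : Mv1 x μ y) : RR ψ x y := by
  obtain ⟨n, hn⟩ := exists_deg hψ x
  have h := m.toL.val ψ hψ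
  have h' := m.val ψ hψ
  exact ⟨n, hn, by rw [h, hn, h'], fun _ => h'.symm⟩

theorem RR_mv2 (hψ : IsUnit ψ) {μ : F} (m : Mv2 x μ y) : RR ψ x y := by
  obtain ⟨n, hn⟩ := exists_deg hψ x
  have h := m.toL.val ψ hψ
  have h' := m.val ψ hψ
  exact ⟨n, hn, by rw [h, hn, h'], fun _ => h'.symm⟩

end RR

end

end

end Pool.Agent.H407.Edr
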