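import Pool.Agent.H407.Edr.Fib
import Pool.Agent.H407.Edr.Fld

set_option autoImplicit false

namespace Pool.Agent.H407.Edr

open LaurentPolynomial

noncomputable section

theorem isUnit_of_points {A : Type} [CommRing A] (b : A)
    (h : ∀ (F : Type) [Field F] (φ : A →+* F), φ b ≠ 0) : IsUnit b := by
  by_contra hb
  obtain ⟨M, hM, hbM⟩ := exists_max_ideal_of_mem_nonunits hb
  let _ := Ideal.Quotient.field M
  exact h (A ⧸ M) (Ideal.Quotient.mk M) (Ideal.Quotient.eq_zero_iff_mem.mpr hbM)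

theorem nilp_of_points {A : Type} [CommRing A] (b : A)
    (h : ∀ (F : Type) [Field F] (φ : A →+* F), φ b = 0) : IsNilpotent b := by
  rw [nilpotent_iff_mem_prime]
  intro J hJ
  have := h (FractionRing (A ⧸ J)) ((algebraMap (A ⧸ J) (FractionRing (A ⧸ J))).comp
    (Ideal.Quotient.mk J))
  rw [RingHom.comp_apply] at this
  have h2 := (IsFractionRing.injective (A ⧸ J) (FractionRing (A ⧸ J))) (this.trans (map_zero _).symm)
  exact Ideal.Quotient.eq_zero_iff_mem.mp h2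

variable {p : ℕ} {k : Type} [Field k] (V : ValData p k)
variable {B : Type} [CommRing B] {P : Pm B}

/-- the invariant: units take values of the same valuation at the two points -/
def Inv {A : Type} [CommRing A] (t₁ t₂ : A →+* k) : Prop :=
  ∀ ψ : A, IsUnit ψ → V.v (t₁ ψ) = V.v (t₂ ψ)

/-- functions which are constant along the fibres descend (up to a power) -/
def Desc (P : Pm B) : Prop := ∀ w : U P,
  (∀ (F : Type) [Field F] (x y : U P →+* F), y.comp (io P) = x.comp (io P) → y w = x w) →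
  ∃ q : ℕ, q ≠ 0 ∧ ∃ b₀ : B, ∀ (F : Type) [Field F] (φ : B →+* F),
    ∃ x : U P →+* F, x.comp (io P) = φ ∧ φ b₀ = (x w) ^ q

theorem desc_unit {t₁ t₂ : B →+* k} (hI : Inv V t₁ t₂) (hD : Desc P) (w : U P) (hw : IsUnit w)
    (hf : ∀ (F : Type) [Field F] (x y : U P →+* F), y.comp (io P) = x.comp (io P) → y w = x w)
    (s₁ s₂ : U P →+* k) (h₁ : s₁.comp (io P) = t₁) (h₂ : s₂.comp (io P) = t₂) :
    V.v (s₁ w) = V.v (s₂ w) := by
  obtain ⟨q, hq, b₀, hb⟩ := hD w hf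
  have hu : IsUnit b₀ := by
    refine isUnit_of_points _ (fun F _ φ => ?_)
    obtain ⟨x, -, hx⟩ := hb F φ
    rw [hx]
    exact pow_ne_zero _ (hw.map x).ne_zero
  have h := hI b₀ hu
  obtain ⟨x, hx, hx'⟩ := hb k t₁
  obtain ⟨y, hy, hy'⟩ := hb k t₂
  rw [hx', hy', hf k s₁ x (hx.trans h₁.symm), hf k s₂ y (hy.trans h₂.symm),
    V.v_pow (hw.map s₁).ne_zero, V.v_pow (hw.map s₂).ne_zero] at h
  have hq' : (q : ℚ) ≠ 0 := by exact_mod_cast hq
  exact mul_left_cancel₀ hq' h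

/-- degree at a point -/
def Dg {F : Type} [Field F] (x : U P →+* F) (ψ : (U P)ˣ) (n : ℤ) : Prop :=
  xL x (ψ : U P) = C (x ψ) * T n

section Dg
variable {F : Type} [Field F] {x : U P →+* F}

theorem Dg_one : Dg x 1 0 := by simp [Dg]

theorem Dg_mul {ψ χ : (U P)ˣ} {n m : ℤ} (h : Dg x ψ n) (h' : Dg x χ m) :
    Dg x (ψ * χ) (n + m) := by
  unfold Dg at *
  rw [Units.val_mul, map_mul, h, h', map_mul, map_mul, T_add]; ring

theorem Dg_inv {ψ : (U P)ˣ} {n : ℤ} (h : Dg x ψ n) : Dg x ψ⁻¹ (-n) := by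
  unfold Dg at *
  have h1 : xL x (ψ : U P) * xL x ((ψ⁻¹ : (U P)ˣ) : U P) = 1 := by
    rw [← map_mul]; simp
  have h2 : x (ψ : U P) * x ((ψ⁻¹ : (U P)ˣ) : U P) = 1 := by
    rw [← map_mul]; simp
  have hT : (T n : F[T;T⁻¹]) * T (-n) = 1 := by rw [← T_add]; simp
  have hC : (C (x (ψ : U P)) : F[T;T⁻¹]) * C (x ((ψ⁻¹ : (U P)ˣ) : U P)) = 1 := by
    rw [← map_mul, h2, map_one]
  rw [h] at h1
  calc xL x ((ψ⁻¹ : (U P)ˣ) : U P)
      = (C (x (ψ : U P)) * C (x ((ψ⁻¹ : (U P)ˣ) : U P))) * (T n * T (-n)) *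
          xL x ((ψ⁻¹ : (U P)ˣ) : U P) := by rw [hT, hC]; ring
    _ = C (x ((ψ⁻¹ : (U P)ˣ) : U P)) * T (-n) *
          (C (x (ψ : U P)) * T n * xL x ((ψ⁻¹ : (U P)ˣ) : U P)) := by ring
    _ = _ := by rw [h1, mul_one]

theorem Dg_npow {ψ : (U P)ˣ} {n : ℤ} (h : Dg x ψ n) (j : ℕ) : Dg x (ψ ^ j) (j * n) := by
  induction j with
  | zero => simpa using Dg_one
  | succ j ih =>
    rw [pow_succ]
    have := Dg_mul ih h
    have e : ((j + 1 : ℕ) : ℤ) * n = j * n + n := by push_cast; ring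
    rw [e]; exact this

theorem Dg_zpow {ψ : (U P)ˣ} {n : ℤ} (h : Dg x ψ n) (j : ℤ) : Dg x (ψ ^ j) (j * n) := by
  obtain ⟨i, rfl | rfl⟩ := j.eq_nat_or_neg
  · rw [zpow_natCast]; exact Dg_npow h i
  · rw [zpow_neg, zpow_natCast, neg_mul]; exact Dg_inv (Dg_npow h i)

theorem exists_Dg (x : U P →+* F) (ψ : (U P)ˣ) : ∃ n, Dg x ψ n := exists_deg ψ.isUnit x

theorem Dg_unique {ψ : (U P)ˣ} {n m : ℤ} (h : Dg x ψ n) (h' : Dg x ψ m) : n = m :=
  (deg_unique (ψ.isUnit.map x).ne_zero (h.symm.trans h')).1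

theorem Dg_fib {y : U P →+* F} (hio : y.comp (io P) = x.comp (io P)) {ψ : (U P)ˣ} {n : ℤ}
    (h : Dg x ψ n) : Dg y ψ n ∧ (n = 0 → y ψ = x ψ) := by
  obtain ⟨m, h1, h2, h3⟩ := RR_fib ψ.isUnit x y hio
  have : n = m := Dg_unique h h1
  subst this
  exact ⟨h2, fun hn => (h3 hn).symm⟩

theorem val_inv (x : U P →+* F) (ψ : (U P)ˣ) :
    x ((ψ⁻¹ : (U P)ˣ) : U P) = (x ψ)⁻¹ := by
  apply eq_inv_of_mul_eq_one_left
  rw [← map_mul]; simp

theorem val_zpow (x : U P →+* F) (ψ : (U P)ˣ) (j : ℤ) :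
    x ((ψ ^ j : (U P)ˣ) : U P) = (x ψ) ^ j := by
  obtain ⟨i, rfl | rfl⟩ := j.eq_nat_or_neg
  · rw [zpow_natCast, zpow_natCast, Units.val_pow_eq_pow_val, map_pow]
  · rw [zpow_neg, zpow_natCast, zpow_neg, zpow_natCast, val_inv, Units.val_pow_eq_pow_val, map_pow]
end Dg

/-- the function which is `1` where the degree of `ψ` is zero and `0` elsewhere -/
def ee (ψ : (U P)ˣ) : U P :=
  (al P (ψ : U P)).coeff 0 * (al P ((ψ⁻¹ : (U P)ˣ) : U P)).coeff 0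

theorem ee_val {F : Type} [Field F] {x : U P →+* F} {ψ : (U P)ˣ} {n : ℤ} (h : Dg x ψ n) :
    x (ee ψ) = if n = 0 then 1 else 0 := by
  have h' := Dg_inv h
  have e1 : x ((al P (ψ : U P)).coeff 0) = if n = 0 then x ψ else 0 := by
    rw [← mpL_coeff]
    have : mpL x (al P (ψ : U P)) = xL x (ψ : U P) := rfl
    rw [this, h, coeff_CT]
  have e2 : x ((al P ((ψ⁻¹ : (U P)ˣ) : U P)).coeff 0) =
      if -n = 0 then x ((ψ⁻¹ : (U P)ˣ) : U P) else 0 := by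
    rw [← mpL_coeff]
    have : mpL x (al P ((ψ⁻¹ : (U P)ˣ) : U P)) = xL x ((ψ⁻¹ : (U P)ˣ) : U P) := rfl
    rw [this, h', coeff_CT]
  rw [ee, map_mul, e1, e2]
  by_cases hn : n = 0
  · subst hn
    simp only [neg_zero, if_true]
    rw [← map_mul]; simp
  · simp [hn]

/-- units of degree zero -/
theorem C0 {t₁ t₂ : B →+* k} (hI : Inv V t₁ t₂) (hD : Desc P) (ψ : (U P)ˣ)
    (s₁ s₂ : U P →+* k) (h₁ : s₁.comp (io P) = t₁) (h₂ : s₂.comp (io P) = t₂)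
    (d₁ : Dg s₁ ψ 0) (d₂ : Dg s₂ ψ 0) : V.v (s₁ ψ) = V.v (s₂ ψ) := by
  set w : U P := ee ψ * ψ + (1 - ee ψ) with hw
  have hval : ∀ (F : Type) [Field F] (x : U P →+* F) (n : ℤ), Dg x ψ n →
      x w = if n = 0 then x ψ else 1 := by
    intro F _ x n hn
    rw [hw, map_add, map_mul, map_sub, map_one, ee_val hn]
    split_ifs <;> simp
  have hu : IsUnit w := by
    refine isUnit_of_points _ (fun F _ x => ?_)
    obtain ⟨n, hn⟩ := exists_Dg x ψ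
    rw [hval F x n hn]
    split_ifs
    · exact (ψ.isUnit.map x).ne_zero
    · exact one_ne_zero
  have := desc_unit V hI hD w hu (fun F _ x y hio => by
    obtain ⟨n, hn⟩ := exists_Dg x ψ
    obtain ⟨hm, hv⟩ := Dg_fib hio hn
    rw [hval F x n hn, hval F y n hm]
    split_ifs with h
    · exact hv h
    · rfl) s₁ s₂ h₁ h₂
  rw [hval k s₁ 0 d₁, hval k s₂ 0 d₂, if_pos rfl, if_pos rfl] at this
  exact this

/-- twisting by a unit of `B` -/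
def th (P : Pm B) (β : Bˣ) : U P →+* U P :=
  (LaurentPolynomial.eval₂ (RingHom.id (U P)) (Units.map (io P : B →* U P) β)).comp (al P)

theorem th_val {F : Type} [Field F] (x : U P →+* F) (β : Bˣ) {ψ : (U P)ˣ} {n : ℤ}
    (h : Dg x ψ n) : x (th P β ψ) = x ψ * (x (io P β)) ^ n := by
  have hβ : x (io P β) ≠ 0 := ((β.isUnit.map (io P)).map x).ne_zero
  have key := ev_xL x (Units.mk0 _ hβ) (x.comp (th P β)) (by
      ext1 t
      simp only [RingHom.comp_apply, th, al, lf_io, eval₂_C, RingHom.id_apply])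
    (by
      simp only [RingHom.comp_apply, th, al, lf_0, eval₂_C_mul_T, RingHom.id_apply]
      simp [mul_comm])
    (by
      simp only [RingHom.comp_apply, th, al, lf_1, eval₂_C_mul_T, RingHom.id_apply]
      simp [mul_comm])
    (by
      show x (LaurentPolynomial.eval₂ _ _ (al P (ge P 2))) = _
      rw [al, lf_2, eval₂_C_mul_T, RingHom.id_apply, zpow_neg, zpow_one, map_mul, val_inv,
        Units.val_inv_eq_inv_val, Units.val_mk0, mul_comm]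
      rfl)
    (by
      show x (LaurentPolynomial.eval₂ _ _ (al P (ge P 3))) = _
      rw [al, lf_3, eval₂_C_mul_T, RingHom.id_apply, zpow_neg, zpow_one, map_mul, val_inv,
        Units.val_inv_eq_inv_val, Units.val_mk0, mul_comm]
      rfl)
  have h2 := congrArg (fun f => f (ψ : U P)) key
  simp only [RingHom.comp_apply] at h2
  rw [← h2]
  unfold Dg at h
  rw [h, eval₂_C_mul_T]
  simp

theorem C1 {t₁ t₂ : B →+* k} (hI : Inv V t₁ t₂) (hD : Desc P) (β : Bˣ)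
    (hβ₁ : V.v (t₁ β) = 1) (hβ₂ : V.v (t₂ β) = 1) (ψ : (U P)ˣ)
    (s₁ s₂ : U P →+* k) (h₁ : s₁.comp (io P) = t₁) (h₂ : s₂.comp (io P) = t₂) {n m : ℤ}
    (d₁ : Dg s₁ ψ n) (d₂ : Dg s₂ ψ m) : n = m := by
  set w : U P := th P β ψ * ((ψ⁻¹ : (U P)ˣ) : U P) with hw
  have hval : ∀ (F : Type) [Field F] (x : U P →+* F) (n : ℤ), Dg x ψ n →
      x w = (x (io P β)) ^ n := by
    intro F _ x n hn
    rw [hw, map_mul, th_val x β hn]
    have : x (ψ : U P) * x ((ψ⁻¹ : (U P)ˣ) : U P) = 1 := by rw [← map_mul]; simp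
    linear_combination (x (io P β)) ^ n * this
  have hu : IsUnit w := (ψ.isUnit.map (th P β)).mul (ψ⁻¹).isUnit
  have := desc_unit V hI hD w hu (fun F _ x y hio => by
    obtain ⟨n, hn⟩ := exists_Dg x ψ
    obtain ⟨hm, -⟩ := Dg_fib hio hn
    have hb : y (io P β) = x (io P β) := congrArg (fun f => f (β : B)) hio
    rw [hval F x n hn, hval F y n hm, hb]) s₁ s₂ h₁ h₂
  have e1 : s₁ (io P β) = t₁ β := congrArg (fun f => f (β : B)) h₁
  have e2 : s₂ (io P β) = t₂ β := congrArg (fun f => f (β : B)) h₂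
  rw [hval k s₁ n d₁, hval k s₂ m d₂, e1, e2, V.v_zpow (β.isUnit.map t₁).ne_zero,
    V.v_zpow (β.isUnit.map t₂).ne_zero, hβ₁, hβ₂, mul_one, mul_one] at this
  exact_mod_cast this

theorem C2 {t₁ t₂ : B →+* k} (hI : Inv V t₁ t₂) (hD : Desc P) (β : Bˣ)
    (hβ₁ : V.v (t₁ β) = 1) (hβ₂ : V.v (t₂ β) = 1) (ψ z : (U P)ˣ)
    (s₁ s₂ : U P →+* k) (h₁ : s₁.comp (io P) = t₁) (h₂ : s₂.comp (io P) = t₂) {n d : ℤ}
    (d₁ : Dg s₁ ψ n) (d₂ : Dg s₁ z d) :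
    (d : ℚ) * (V.v (s₁ ψ) - V.v (s₂ ψ)) = n * (V.v (s₁ z) - V.v (s₂ z)) := by
  have e1 : Dg s₁ (ψ ^ d * z ^ (-n)) 0 := by
    have := Dg_mul (Dg_zpow d₁ d) (Dg_zpow d₂ (-n))
    have e : d * n + -n * d = 0 := by ring
    rwa [e] at this
  obtain ⟨m, e2⟩ := exists_Dg s₂ (ψ ^ d * z ^ (-n))
  have hm := C1 V hI hD β hβ₁ hβ₂ _ s₁ s₂ h₁ h₂ e1 e2
  subst hm
  have h := C0 V hI hD _ s₁ s₂ h₁ h₂ e1 e2
  have hne : ∀ (s : U P →+* k) (χ : (U P)ˣ), s χ ≠ 0 := fun s χ => (χ.isUnit.map s).ne_zero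
  simp only [Units.val_mul, map_mul, val_zpow] at h
  rw [V.v_mul _ _ (zpow_ne_zero _ (hne s₁ ψ)) (zpow_ne_zero _ (hne s₁ z)),
    V.v_mul _ _ (zpow_ne_zero _ (hne s₂ ψ)) (zpow_ne_zero _ (hne s₂ z)),
    V.v_zpow (hne s₁ ψ), V.v_zpow (hne s₁ z), V.v_zpow (hne s₂ ψ), V.v_zpow (hne s₂ z)] at h
  push_cast at h
  linear_combination h

/-- the torus step -/
theorem step {t₁ t₂ : B →+* k} (hI : Inv V t₁ t₂) (hD : Desc P) (β : Bˣ)
    (hβ₁ : V.v (t₁ β) = 1) (hβ₂ : V.v (t₂ β) = 1)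
    (s₁ s₂ : U P →+* k) (h₁ : s₁.comp (io P) = t₁) (h₂ : s₂.comp (io P) = t₂)
    (H : (∀ ψ : (U P)ˣ, Dg s₁ ψ 0) ∨ ∃ (z : (U P)ˣ) (d : ℤ), d ≠ 0 ∧ Dg s₁ z d ∧
      ∃ lam : k, lam ≠ 0 ∧ (d : ℚ) * V.v lam = - (V.v (s₁ z) - V.v (s₂ z))) :
    ∃ s₁' : U P →+* k, s₁'.comp (io P) = t₁ ∧ Inv V s₁' s₂ := by
  rcases H with H | ⟨z, d, hd, hz, lam, hlam, hl⟩
  · refine ⟨s₁, h₁, ?_⟩
    rintro _ ⟨ψ, rfl⟩
    obtain ⟨m, hm⟩ := exists_Dg s₂ ψ
    have := C1 V hI hD β hβ₁ hβ₂ ψ s₁ s₂ h₁ h₂ (H ψ) hm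
    subst this
    exact C0 V hI hD ψ s₁ s₂ h₁ h₂ (H ψ) hm
  · obtain ⟨y, hy, y0, y1, y2, y3⟩ := exists_torus s₁ lam hlam
    refine ⟨y, hy.trans h₁, ?_⟩
    rintro _ ⟨ψ, rfl⟩
    obtain ⟨n, hn⟩ := exists_Dg s₁ ψ
    have hev := congrArg (fun f => f (ψ : U P)) (ev_xL s₁ (Units.mk0 lam hlam) y hy (by simpa using y0)
      (by simpa using y1) (by simpa using y2) (by simpa using y3))
    have hn' := hn
    unfold Dg at hn'
    simp only [RingHom.comp_apply, hn', eval₂_C_mul_T, RingHom.id_apply] at hev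
    have hev' : y (ψ : U P) = s₁ ψ * lam ^ n := by
      rw [← hev]; simp
    have hv : V.v (y (ψ : U P)) = V.v (s₁ ψ) + n * V.v lam := by
      rw [hev', V.v_mul _ _ (ψ.isUnit.map s₁).ne_zero (zpow_ne_zero _ hlam), V.v_zpow hlam]
    have h2 := C2 V hI hD β hβ₁ hβ₂ ψ z s₁ s₂ h₁ h₂ hn hz
    have hdq : (d : ℚ) ≠ 0 := by exact_mod_cast hd
    apply mul_left_cancel₀ hdq
    rw [hv]
    linear_combination h2 + n * hl

end

end Pool.Agent.H407.Edr
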