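import Mathlib

set_option autoImplicit false

namespace Pool.Agent.H407.Edr

open LaurentPolynomial

noncomputable section

/-- parameters: a `2 × 2` matrix and a row -/
structure Pm (B : Type) where
  a : B
  b : B
  c : B
  d : B
  u : B
  w : B

variable {B : Type} [CommRing B]

/-- the ideal of the universal ring -/
def rel (P : Pm B) : Ideal (MvPolynomial (Fin 4) B) :=
  Ideal.span {MvPolynomial.X 0 * (MvPolynomial.C P.a * MvPolynomial.X 2 +
      MvPolynomial.C P.b * MvPolynomial.X 3) +
    MvPolynomial.X 1 * (MvPolynomial.C P.c * MvPolynomial.X 2 +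
      MvPolynomial.C P.d * MvPolynomial.X 3) - 1,
    MvPolynomial.C P.u * MvPolynomial.X 2 + MvPolynomial.C P.w * MvPolynomial.X 3}

/-- universal ring for `r A s = 1`, `(u, w) s = 0` -/
def U (P : Pm B) : Type := MvPolynomial (Fin 4) B ⧸ rel P

instance (P : Pm B) : CommRing (U P) := inferInstanceAs (CommRing (_ ⧸ _))

def mkU (P : Pm B) : MvPolynomial (Fin 4) B →+* U P := Ideal.Quotient.mk (rel P)
def io (P : Pm B) : B →+* U P := (mkU P).comp MvPolynomial.C
def ge (P : Pm B) (i : Fin 4) : U P := mkU P (MvPolynomial.X i)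

theorem mkU_zero (P : Pm B) {t : MvPolynomial (Fin 4) B} (h : t ∈ rel P) : mkU P t = 0 :=
  Ideal.Quotient.eq_zero_iff_mem.mpr h

theorem io_apply (P : Pm B) (t : B) : io P t = mkU P (MvPolynomial.C t) := rfl

theorem rel1 (P : Pm B) : ge P 0 * (io P P.a * ge P 2 + io P P.b * ge P 3) +
    ge P 1 * (io P P.c * ge P 2 + io P P.d * ge P 3) = 1 := by
  have h := mkU_zero P (t := MvPolynomial.X 0 * (MvPolynomial.C P.a * MvPolynomial.X 2 +
      MvPolynomial.C P.b * MvPolynomial.X 3) +
    MvPolynomial.X 1 * (MvPolynomial.C P.c * MvPolynomial.X 2 +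
      MvPolynomial.C P.d * MvPolynomial.X 3) - 1) (Ideal.subset_span (by simp))
  rw [map_sub, map_one, sub_eq_zero] at h
  simp only [io_apply, ge, ← map_add, ← map_mul]
  exact h

theorem rel2 (P : Pm B) : io P P.u * ge P 2 + io P P.w * ge P 3 = 0 := by
  have h := mkU_zero P (t := MvPolynomial.C P.u * MvPolynomial.X 2 +
      MvPolynomial.C P.w * MvPolynomial.X 3) (Ideal.subset_span (by simp))
  simp only [io_apply, ge, ← map_add, ← map_mul]
  exact h

/-- solutions over a ring -/
def Sol {C : Type} [CommRing C] (P : Pm B) (φ : B →+* C) (x0 x1 x2 x3 : C) : Prop :=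
  x0 * (φ P.a * x2 + φ P.b * x3) + x1 * (φ P.c * x2 + φ P.d * x3) = 1 ∧
    φ P.u * x2 + φ P.w * x3 = 0

/-- the homomorphism given by a solution -/
def lf {C : Type} [CommRing C] (P : Pm B) (φ : B →+* C) (x0 x1 x2 x3 : C)
    (h : Sol P φ x0 x1 x2 x3) : U P →+* C :=
  Ideal.Quotient.lift (rel P) (MvPolynomial.eval₂Hom φ ![x0, x1, x2, x3]) (by
    intro t ht
    have : rel P ≤ RingHom.ker (MvPolynomial.eval₂Hom φ ![x0, x1, x2, x3]) := by
      refine Ideal.span_le.mpr ?_
      intro y hy
      rcases hy with rfl | hy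
      · simp only [SetLike.mem_coe, RingHom.mem_ker, map_sub, map_add, map_mul,
          MvPolynomial.coe_eval₂Hom, MvPolynomial.eval₂_X, MvPolynomial.eval₂_C, map_one]
        have := h.1
        simp only [Matrix.cons_val_zero, Matrix.cons_val_one, Matrix.cons_val]
        rw [this, sub_self]
      · rw [Set.mem_singleton_iff] at hy
        subst hy
        simp only [SetLike.mem_coe, RingHom.mem_ker, map_add, map_mul,
          MvPolynomial.coe_eval₂Hom, MvPolynomial.eval₂_X, MvPolynomial.eval₂_C]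
        exact h.2
    exact this ht)

section lf
variable {C : Type} [CommRing C] (P : Pm B) (φ : B →+* C) (x0 x1 x2 x3 : C)
    (h : Sol P φ x0 x1 x2 x3)

theorem lf_mk (t : MvPolynomial (Fin 4) B) :
    lf P φ x0 x1 x2 x3 h (mkU P t) = MvPolynomial.eval₂Hom φ ![x0, x1, x2, x3] t :=
  Ideal.Quotient.lift_mk _ _ _

theorem lf_io (t : B) : lf P φ x0 x1 x2 x3 h (io P t) = φ t := by
  rw [io_apply, lf_mk]; simp

theorem lf_comp_io : (lf P φ x0 x1 x2 x3 h).comp (io P) = φ := RingHom.ext (lf_io P φ x0 x1 x2 x3 h)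

theorem lf_0 : lf P φ x0 x1 x2 x3 h (ge P 0) = x0 := by rw [ge, lf_mk]; simp
theorem lf_1 : lf P φ x0 x1 x2 x3 h (ge P 1) = x1 := by rw [ge, lf_mk]; simp
theorem lf_2 : lf P φ x0 x1 x2 x3 h (ge P 2) = x2 := by rw [ge, lf_mk]; simp
theorem lf_3 : lf P φ x0 x1 x2 x3 h (ge P 3) = x3 := by rw [ge, lf_mk]; simp
end lf

theorem U_ext {C : Type} [CommRing C] {P : Pm B} {x y : U P →+* C}
    (h : x.comp (io P) = y.comp (io P)) (h0 : x (ge P 0) = y (ge P 0))
    (h1 : x (ge P 1) = y (ge P 1)) (h2 : x (ge P 2) = y (ge P 2)) (h3 : x (ge P 3) = y (ge P 3)) :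
    x = y := by
  apply Ideal.Quotient.ringHom_ext
  apply MvPolynomial.ringHom_ext
  · intro t
    exact congrArg (fun f => f t) h
  · intro i
    fin_cases i
    · exact h0
    · exact h1
    · exact h2
    · exact h3

theorem sol_pt {C : Type} [CommRing C] {P : Pm B} (x : U P →+* C) :
    Sol P (x.comp (io P)) (x (ge P 0)) (x (ge P 1)) (x (ge P 2)) (x (ge P 3)) := by
  constructor
  · have := congrArg x (rel1 P)
    simpa [map_add, map_mul] using this
  · have := congrArg x (rel2 P)
    simpa [map_add, map_mul] using this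

/-- the coaction -/
def al (P : Pm B) : U P →+* (U P)[T;T⁻¹] :=
  lf P (LaurentPolynomial.C.comp (io P)) (C (ge P 0) * T 1) (C (ge P 1) * T 1)
    (C (ge P 2) * T (-1)) (C (ge P 3) * T (-1)) (by
      have hT : (T 1 : (U P)[T;T⁻¹]) * T (-1) = 1 := by rw [← T_add]; simp
      constructor
      · have h := congrArg (C : U P →+* (U P)[T;T⁻¹]) (rel1 P)
        simp only [map_add, map_mul, map_one] at h
        simp only [RingHom.comp_apply]
        linear_combination h + (C (ge P 0) * (C (io P P.a) * C (ge P 2) + C (io P P.b) * C (ge P 3)) +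
          C (ge P 1) * (C (io P P.c) * C (ge P 2) + C (io P P.d) * C (ge P 3))) * hT
      · have h := congrArg (C : U P →+* (U P)[T;T⁻¹]) (rel2 P)
        simp only [map_add, map_mul, map_zero] at h
        simp only [RingHom.comp_apply]
        linear_combination T (-1) * h)

/-- evaluation of Laurent polynomials at a unit -/
theorem ev1_al (P : Pm B) : (LaurentPolynomial.eval₂ (RingHom.id (U P)) 1).comp (al P) =
    RingHom.id (U P) := by
  apply U_ext
  · ext t; simp [al, lf_io]
  · simp [al, lf_0]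
  · simp [al, lf_1]
  · simp [al, lf_2]
  · simp [al, lf_3]

end

end Pool.Agent.H407.Edr
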